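import Pool.Agent.MP_a8995d_an.BI.Main2

/-! The threshold for a shift along an orthonormal basis indexed by the integers. -/

namespace Pool.Agent.MP_a8995d_an.BI

open Finset Filter Topology

variable {E : Type} [NormedAddCommGroup E] [InnerProductSpace ℂ E]

namespace Bas

/-- The operator read in coordinates. -/
noncomputable def co (e : HilbertBasis ℤ ℂ E) (T : E →L[ℂ] E) : H →L[ℂ] H :=
  (e.repr.toContinuousLinearEquiv : E →L[ℂ] H) ∘L T ∘L
    (e.repr.toContinuousLinearEquiv.symm : H →L[ℂ] E)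

theorem co_repr (e : HilbertBasis ℤ ℂ E) (T : E →L[ℂ] E) (y : E) :
    co e T (e.repr y) = e.repr (T y) := by
  simp [co]

theorem pow_repr (e : HilbertBasis ℤ ℂ E) (T : E →L[ℂ] E) (t : ℕ) (y : E) :
    ((1 + co e T) ^ t) (e.repr y) = e.repr (((1 + T) ^ t) y) := by
  induction t with
  | zero => simp
  | succ t ih =>
    rw [pow_succ', pow_succ']
    change ((1 + co e T) ^ t) (e.repr y) + co e T (((1 + co e T) ^ t) (e.repr y)) =
      e.repr (((1 + T) ^ t) y + T (((1 + T) ^ t) y))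
    rw [ih, co_repr, map_add]

theorem coord (e : HilbertBasis ℤ ℂ E) (w : ℤ → ℝ) (T : E →L[ℂ] E)
    (hT : ∀ n, T (e n) = (w n : ℂ) • e (n - 1)) (x : H) (n : ℤ) :
    co e T x n = (w (n + 1) : ℂ) * x (n + 1) := by
  obtain ⟨y, rfl⟩ := e.repr.surjective x
  rw [co_repr, e.repr_apply_apply, e.repr_apply_apply]
  have h : (innerSL ℂ (e n)) ∘L T = (w (n + 1) : ℂ) • innerSL ℂ (e (n + 1)) := by
    refine ContinuousLinearMap.ext_on
      (Submodule.dense_iff_topologicalClosure_eq_top.2 e.dense_span) ?_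
    rintro _ ⟨m, rfl⟩
    have ho := orthonormal_iff_ite.1 e.orthonormal
    simp only [ContinuousLinearMap.comp_apply, hT, innerSL_apply_apply, inner_smul_right,
      smul_apply, smul_eq_mul, ho]
    by_cases hm : m = n + 1
    · subst hm
      simp
    · rw [if_neg (by omega), if_neg (by omega), mul_zero, mul_zero]
  simpa using DFunLike.congr_fun h y

end Bas

open Bas

theorem mainB (e : HilbertBasis ℤ ℂ E) (w : ℤ → ℝ) (hw : ∀ n, 0 < w n)
    (T : E →L[ℂ] E) (hT : ∀ n, T (e n) = (w n : ℂ) • e (n - 1))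
    (p a b : ℝ) (hp : 0 < p)
    (ha : Tendsto (fun n : ℕ => Real.log (∏ j ∈ range n, w (-j)) / (n : ℝ) ^ (1 + p)) atTop
      (𝓝 (-a)))
    (hb : Tendsto (fun n : ℕ => Real.log (∏ j ∈ range n, w (j + 1)) / (n : ℝ) ^ (1 + p)) atTop
      (𝓝 (-b)))
    (N : ℕ) (hN1 : 1 ≤ N) (hne : a ≠ (N : ℝ) ^ p * b) :
    List.TFAE [(N : ℝ) ^ p * b < a,
      ∀ U : Fin (N + 1) → Set E, (∀ i, IsOpen (U i) ∧ (U i).Nonempty) →
        ∀ᶠ k : ℕ in atTop, ∃ x, ∀ i : Fin (N + 1), ((1 + T) ^ (i.val * k)) x ∈ U i,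
      ∀ U : Set E, IsOpen U → U.Nonempty →
        ∃ k : ℕ, 1 ≤ k ∧ ∃ x, ∀ i ≤ N, ((1 + T) ^ (i * k)) x ∈ U] := by
  have h := mainV w hw (co e T) (coord e w T hT) p a b hp ha hb N hN1 hne
  tfae_have 1 → 2 := fun h1 U hU => by
    have h0 := (h.out 0 1).1 h1
    have h2 := h0 (fun i => e.repr.symm ⁻¹' U i) fun i =>
      ⟨(hU i).1.preimage e.repr.symm.continuous, (hU i).2.preimage e.repr.symm.surjective⟩
    filter_upwards [h2] with k ⟨x, hx⟩
    obtain ⟨y, rfl⟩ := e.repr.surjective x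
    refine ⟨y, fun i => ?_⟩
    have := hx i
    rwa [pow_repr, Set.mem_preimage, LinearIsometryEquiv.symm_apply_apply] at this
  tfae_have 2 → 3 := fun h U hU hn => by
    obtain ⟨k, ⟨x, hx⟩, hk⟩ :=
      ((h (fun _ => U) fun _ => ⟨hU, hn⟩).and (eventually_ge_atTop 1)).exists
    exact ⟨k, hk, x, fun i hi => hx ⟨i, Nat.lt_succ_of_le hi⟩⟩
  tfae_have 3 → 1 := fun h3 => by
    refine (h.out 2 0).1 fun U hU hn => ?_
    obtain ⟨k, hk, y, hy⟩ := h3 (e.repr ⁻¹' U) (hU.preimage e.repr.continuous)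
      (hn.preimage e.repr.surjective)
    exact ⟨k, hk, e.repr y, fun i hi => by rw [pow_repr]; exact hy i hi⟩
  tfae_finish

end Pool.Agent.MP_a8995d_an.BI
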