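import Pool.Agent.MP_a8995d_an.BI.Spec

/-! Bounds for divided differences of products and of their inverses. -/

namespace Pool.Agent.MP_a8995d_an.BI

open Finset Filter

namespace Dbs

theorem zero (h : DDS) (A : Finset ℕ) : ∀ B : Finset ℕ, A.card + 1 < B.card →
    DD B (fun y => ∏ r ∈ A, ((y : ℝ) - r)) = 0 := by
  induction A using Finset.induction_on with
  | empty => exact fun B hB => by simpa using h.one B hB
  | insert r A hr ih =>
    intro B hB
    rw [card_insert_of_notMem hr] at hB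
    obtain ⟨c, hc⟩ := card_pos.1 (by omega : 0 < B.card)
    simp only [prod_insert hr]
    rw [h.mul B c r _ hc, ih B (by omega), ih _ (by rw [card_erase_of_mem hc]; omega), mul_zero,
      add_zero]

theorem prod0 (h : DDS) {A B : Finset ℕ} {m : ℕ → ℝ} (hB : B.card = 1)
    (hm : ∀ r ∈ A, ∀ y ∈ B, |(y : ℝ) - r| ≤ m r) :
    |DD B fun y => ∏ r ∈ A, ((y : ℝ) - r)| ≤ ∏ r ∈ A, m r := by
  obtain ⟨c, rfl⟩ := card_eq_one.1 hB
  rw [h.single, abs_prod]
  exact prod_le_prod (fun _ _ => abs_nonneg _) fun r hr => hm r hr c (mem_singleton_self c)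

theorem prod (h : DDS) (m : ℕ → ℝ) {κ : ℝ} (hκ : 0 < κ) (A : Finset ℕ) :
    ∀ (B : Finset ℕ) (j : ℕ), B.card = j + 1 → (∀ r ∈ A, κ ≤ m r) →
      (∀ r ∈ A, ∀ y ∈ B, |(y : ℝ) - r| ≤ m r) →
      |DD B fun y => ∏ r ∈ A, ((y : ℝ) - r)| ≤ (A.card / κ) ^ j * ∏ r ∈ A, m r := by
  induction A using Finset.induction_on with
  | empty =>
    intro B j hB _ hm
    cases j with
    | zero => simpa using prod0 h hB hm
    | succ j => simpa using h.one B (by omega)
  | insert r A hr ih =>
    intro B j hB hk hm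
    cases j with
    | zero => simpa using prod0 h hB hm
    | succ j =>
      obtain ⟨c, hc⟩ := card_pos.1 (by omega : 0 < B.card)
      have k1 := fun s hs => hk s (mem_insert_of_mem hs)
      have k2 := fun s hs => hm s (mem_insert_of_mem hs)
      have a1 := ih B (j + 1) hB k1 k2
      have a2 := ih (B.erase c) j (by rw [card_erase_of_mem hc]; omega) k1
        fun s hs y hy => k2 s hs y (mem_of_mem_erase hy)
      have a3 := hm r (mem_insert_self _ _) c hc
      have a4 := hk r (mem_insert_self _ _)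
      have hP : 0 ≤ ∏ s ∈ A, m s := prod_nonneg fun s hs => hκ.le.trans (k1 s hs)
      simp only [prod_insert hr]
      rw [h.mul B c r _ hc, card_insert_of_notMem hr, Nat.cast_succ, add_div]
      have hu : (0 : ℝ) ≤ A.card / κ := by positivity
      have hw : (0 : ℝ) ≤ 1 / κ := by positivity
      have a5 : 1 ≤ m r * (1 / κ) := by rwa [mul_one_div, one_le_div hκ]
      generalize (A.card : ℝ) / κ = u at a1 a2 hu ⊢
      generalize 1 / κ = w at hw a5 ⊢
      generalize ∏ s ∈ A, m s = P at a1 a2 hP ⊢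
      have hr0 : 0 ≤ m r := hκ.le.trans a4
      calc _ ≤ m r * (u ^ (j + 1) * P) + m r * w * (u ^ j * P) := by
            refine (abs_add_le _ _).trans (add_le_add ?_
              (a2.trans (le_mul_of_one_le_left (by positivity) a5)))
            rw [abs_mul]
            exact mul_le_mul a3 a1 (abs_nonneg _) hr0
        _ = (u + w) * u ^ j * (m r * P) := by ring
        _ ≤ (u + w) * (u + w) ^ j * (m r * P) := by gcongr; linarith
        _ = _ := by ring

theorem inv0 (h : DDS) {A B : Finset ℕ} {m : ℕ → ℝ} {κ : ℝ} (hκ : 0 < κ) (hB : B.card = 1)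
    (hk : ∀ r ∈ A, κ ≤ m r) (hm : ∀ r ∈ A, ∀ y ∈ B, m r ≤ |(y : ℝ) - r|) :
    |DD B fun y => (∏ r ∈ A, ((y : ℝ) - r))⁻¹| ≤ ∏ r ∈ A, (m r)⁻¹ := by
  obtain ⟨c, rfl⟩ := card_eq_one.1 hB
  rw [h.single, abs_inv, abs_prod, ← prod_inv_distrib]
  exact prod_le_prod (fun _ _ => by positivity) fun r hr =>
    inv_anti₀ (hκ.trans_le (hk r hr)) (hm r hr c (mem_singleton_self c))

theorem inv (h : DDS) (m : ℕ → ℝ) {κ : ℝ} (hκ : 0 < κ) (A : Finset ℕ) :
    ∀ (j : ℕ) (B : Finset ℕ), B.card = j + 1 → (∀ r ∈ A, κ ≤ m r) →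
      (∀ r ∈ A, ∀ y ∈ B, m r ≤ |(y : ℝ) - r|) →
      |DD B fun y => (∏ r ∈ A, ((y : ℝ) - r))⁻¹| ≤ (A.card / κ) ^ j * ∏ r ∈ A, (m r)⁻¹ := by
  induction A using Finset.induction_on with
  | empty =>
    intro j B hB hk hm
    cases j with
    | zero => simpa using inv0 h hκ hB hk hm
    | succ j => simpa using h.one B (by omega)
  | insert r A hr ih =>
    intro j
    induction j with
    | zero => exact fun B hB hk hm => by simpa using inv0 h hκ hB hk hm
    | succ j ihj =>
      intro B hB hk hm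
      obtain ⟨c, hc⟩ := card_pos.1 (by omega : 0 < B.card)
      have k1 := fun s hs => hk s (mem_insert_of_mem hs)
      have a1 := ih (j + 1) B hB k1 fun s hs => hm s (mem_insert_of_mem hs)
      have a2 := ihj (B.erase c) (by rw [card_erase_of_mem hc]; omega) hk
        fun s hs y hy => hm s hs y (mem_of_mem_erase hy)
      have a3 := hm r (mem_insert_self _ _)
      have a4 := hk r (mem_insert_self _ _)
      have hr0 : 0 < m r := hκ.trans_le a4
      have hP : 0 ≤ ∏ s ∈ A, (m s)⁻¹ := prod_nonneg fun s hs => inv_nonneg.2 (hκ.le.trans (k1 s hs))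
      have e : (DD B fun y => (∏ s ∈ A, ((y : ℝ) - s))⁻¹) =
          DD B fun y => ((y : ℝ) - r) * (∏ s ∈ insert r A, ((y : ℝ) - s))⁻¹ :=
        sum_congr rfl fun y hy => by
          simp only [prod_insert hr, mul_inv,
            mul_inv_cancel_left₀ (abs_pos.1 (hr0.trans_le (a3 y hy)))]
      rw [e, h.mul B c r _ hc] at a1
      rw [prod_insert hr, card_insert_of_notMem hr, Nat.cast_succ, add_div] at a2 ⊢
      have hu : (0 : ℝ) ≤ A.card / κ := by positivity
      have a5 : (m r)⁻¹ ≤ 1 / κ := by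
        rw [one_div]
        exact inv_anti₀ hκ a4
      have hw : (0 : ℝ) ≤ 1 / κ := by positivity
      generalize (A.card : ℝ) / κ = u at a1 a2 hu ⊢
      generalize 1 / κ = w at hw a2 a5 ⊢
      generalize ∏ s ∈ A, (m s)⁻¹ = P at a1 a2 hP ⊢
      generalize DD (B.erase c) _ = Y at a1 a2
      generalize DD B _ = X at a1 ⊢
      have b1 : |((c : ℝ) - r) * X| ≤ |((c : ℝ) - r) * X + Y| + |Y| := by
        simpa using abs_sub (((c : ℝ) - r) * X + Y) Y
      rw [abs_mul] at b1
      refine le_of_mul_le_mul_left ?_ hr0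
      calc m r * |X| ≤ |(c : ℝ) - r| * |X| := mul_le_mul_of_nonneg_right (a3 c hc) (abs_nonneg _)
        _ ≤ u * u ^ j * P + (u + w) ^ j * ((m r)⁻¹ * P) := by rw [← pow_succ']; linarith
        _ ≤ u * (u + w) ^ j * P + (u + w) ^ j * (w * P) := by gcongr; linarith
        _ = _ := by field_simp; ring

end Dbs

theorem dbs (h : DDS) : DBS :=
  ⟨Dbs.zero h, fun A B j m _ hB hκ => Dbs.prod h m hκ A B j hB,
    fun A B j m _ hB hκ => Dbs.inv h m hκ A j B hB⟩

end Pool.Agent.MP_a8995d_an.BI
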