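import Pool.Agent.MP_a8995d_an.BI.Spec

/-! Rules for divided differences. -/

namespace Pool.Agent.MP_a8995d_an.BI

open Finset Filter

namespace Dds

theorem single (c : ℕ) (f : ℕ → ℝ) : DD {c} f = f c := by simp [DD]

theorem mul (s : Finset ℕ) (c : ℕ) (r : ℝ) (f : ℕ → ℝ) (hc : c ∈ s) :
    DD s (fun y => ((y : ℝ) - r) * f y) = ((c : ℝ) - r) * DD s f + DD (s.erase c) f := by
  have h : DD (s.erase c) f =
      ∑ y ∈ s, ((y : ℝ) - c) * f y / ∏ x ∈ s.erase y, ((y : ℝ) - x) := by
    rw [← add_sum_erase _ _ hc, sub_self, zero_mul, zero_div, zero_add]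
    refine sum_congr rfl fun y hy => ?_
    have k := ne_of_mem_erase hy
    rw [← mul_prod_erase (s.erase y) _ (mem_erase.2 ⟨k.symm, hc⟩), erase_right_comm,
      mul_div_mul_left _ _ (sub_ne_zero.2 (Nat.cast_injective.ne k))]
  rw [h, DD, DD, mul_sum, ← sum_add_distrib]
  exact sum_congr rfl fun y _ => by ring

theorem two (s : Finset ℕ) (c c' : ℕ) (f : ℕ → ℝ) (hc : c ∈ s) (hc' : c' ∈ s) :
    ((c : ℝ) - c') * DD s f = DD (s.erase c') f - DD (s.erase c) f := by
  have h1 := mul s c c' f hc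
  have h2 := mul s c' c' f hc'
  rw [sub_self, zero_mul, zero_add] at h2
  linarith

theorem one' (n : ℕ) : ∀ s : Finset ℕ, s.card = n + 1 →
    DD s (fun _ => 1) = if n = 0 then 1 else 0 := by
  induction n with
  | zero =>
    intro s hs
    obtain ⟨c, rfl⟩ := card_eq_one.1 hs
    simp [single]
  | succ n ih =>
    intro s hs
    obtain ⟨c, hc, c', hc', k⟩ := one_lt_card.1 (show 1 < s.card by omega)
    have h := two s c c' (fun _ => 1) hc hc'
    rw [ih (s.erase c') (by rw [card_erase_of_mem hc', hs]; rfl),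
      ih (s.erase c) (by rw [card_erase_of_mem hc, hs]; rfl), sub_self] at h
    exact (mul_eq_zero.1 h).resolve_left (sub_ne_zero.2 (Nat.cast_injective.ne k))

theorem cancel (C : Finset ℕ) : ∀ (s : Finset ℕ) (f : ℕ → ℝ), C ⊆ s →
    DD s (fun y => (∏ c ∈ C, ((y : ℝ) - c)) * f y) = DD (s \ C) f := by
  induction C using Finset.induction_on with
  | empty => simp
  | insert c C hc ih =>
    intro s f h
    have k := mul s c c (fun y => (∏ c ∈ C, ((y : ℝ) - c)) * f y) (h (mem_insert_self _ _))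
    rw [sub_self, zero_mul, zero_add, ih _ _ (subset_erase.2 ⟨(subset_insert _ _).trans h, hc⟩),
      erase_sdiff_comm, ← sdiff_insert] at k
    simp only [prod_insert hc, mul_assoc]
    exact k

theorem diff (f : ℕ → ℝ) (j : ℕ) : ∀ t : ℕ,
    (fwdDiff 1)^[j] f t = j.factorial * DD (Icc t (t + j)) f := by
  induction j with
  | zero => simp [single]
  | succ j ih =>
    intro t
    have h := two (Icc t (t + (j + 1))) (t + (j + 1)) t f (by simp) (by simp)
    have e1 : (Icc t (t + (j + 1))).erase t = Icc (t + 1) (t + 1 + j) := by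
      ext; simp only [mem_erase, mem_Icc]; omega
    have e2 : (Icc t (t + (j + 1))).erase (t + (j + 1)) = Icc t (t + j) := by
      ext; simp only [mem_erase, mem_Icc]; omega
    rw [e1, e2] at h
    rw [Function.iterate_succ_apply', fwdDiff, ih, ih, ← mul_sub, ← h, Nat.factorial_succ]
    push_cast
    ring

theorem split (I : Finset ℕ) (B : ℕ → Finset ℕ) (f : ℕ → ℝ)
    (h : ∀ i ∈ I, ∀ j ∈ I, i ≠ j → Disjoint (B i) (B j)) : DD (I.biUnion B) f =
      ∑ i ∈ I, DD (B i) fun y => f y * (∏ x ∈ I.biUnion B \ B i, ((y : ℝ) - x))⁻¹ := by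
  rw [DD, sum_biUnion fun i hi j hj k => h i hi j hj k]
  refine sum_congr rfl fun i hi => sum_congr rfl fun y hy => ?_
  have e : (I.biUnion B).erase y = (I.biUnion B \ B i) ∪ (B i).erase y := by
    ext x
    simp only [mem_erase, mem_union, Finset.mem_sdiff]
    refine ⟨fun k => ?_, fun k => ?_⟩
    · by_cases q : x ∈ B i
      · exact Or.inr ⟨k.1, q⟩
      · exact Or.inl ⟨k.2, q⟩
    · rcases k with k | k
      · exact ⟨fun q => k.2 (q ▸ hy), k.1⟩
      · exact ⟨k.1, subset_biUnion_of_mem B hi k.2⟩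
  rw [e, prod_union (sdiff_disjoint.mono_right (erase_subset _ _)), ← div_div, div_eq_mul_inv (f y)]

end Dds

theorem dds : DDS where
  single := Dds.single
  one s h := by
    rw [Dds.one' (s.card - 1) s (by omega), if_neg (by omega)]
  mul := Dds.mul
  cancel s C f h := Dds.cancel C s f h
  diff j t f := Dds.diff f j t
  split := Dds.split

end Pool.Agent.MP_a8995d_an.BI
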