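import Pool.Agent.MP_a8995d_an.BI.Spec

/-! The two coordinate statements from their parts, and the equivalence. -/

namespace Pool.Agent.MP_a8995d_an.BI

open Finset Filter

namespace Glue

theorem W_pos (a b : ℝ) (n : ℤ) : 0 < W a b n := Real.exp_pos _

theorem W_zero (a b : ℝ) : W a b 0 = 1 := by simp [W]

theorem orb_zero (z : ℤ → ℝ) (n : ℤ) : orb z 0 n = z n := by simp [orb]

theorem orb_shift (z : ℤ → ℝ) (c : ℝ) (n0 : ℤ) (t : ℕ) (n : ℤ) :
    orb (fun m => c * z (m - n0)) t n = c * orb z t (n - n0) := by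
  unfold orb
  rw [mul_sum]
  refine sum_congr rfl fun j _ => ?_
  have : n + j - n0 = n - n0 + j := by ring
  simp only [this]
  ring

end Glue

open Glue

theorem negC (hA : NegA) (hB : NegB) (hN : NegN) (a b : ℝ) (N : ℕ) (ha : 0 < a) (hb : 0 < b)
    (hN1 : 1 ≤ N) (h : a < N * b) : NegC a b N := by
  filter_upwards [hN a b N ha hb h] with k hk z hz
  obtain ⟨d, hodd, hdk, h1, h2, h3⟩ := hk
  obtain ⟨h4, h5⟩ := hA N k d z (W a b) hodd hdk h1 (W_zero a b) h2 hz
  have h6 := hB N k d z (W a b) hN1 hdk h3 (fun n hn => by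
    have := hz 0 (Nat.zero_le _) n
    rw [zero_mul, orb_zero, if_neg (by omega), sub_zero] at this
    exact this)
  set c : ℝ := d.factorial * ((N * k + d : ℕ) : ℝ) ^ (N * (d + 1)) with hc
  have hc0 : 0 ≤ c := by positivity
  have h7 : 1 ≤ c * ∑ i ∈ range (N + 1), cw N k d i := by
    rw [mul_sum]
    calc (1 : ℝ) ≤ c * cw N k d 0 := h4 0 (Nat.zero_le _)
      _ ≤ ∑ i ∈ range (N + 1), c * cw N k d i :=
        single_le_sum (f := fun i => c * cw N k d i)
          (fun i hi => le_trans zero_le_one (h4 i (Nat.lt_succ_iff.1 (mem_range.1 hi))))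
          (mem_range.2 (Nat.succ_pos _))
  have h8 := mul_le_mul_of_nonneg_left (h5.trans (le_abs_self _)) hc0
  nlinarith

theorem posC (hB : PosB) (h1 : PosN1) (h2 : PosN2) (a b : ℝ) (N : ℕ) (ha : 0 < a) (hb : 0 < b)
    (hN1 : 1 ≤ N) (h : N * b < a) : PosC a b N := by
  intro i0 hi0 n0 ε hε
  have hNb : 0 < (N : ℝ) * b := mul_pos (by exact_mod_cast hN1) hb
  obtain ⟨l, hl1, hl2⟩ := exists_between (div_lt_div_of_pos_left (show (0 : ℝ) < 2 by norm_num)
    hNb h)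
  have hl0 : 0 < l := lt_trans (by positivity) hl1
  have hal : 2 < a * l := by
    rw [div_lt_iff₀ ha] at hl1
    linarith
  have hbl : N * b * l < 2 := by
    rw [lt_div_iff₀ hNb] at hl2
    linarith
  obtain ⟨v, hv⟩ := h1 a b l ε N n0 ha hb hN1 hl0 hbl hε
  filter_upwards [hv, h2 a b l ε N v n0 ha hb hN1 hal hε, eventually_ge_atTop 1] with k hk1 hk2 hk
  have hlog : 0 ≤ l * Real.log k :=
    mul_nonneg hl0.le (Real.log_nonneg (by exact_mod_cast hk))
  set d := ⌈l * Real.log k⌉₊ with hd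
  have hd1 : l * Real.log k ≤ d := Nat.le_ceil _
  have hd2 : (d : ℝ) ≤ l * Real.log k + 1 := (Nat.ceil_lt_add_one hlog).le
  obtain ⟨e1, e2, e3⟩ := hk1 d hd2
  have e4 := hk2 d hd1 hd2
  obtain ⟨z, hz⟩ := hB N k d v i0 hN1 hi0 e1 e2
  refine ⟨fun m => W a b n0 * z (m - n0), fun i hi n => ?_⟩
  obtain ⟨z1, z2, z3, z4⟩ := hz i hi
  have hW := W_pos a b n0
  have hR : 0 ≤ ε * W a b n / 2 ^ (n - n0).natAbs := by
    have := W_pos a b n
    positivity
  rw [orb_shift]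
  rcases lt_trichotomy n n0 with hn | hn | hn
  · obtain ⟨j, hj⟩ : ∃ j : ℕ, n = n0 - j := ⟨(n0 - n).toNat, by omega⟩
    have hj1 : 1 ≤ j := by omega
    have f1 : n - n0 = -(j : ℤ) := by omega
    have f2 : (n - n0).natAbs = j := by omega
    rw [if_neg (fun hh => hn.ne hh.2), sub_zero, f2, f1]
    rcases le_or_gt j d with hjd | hjd
    · rw [z2 j hj1 hjd, mul_zero, abs_zero, ← f2]
      exact hR
    · rw [abs_mul, abs_of_pos hW, mul_comm, hj]
      exact (mul_le_mul_of_nonneg_right (z4 j hjd) hW.le).trans (e4 j hjd)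
  · subst hn
    rw [sub_self, z1]
    by_cases hii : i = i0
    · simpa [hii] using hR
    · simpa [hii] using hR
  · obtain ⟨u, hu⟩ : ∃ u : ℕ, n = n0 + u := ⟨(n - n0).toNat, by omega⟩
    have hu1 : 1 ≤ u := by omega
    have f1 : n - n0 = (u : ℤ) := by omega
    have f2 : (n - n0).natAbs = u := by omega
    rw [if_neg (fun hh => hn.ne' hh.2), sub_zero, abs_mul, abs_of_pos hW, mul_comm]
    have g := mul_le_mul_of_nonneg_right (z3 u hu1) hW.le
    rw [← f1] at g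
    refine g.trans ?_
    rcases le_or_gt u (pM N d v) with hM | hM
    · rw [f2, hu]
      have := e3 u hu1 hM
      simpa [hM] using this
    · have hv' : ¬ u ≤ v := by
        have : v ≤ pM N d v := by
          unfold pM
          nlinarith
        omega
      rw [if_neg hv', if_neg (not_le.2 hM), zero_mul, zero_mul]
      exact hR

theorem tfae (hA : NegA) (hB : NegB) (hN : NegN) (hO : NegO) (pB : PosB) (p1 : PosN1)
    (p2 : PosN2) (pO : PosO) (a b : ℝ) (ha : 0 < a) (hb : 0 < b) (T : H →L[ℂ] H) (hT : Sh a b T)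
    (N : ℕ) (hN1 : 1 ≤ N) (hne : a ≠ N * b) :
    List.TFAE [N * b < a,
      ∀ U : Fin (N + 1) → Set H, (∀ i, IsOpen (U i) ∧ (U i).Nonempty) →
        ∀ᶠ k : ℕ in atTop, ∃ x, ∀ i : Fin (N + 1), ((1 + T) ^ (i.val * k)) x ∈ U i,
      ∀ U : Set H, IsOpen U → U.Nonempty →
        ∃ k : ℕ, 1 ≤ k ∧ ∃ x, ∀ i ≤ N, ((1 + T) ^ (i * k)) x ∈ U] := by
  tfae_have 1 → 2 := fun h =>
    pO a b N T ha hb hT (posC pB p1 p2 a b N ha hb hN1 h)
  tfae_have 2 → 3 := fun h U hU hn => by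
    obtain ⟨k, ⟨x, hx⟩, hk⟩ :=
      ((h (fun _ => U) fun _ => ⟨hU, hn⟩).and (eventually_ge_atTop 1)).exists
    exact ⟨k, hk, x, fun i hi => hx ⟨i, Nat.lt_succ_of_le hi⟩⟩
  tfae_have 3 → 1 := fun h => by
    by_contra hlt
    have hlt' : a < N * b := lt_of_le_of_ne (not_lt.1 hlt) hne
    obtain ⟨U, hU, hn, hno⟩ :=
      hO a b N T ha hb hN1 hT (negC hA hB hN a b N ha hb hN1 hlt')
    obtain ⟨k, hk, x, hx⟩ := h U hU hn
    exact hno k hk x hx
  tfae_finish

end Pool.Agent.MP_a8995d_an.BI
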