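import Pool.Agent.MP_a8995d_an.BI.Spec2

/-! The two coordinate statements from their parts, and the equivalence. -/

namespace Pool.Agent.MP_a8995d_an.BI

open Finset Filter Topology

namespace Glue2

theorem orb_zero (z : ℤ → ℝ) (n : ℤ) : orb z 0 n = z n := by simp [orb]

theorem orb_shift (z : ℤ → ℝ) (c : ℝ) (n0 : ℤ) (t : ℕ) (n : ℤ) :
    orb (fun m => c * z (m - n0)) t n = c * orb z t (n - n0) := by
  unfold orb
  rw [mul_sum]
  refine sum_congr rfl fun j _ => ?_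
  have : n + j - n0 = n - n0 + j := by ring
  simp only [this]
  ring

/-- The products of the weights. -/
noncomputable def pr (w : ℤ → ℝ) (n : ℤ) : ℝ :=
  if 0 ≤ n then ∏ j ∈ range n.toNat, w (j + 1) else (∏ j ∈ range (-n).toNat, w (-j))⁻¹

theorem pr_nat (w : ℤ → ℝ) (n : ℕ) : pr w n = ∏ j ∈ range n, w (j + 1) := by
  simp [pr]

theorem pr_neg (w : ℤ → ℝ) (n : ℕ) : pr w (-n) = (∏ j ∈ range n, w (-j))⁻¹ := by
  rcases Nat.eq_zero_or_pos n with rfl | hn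
  · simp [pr]
  · have : ¬ (0 : ℤ) ≤ -n := by omega
    simp only [pr, if_neg this, neg_neg, Int.toNat_natCast]

theorem pr_pos (w : ℤ → ℝ) (hw : ∀ n, 0 < w n) (n : ℤ) : 0 < pr w n := by
  unfold pr
  split_ifs
  · exact prod_pos fun _ _ => hw _
  · exact inv_pos.2 (prod_pos fun _ _ => hw _)

theorem pr_succ (w : ℤ → ℝ) (hw : ∀ n, 0 < w n) (n : ℤ) : pr w (n + 1) = pr w n * w (n + 1) := by
  rcases le_or_gt 0 n with h | h
  · obtain ⟨m, rfl⟩ := Int.eq_ofNat_of_zero_le h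
    have : (m : ℤ) + 1 = ((m + 1 : ℕ) : ℤ) := by push_cast; ring
    rw [pr_nat, ← prod_range_succ (fun j : ℕ => w (j + 1)) m, this, pr_nat]
  · obtain ⟨m, rfl⟩ : ∃ m : ℕ, n = -((m + 1 : ℕ) : ℤ) := ⟨(-n - 1).toNat, by omega⟩
    have : -((m + 1 : ℕ) : ℤ) + 1 = -(m : ℤ) := by push_cast; ring
    rw [this, pr_neg, pr_neg, prod_range_succ]
    have h1 := (hw (-(m : ℤ))).ne'
    have h2 : ∏ j ∈ range m, w (-(j : ℤ)) ≠ 0 := (prod_pos fun _ _ => hw _).ne'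
    field_simp

theorem shV (w : ℤ → ℝ) (hw : ∀ n, 0 < w n) (T : H →L[ℂ] H)
    (hT : ∀ (x : H) (n : ℤ), T x n = (w (n + 1) : ℂ) * x (n + 1)) : ShV (pr w) T := by
  refine ⟨pr_pos w hw, by simp [pr], fun x n => ?_⟩
  rw [hT, pr_succ w hw]
  push_cast
  ring

end Glue2

open Glue2

theorem negCV (hA : NegA) (hB : NegB) (hN : NegNV) (hL : LimV) (V : ℤ → ℝ) (hV : ∀ n, 0 < V n)
    (hV0 : V 0 = 1) (p a b : ℝ) (hp : 0 < p) (ha0 : 0 ≤ a)
    (ha : Tendsto (fun n : ℕ => Real.log (V (-n)) / (n : ℝ) ^ (1 + p)) atTop (𝓝 a))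
    (hb : Tendsto (fun n : ℕ => Real.log (V n) / (n : ℝ) ^ (1 + p)) atTop (𝓝 (-b)))
    (N : ℕ) (hN1 : 1 ≤ N) (h : a < (N : ℝ) ^ p * b) : NegCV V N := by
  have hNp : 0 < (N : ℝ) ^ p := Real.rpow_pos_of_pos (by exact_mod_cast hN1) p
  obtain ⟨a', h1, h2⟩ := exists_between h
  obtain ⟨b', h3, h4⟩ := exists_between ((div_lt_iff₀' hNp).2 h2)
  have ha' : 0 < a' := lt_of_le_of_lt ha0 h1
  have hb' : 0 < b' := lt_trans (div_pos ha' hNp) h3
  obtain ⟨C1, hC1⟩ := hL (fun n => Real.log (V (-n))) p a a' 0 hp h1 ha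
  obtain ⟨C2, hC2⟩ := hL (fun n => Real.log (V n)) p (-b) (-b') 0 hp (neg_lt_neg h4) hb
  have e1 : ∀ j : ℕ, 1 ≤ j → V (-j) ≤ Real.exp (j * (a' * (j : ℝ) ^ p + max C1 C2)) := by
    intro j hj
    have := hC1 j hj
    simp only [zero_add, neg_zero, hV0, Real.log_one, sub_zero] at this
    rw [← Real.log_le_iff_le_exp (hV _)]
    refine this.trans (mul_le_mul_of_nonneg_left ?_ (Nat.cast_nonneg _))
    linarith [le_max_left C1 C2]
  have e2 : ∀ n : ℕ, 1 ≤ n → V n ≤ Real.exp (n * (max C1 C2 - b' * (n : ℝ) ^ p)) := by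
    intro j hj
    have := hC2 j hj
    simp only [zero_add, hV0, Real.log_one, sub_zero] at this
    rw [← Real.log_le_iff_le_exp (hV _)]
    refine this.trans (mul_le_mul_of_nonneg_left ?_ (Nat.cast_nonneg _))
    linarith [le_max_right C1 C2]
  filter_upwards [hN a' b' p (max C1 C2) N V ha' hb' hp hN1 ((div_lt_iff₀' hNp).1 h3) e1 e2]
    with k hk z hz
  obtain ⟨d, hodd, hdk, h1, h2, h3⟩ := hk
  obtain ⟨h4, h5⟩ := hA N k d z V hodd hdk h1 hV0 h2 hz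
  have h6 := hB N k d z V hN1 hdk h3 (fun n hn => by
    have := hz 0 (Nat.zero_le _) n
    rw [zero_mul, orb_zero, if_neg (by omega), sub_zero] at this
    exact this)
  set c : ℝ := d.factorial * ((N * k + d : ℕ) : ℝ) ^ (N * (d + 1)) with hc
  have hc0 : 0 ≤ c := by positivity
  have h7 : 1 ≤ c * ∑ i ∈ range (N + 1), cw N k d i := by
    rw [mul_sum]
    calc (1 : ℝ) ≤ c * cw N k d 0 := h4 0 (Nat.zero_le _)
      _ ≤ ∑ i ∈ range (N + 1), c * cw N k d i :=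
        single_le_sum (f := fun i => c * cw N k d i)
          (fun i hi => le_trans zero_le_one (h4 i (Nat.lt_succ_iff.1 (mem_range.1 hi))))
          (mem_range.2 (Nat.succ_pos _))
  have h8 := mul_le_mul_of_nonneg_left (h5.trans (le_abs_self _)) hc0
  nlinarith

theorem posCV (hB : PosB) (h1 : PosN1V) (h2 : PosN2V) (hL : LimV) (V : ℤ → ℝ)
    (hV : ∀ n, 0 < V n) (p a b : ℝ) (hp : 0 < p) (hb0 : 0 ≤ b)
    (ha : Tendsto (fun n : ℕ => Real.log (V (-n)) / (n : ℝ) ^ (1 + p)) atTop (𝓝 a))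
    (hb : Tendsto (fun n : ℕ => Real.log (V n) / (n : ℝ) ^ (1 + p)) atTop (𝓝 (-b)))
    (N : ℕ) (hN1 : 1 ≤ N) (h : (N : ℝ) ^ p * b < a) : PosCV V N := by
  intro i0 hi0 n0 ε hε
  have hNp : 0 < (N : ℝ) ^ p := Real.rpow_pos_of_pos (by exact_mod_cast hN1) p
  obtain ⟨a', g1, g2⟩ := exists_between h
  obtain ⟨b', g3, g4⟩ := exists_between ((lt_div_iff₀' hNp).2 g1)
  have hb' : 0 < b' := lt_of_le_of_lt hb0 g3
  have g5 : (N : ℝ) ^ p * b' < a' := (lt_div_iff₀' hNp).1 g4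
  have hNb : 0 < (N : ℝ) ^ p * b' := mul_pos hNp hb'
  have ha' : 0 < a' := hNb.trans g5
  obtain ⟨l, hl1, hl2⟩ := exists_between (div_lt_div_of_pos_left one_pos hNb g5)
  have hl0 : 0 < l := lt_trans (by positivity) hl1
  have hal : 1 < a' * l := by
    rw [div_lt_iff₀ ha'] at hl1
    linarith
  have hbl : (N : ℝ) ^ p * b' * l < 1 := by
    rw [lt_div_iff₀ hNb] at hl2
    linarith
  obtain ⟨C1, hC1⟩ := hL (fun n => -Real.log (V n)) p b b' n0 hp g3 (by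
    simpa [neg_div] using hb.neg)
  obtain ⟨C2, hC2⟩ := hL (fun n => -Real.log (V (-n))) p (-a) (-a') (-n0) hp (neg_lt_neg g2) (by
    simpa [neg_div] using ha.neg)
  have u1 : ∀ u : ℕ, 1 ≤ u → V n0 ≤ V (n0 + u) * Real.exp (u * (b' * (u : ℝ) ^ p + C1)) := by
    intro u hu
    have := hC1 u hu
    rw [← Real.exp_log (hV n0), ← Real.exp_log (hV (n0 + u)), ← Real.exp_add, Real.exp_le_exp]
    linarith
  have u2 : ∀ j : ℕ, 1 ≤ j → V n0 * Real.exp (j * (a' * (j : ℝ) ^ p - C2)) ≤ V (n0 - j) := by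
    intro j hj
    have := hC2 j hj
    have e : -(-n0 + (j : ℤ)) = n0 - j := by ring
    simp only [neg_neg, e] at this
    rw [← Real.exp_log (hV n0), ← Real.exp_log (hV (n0 - j)), ← Real.exp_add, Real.exp_le_exp]
    linarith
  obtain ⟨δ, hδ0, hδ1, hv⟩ := h1 b' p l C1 ε N n0 V hb' hp hN1 hl0 hbl hε hV u1
  filter_upwards [hv, h2 a' p l C2 ε N n0 V ha' hp hN1 hal hε hV u2, eventually_ge_atTop 1]
    with k hk1 hk2 hk
  have hlog : 0 ≤ (l * Real.log k) ^ (1 / p) :=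
    Real.rpow_nonneg (mul_nonneg hl0.le (Real.log_nonneg (by exact_mod_cast hk))) _
  set d := ⌈(l * Real.log k) ^ (1 / p)⌉₊ with hd
  have hd1 : (l * Real.log k) ^ (1 / p) ≤ d := Nat.le_ceil _
  have hd2 : (d : ℝ) ≤ (l * Real.log k) ^ (1 / p) + 1 := (Nat.ceil_lt_add_one hlog).le
  set v := ⌈δ * d⌉₊ with hv
  have hv1 : δ * d ≤ v := Nat.le_ceil _
  have hv2 : (v : ℝ) ≤ δ * d + 1 := (Nat.ceil_lt_add_one (by positivity)).le
  have hv3 : v ≤ d + 1 := by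
    have : (v : ℝ) ≤ d + 1 := by nlinarith [Nat.cast_nonneg (α := ℝ) d]
    exact_mod_cast this
  obtain ⟨e1, e2, e3⟩ := hk1 d v hd1 hd2 hv1 hv2
  have e4 := hk2 d v hd1 hd2 hv3
  obtain ⟨z, hz⟩ := hB N k d v i0 hN1 hi0 e1 e2
  refine ⟨fun m => V n0 * z (m - n0), fun i hi n => ?_⟩
  obtain ⟨z1, z2, z3, z4⟩ := hz i hi
  have hW := hV n0
  have hR : 0 ≤ ε * V n / 2 ^ (n - n0).natAbs := by
    have := hV n
    positivity
  rw [orb_shift]
  rcases lt_trichotomy n n0 with hn | hn | hn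
  · obtain ⟨j, hj⟩ : ∃ j : ℕ, n = n0 - j := ⟨(n0 - n).toNat, by omega⟩
    have hj1 : 1 ≤ j := by omega
    have f1 : n - n0 = -(j : ℤ) := by omega
    have f2 : (n - n0).natAbs = j := by omega
    rw [if_neg (fun hh => hn.ne hh.2), sub_zero, f2, f1]
    rcases le_or_gt j d with hjd | hjd
    · rw [z2 j hj1 hjd, mul_zero, abs_zero, ← f2]
      exact hR
    · rw [abs_mul, abs_of_pos hW, mul_comm, hj]
      exact (mul_le_mul_of_nonneg_right (z4 j hjd) hW.le).trans (e4 j hjd)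
  · subst hn
    rw [sub_self, z1]
    by_cases hii : i = i0
    · simpa [hii] using hR
    · simpa [hii] using hR
  · obtain ⟨u, hu⟩ : ∃ u : ℕ, n = n0 + u := ⟨(n - n0).toNat, by omega⟩
    have hu1 : 1 ≤ u := by omega
    have f1 : n - n0 = (u : ℤ) := by omega
    have f2 : (n - n0).natAbs = u := by omega
    rw [if_neg (fun hh => hn.ne' hh.2), sub_zero, abs_mul, abs_of_pos hW, mul_comm]
    have g := mul_le_mul_of_nonneg_right (z3 u hu1) hW.le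
    rw [← f1] at g
    refine g.trans ?_
    rcases le_or_gt u (pM N d v) with hM | hM
    · rw [f2, hu]
      have := e3 u hu1 hM
      simpa [hM] using this
    · have hv' : ¬ u ≤ v := by
        have : v ≤ pM N d v := by
          unfold pM
          nlinarith
        omega
      rw [if_neg hv', if_neg (not_le.2 hM), zero_mul, zero_mul]
      exact hR

theorem tfaeV (hA : NegA) (hB : NegB) (hN : NegNV) (hO : NegOV) (pB : PosB) (p1 : PosN1V)
    (p2 : PosN2V) (pO : PosOV) (hL : LimV) (hS : SignV) (w : ℤ → ℝ) (hw : ∀ n, 0 < w n)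
    (T : H →L[ℂ] H) (hT : ∀ (x : H) (n : ℤ), T x n = (w (n + 1) : ℂ) * x (n + 1))
    (p a b : ℝ) (hp : 0 < p)
    (ha : Tendsto (fun n : ℕ => Real.log (∏ j ∈ range n, w (-j)) / (n : ℝ) ^ (1 + p)) atTop
      (𝓝 (-a)))
    (hb : Tendsto (fun n : ℕ => Real.log (∏ j ∈ range n, w (j + 1)) / (n : ℝ) ^ (1 + p)) atTop
      (𝓝 (-b)))
    (N : ℕ) (hN1 : 1 ≤ N) (hne : a ≠ (N : ℝ) ^ p * b) :
    List.TFAE [(N : ℝ) ^ p * b < a,
      ∀ U : Fin (N + 1) → Set H, (∀ i, IsOpen (U i) ∧ (U i).Nonempty) →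
        ∀ᶠ k : ℕ in atTop, ∃ x, ∀ i : Fin (N + 1), ((1 + T) ^ (i.val * k)) x ∈ U i,
      ∀ U : Set H, IsOpen U → U.Nonempty →
        ∃ k : ℕ, 1 ≤ k ∧ ∃ x, ∀ i ≤ N, ((1 + T) ^ (i * k)) x ∈ U] := by
  have hV := shV w hw T hT
  have ha0 : 0 ≤ a := neg_nonpos.1 (hS.sign (fun j => w (-j)) ‖T‖ p (-a) hp (fun _ => hw _)
    (fun _ => hS.bdd w T hT _) ha)
  have hb0 : 0 ≤ b := neg_nonpos.1 (hS.sign (fun j => w (j + 1)) ‖T‖ p (-b) hp (fun _ => hw _)
    (fun _ => hS.bdd w T hT _) hb)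
  have ha' : Tendsto (fun n : ℕ => Real.log (pr w (-n)) / (n : ℝ) ^ (1 + p)) atTop (𝓝 a) := by
    simpa [pr_neg, Real.log_inv, neg_div] using ha.neg
  have hb' : Tendsto (fun n : ℕ => Real.log (pr w n) / (n : ℝ) ^ (1 + p)) atTop (𝓝 (-b)) := by
    simpa [pr_nat] using hb
  tfae_have 1 → 2 := fun h =>
    pO _ N T hV (posCV pB p1 p2 hL _ hV.1 p a b hp hb0 ha' hb' N hN1 h)
  tfae_have 2 → 3 := fun h U hU hn => by
    obtain ⟨k, ⟨x, hx⟩, hk⟩ :=
      ((h (fun _ => U) fun _ => ⟨hU, hn⟩).and (eventually_ge_atTop 1)).exists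
    exact ⟨k, hk, x, fun i hi => hx ⟨i, Nat.lt_succ_of_le hi⟩⟩
  tfae_have 3 → 1 := fun h => by
    by_contra hlt
    have hlt' : a < (N : ℝ) ^ p * b := lt_of_le_of_ne (not_lt.1 hlt) hne
    obtain ⟨U, hU, hn, hno⟩ :=
      hO _ N T hN1 hV (negCV hA hB hN hL _ hV.1 hV.2.1 p a b hp ha0 ha' hb' N hN1 hlt')
    obtain ⟨k, hk, x, hx⟩ := h U hU hn
    exact hno k hk x hx
  tfae_finish

end Pool.Agent.MP_a8995d_an.BI
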