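import Pool.Agent.MP_a8995d_an.BI.Spec2

/-! From a limit to a bound at every index, after a translation. -/

namespace Pool.Agent.MP_a8995d_an.BI

open Finset Filter Topology

namespace LimVAux

theorem cast_ev (n0 : ℤ) : ∀ᶠ u : ℕ in atTop, (((n0 + u).toNat : ℕ) : ℤ) = n0 + u := by
  filter_upwards [eventually_ge_atTop n0.natAbs] with u hu
  apply Int.toNat_of_nonneg
  omega

theorem m_top (n0 : ℤ) : Tendsto (fun u : ℕ => (n0 + u).toNat) atTop atTop := by
  rw [tendsto_atTop]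
  intro b
  filter_upwards [eventually_ge_atTop (b + n0.natAbs)] with u hu
  omega

theorem ratio (n0 : ℤ) (p : ℝ) :
    Tendsto (fun u : ℕ => ((((n0 + u).toNat : ℕ) : ℝ) / (u : ℝ)) ^ (1 + p)) atTop (𝓝 1) := by
  have h1 : Tendsto (fun u : ℕ => 1 + (n0 : ℝ) / (u : ℝ)) atTop (𝓝 (1 + 0)) :=
    tendsto_const_nhds.add (tendsto_const_div_atTop_nhds_zero_nat (n0 : ℝ))
  have h2 : Tendsto (fun u : ℕ => (((n0 + u).toNat : ℕ) : ℝ) / (u : ℝ)) atTop (𝓝 1) := by
    rw [add_zero] at h1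
    refine h1.congr' ?_
    filter_upwards [cast_ev n0, eventually_ge_atTop 1] with u hu hu1
    have hu0 : (u : ℝ) ≠ 0 := by positivity
    have h3 : (((n0 + u).toNat : ℕ) : ℝ) = (n0 : ℝ) + u := by exact_mod_cast hu
    rw [h3]
    field_simp
    ring
  have h4 := h2.rpow_const (p := 1 + p) (Or.inl one_ne_zero)
  rwa [Real.one_rpow] at h4

theorem lim (f : ℤ → ℝ) (p c : ℝ) (n0 : ℤ) (hp : 0 < p)
    (h : Tendsto (fun n : ℕ => f n / (n : ℝ) ^ (1 + p)) atTop (𝓝 c)) :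
    Tendsto (fun u : ℕ => (f (n0 + u) - f n0) / (u : ℝ) ^ (1 + p)) atTop (𝓝 c) := by
  have h1 := (h.comp (m_top n0)).mul (ratio n0 p)
  have h2 : Tendsto (fun u : ℕ => f n0 / (u : ℝ) ^ (1 + p)) atTop (𝓝 0) :=
    tendsto_const_nhds.div_atTop
      ((tendsto_rpow_atTop (by linarith)).comp tendsto_natCast_atTop_atTop)
  have h3 := h1.sub h2
  rw [mul_one, sub_zero] at h3
  refine h3.congr' ?_
  filter_upwards [cast_ev n0, (m_top n0).eventually (eventually_ge_atTop 1),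
    eventually_ge_atTop 1] with u hu hm hu1
  have hu0 : (0 : ℝ) < u := by positivity
  have hm0 : (0 : ℝ) < (((n0 + u).toNat : ℕ) : ℝ) := by positivity
  have ha : (0 : ℝ) < (u : ℝ) ^ (1 + p) := Real.rpow_pos_of_pos hu0 _
  have hb : (0 : ℝ) < (((n0 + u).toNat : ℕ) : ℝ) ^ (1 + p) := Real.rpow_pos_of_pos hm0 _
  simp only [Function.comp]
  rw [Real.div_rpow hm0.le hu0.le, hu]
  field_simp

end LimVAux

theorem limV : LimV := by
  intro f p c c' n0 hp hc h
  have h1 := (LimVAux.lim f p c n0 hp h).eventually (gt_mem_nhds hc)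
  obtain ⟨u0, hu0⟩ := eventually_atTop.1 h1
  have hC : 0 ≤ ∑ u ∈ range u0, |f (n0 + u) - f n0 - u * (c' * (u : ℝ) ^ p)| :=
    sum_nonneg fun _ _ => abs_nonneg _
  refine ⟨∑ u ∈ range u0, |f (n0 + u) - f n0 - u * (c' * (u : ℝ) ^ p)|, fun u hu => ?_⟩
  set C := ∑ u ∈ range u0, |f (n0 + u) - f n0 - u * (c' * (u : ℝ) ^ p)| with hCdef
  have hu1 : (1 : ℝ) ≤ u := by exact_mod_cast hu
  have hup : (0 : ℝ) < u := by linarith
  have hCu : C ≤ u * C := by nlinarith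
  rcases lt_or_ge u u0 with hlt | hge
  · have h2 : |f (n0 + u) - f n0 - u * (c' * (u : ℝ) ^ p)| ≤ C :=
      single_le_sum (f := fun u : ℕ => |f (n0 + u) - f n0 - u * (c' * (u : ℝ) ^ p)|)
        (fun _ _ => abs_nonneg _) (mem_range.2 hlt)
    have h3 := le_abs_self (f (n0 + u) - f n0 - u * (c' * (u : ℝ) ^ p))
    rw [mul_add]
    linarith
  · have h2 := hu0 u hge
    have ha : (0 : ℝ) < (u : ℝ) ^ (1 + p) := Real.rpow_pos_of_pos hup _
    rw [div_lt_iff₀ ha, Real.rpow_add hup, Real.rpow_one] at h2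
    rw [mul_add]
    nlinarith

end Pool.Agent.MP_a8995d_an.BI
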