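import Pool.Agent.MP_a8995d_an.BI.Spec

/-! The main term of the certificate. -/

namespace Pool.Agent.MP_a8995d_an.BI

open Finset Filter

namespace NegA

theorem prod_ch (t u s : ℕ) :
    ∏ c ∈ Ico t (t + s), (((t + u : ℕ) : ℝ) - c) = s.factorial * u.choose s := by
  induction s with
  | zero => simp
  | succ s ih =>
    rw [← add_assoc, prod_Ico_succ_top (Nat.le_add_right _ _), ih, Nat.factorial_succ]
    rcases le_or_gt s u with h | h
    · have := congrArg (Nat.cast : ℕ → ℝ) (Nat.choose_succ_right_eq u s)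
      push_cast [h] at this ⊢
      linear_combination -(s.factorial : ℝ) * this
    · simp [Nat.choose_eq_zero_of_lt h, Nat.choose_eq_zero_of_lt (h.trans (Nat.lt_succ_self s))]

theorem expand (h1 : DDS) (h3 : OrbS) (z : ℤ → ℝ) (t d : ℕ) (n : ℤ) (g : ℕ → ℝ) :
    DD (Icc t (t + d)) (fun y => orb z y n * g y) =
      ∑ s ∈ range (d + 1), orb z t (n + s) / s.factorial * DD (Icc (t + s) (t + d)) g := by
  have e : ∀ s ∈ range (d + 1), DD (Icc (t + s) (t + d)) g =
      DD (Icc t (t + d)) fun y => (∏ c ∈ Ico t (t + s), ((y : ℝ) - c)) * g y := fun s hs => by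
    have := mem_range.1 hs
    rw [h1.cancel _ _ _ fun x hx => by simp only [mem_Ico, mem_Icc] at hx ⊢; omega]
    congr 1
    ext x; simp only [Finset.mem_sdiff, mem_Ico, mem_Icc]; omega
  rw [sum_congr rfl fun s hs => by rw [e s hs]]
  simp only [DD, mul_sum]
  rw [sum_comm]
  refine sum_congr rfl fun y hy => ?_
  obtain ⟨u, rfl⟩ := Nat.exists_eq_add_of_le (mem_Icc.1 hy).1
  have hu : u ≤ d := by have := (mem_Icc.1 hy).2; omega
  rw [h3.add, sum_subset (range_subset_range.2 (Nat.succ_le_succ hu)) fun s _ hs => by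
    rw [Nat.choose_eq_zero_of_lt (by simpa using hs), Nat.cast_zero, zero_mul], sum_mul, sum_div]
  refine sum_congr rfl fun s _ => ?_
  have : (s.factorial : ℝ) ≠ 0 := by positivity
  rw [prod_ch]
  field_simp

theorem clu (h1 : DDS) (h2 : DBS) (h3 : OrbS) (z : ℤ → ℝ) (t d : ℕ) (A : Finset ℕ) (m : ℕ → ℝ)
    (κ : ℝ) (hκ : 0 < κ) (m1 : ∀ r ∈ A, κ ≤ m r)
    (m2 : ∀ r ∈ A, ∀ y ∈ Icc t (t + d), m r ≤ |(y : ℝ) - r|)
    (m3 : ∀ r ∈ A, |((t + d : ℕ) : ℝ) - r| ≤ m r + d)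
    (hP : 0 < ∏ x ∈ A, (((t + d : ℕ) : ℝ) - x)) (hM : 2 * (d * A.card) ≤ κ)
    (c0 : 9 / 10 ≤ orb z t 0)
    (c1 : ∀ j : ℕ, 1 ≤ j → j ≤ d → (d * A.card / κ) ^ j * |orb z t (-j)| ≤ 1 / 2 ^ j / 10) :
    7 / 10 * ((∏ x ∈ A, (((t + d : ℕ) : ℝ) - x))⁻¹ / d.factorial) ≤
      DD (Icc t (t + d)) fun y => orb z y (-d) * (∏ x ∈ A, ((y : ℝ) - x))⁻¹ := by
  have hm : 0 < ∏ r ∈ A, m r := prod_pos fun r hr => hκ.trans_le (m1 r hr)
  have p1 : ∏ x ∈ A, (((t + d : ℕ) : ℝ) - x) ≤ (∏ r ∈ A, m r) * 2 := by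
    refine (le_abs_self _).trans ?_
    rw [abs_prod]
    calc _ ≤ ∏ r ∈ A, m r * Real.exp (d / κ) :=
          prod_le_prod (fun _ _ => abs_nonneg _) fun r hr => (m3 r hr).trans (by
            have a1 := mul_le_mul_of_nonneg_right (m1 r hr) (by positivity : 0 ≤ d / κ)
            have a2 := mul_le_mul_of_nonneg_left (Real.add_one_le_exp (d / κ))
              (hκ.le.trans (m1 r hr))
            rw [mul_div_cancel₀ _ hκ.ne'] at a1
            linarith)
      _ = (∏ r ∈ A, m r) * Real.exp (A.card * (d / κ)) := by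
          rw [prod_mul_distrib, prod_const, Real.exp_nat_mul]
      _ ≤ _ := by
          refine mul_le_mul_of_nonneg_left ?_ hm.le
          rw [← Real.le_log_iff_exp_le two_pos, ← mul_div_assoc, div_le_iff₀ hκ]
          nlinarith [Real.log_two_gt_d9]
  rw [expand h1 h3, sum_range_succ, Icc_self, h1.single, neg_add_cancel, ← sum_range_reflect]
  set P := ∏ x ∈ A, (((t + d : ℕ) : ℝ) - x)
  have p2 : ∏ r ∈ A, (m r)⁻¹ ≤ 2 * P⁻¹ := by
    rw [prod_inv_distrib, ← div_eq_mul_inv, inv_eq_one_div, div_le_div_iff₀ hm hP]; linarith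
  have hw : 0 < P⁻¹ / d.factorial := by positivity
  have b : ∀ j ∈ range d, -(P⁻¹ / d.factorial / 10 * (1 / 2) ^ j) ≤
      orb z t (-d + (d - 1 - j : ℕ)) / (d - 1 - j).factorial *
        DD (Icc (t + (d - 1 - j)) (t + d)) fun y => (∏ x ∈ A, ((y : ℝ) - x))⁻¹ := fun j hj => by
    have hj' := mem_range.1 hj
    refine neg_le_of_abs_le ?_
    have a1 := h2.inv A (Icc (t + (d - 1 - j)) (t + d)) (j + 1) m κ
      (by rw [Nat.card_Icc]; omega) hκ m1 fun r hr y hy =>
        m2 r hr y (Icc_subset_Icc_left (Nat.le_add_right _ _) hy)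
    have a2 := c1 (j + 1) (by omega) hj'
    have a3 : 1 / ((d - 1 - j).factorial : ℝ) ≤ d ^ (j + 1) / d.factorial := by
      rw [div_le_div_iff₀ (by positivity) (by positivity), one_mul,
        ← Nat.factorial_mul_descFactorial (show j + 1 ≤ d from hj'),
        show d - (j + 1) = d - 1 - j by omega, mul_comm]
      exact_mod_cast Nat.mul_le_mul_right _ (Nat.descFactorial_le_pow d (j + 1))
    rw [show -(d : ℤ) + (d - 1 - j : ℕ) = -((j + 1 : ℕ) : ℤ) by omega, abs_mul, abs_div,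
      Nat.abs_cast, div_eq_mul_one_div]
    calc _ ≤ |orb z t (-((j + 1 : ℕ) : ℤ))| * (d ^ (j + 1) / d.factorial) *
          ((A.card / κ) ^ (j + 1) * (2 * P⁻¹)) := by
          refine mul_le_mul (by gcongr) (a1.trans (by gcongr)) (abs_nonneg _) (by positivity)
      _ = 2 * (P⁻¹ / d.factorial) *
          ((d * A.card / κ) ^ (j + 1) * |orb z t (-((j + 1 : ℕ) : ℤ))|) := by ring
      _ ≤ 2 * (P⁻¹ / d.factorial) * (1 / 2 ^ (j + 1) / 10) := by gcongr
      _ = _ := by rw [div_pow, one_pow]; ring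
  have b1 := sum_le_sum b
  rw [sum_neg_distrib, ← mul_sum] at b1
  have b2 := mul_le_mul_of_nonneg_left (sum_geometric_two_le d)
    (div_pos hw (by norm_num : (0 : ℝ) < 10)).le
  have b3 := mul_le_mul_of_nonneg_right c0 hw.le
  have b4 : orb z t 0 / d.factorial * P⁻¹ = orb z t 0 * (P⁻¹ / d.factorial) := by ring
  linarith

theorem dis {k d : ℕ} (h : d < k) {i j : ℕ} (hij : i ≠ j) :
    Disjoint (Icc (i * k) (i * k + d)) (Icc (j * k) (j * k + d)) := by
  refine disjoint_left.2 fun x a b => ?_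
  rw [mem_Icc] at a b
  rcases lt_or_gt_of_ne hij with l | l
  · have := Nat.mul_le_mul_right k (Nat.succ_le_of_lt l)
    rw [Nat.succ_mul] at this; omega
  · have := Nat.mul_le_mul_right k (Nat.succ_le_of_lt l)
    rw [Nat.succ_mul] at this; omega

theorem sd {N k d : ℕ} (h : d < k) (i : ℕ) : nod N k d \ Icc (i * k) (i * k + d) =
    ((range (N + 1)).erase i).biUnion fun j => Icc (j * k) (j * k + d) := by
  ext x
  simp only [nod, Finset.mem_sdiff, mem_biUnion, mem_erase]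
  exact ⟨fun ⟨⟨j, a, b⟩, c⟩ => ⟨j, ⟨fun e => c (e ▸ b), a⟩, b⟩,
    fun ⟨j, ⟨a, b⟩, c⟩ => ⟨⟨j, b, c⟩, disjoint_left.1 (dis h a) c⟩⟩

theorem far {k d i j x : ℕ} (hij : j ≠ i) (hx : x ∈ Icc (j * k) (j * k + d)) :
    (j < i ∧ x + k ≤ i * k + d) ∨ (i < j ∧ i * k + k ≤ x) := by
  rw [mem_Icc] at hx
  refine (lt_or_gt_of_ne hij).imp (fun l => ⟨l, ?_⟩) fun l => ⟨l, ?_⟩
  all_goals
    have := Nat.mul_le_mul_right k (Nat.succ_le_of_lt l)
    rw [Nat.succ_mul] at this; omega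

end NegA

open NegA in
theorem negA (h1 : DDS) (h2 : DBS) (h3 : OrbS) : NegA := by
  intro N k d z V hd hk hM V0 hV hz
  have hk' : (d : ℝ) < k := by exact_mod_cast hk
  have cd : ∀ i ≤ N, (nod N k d \ Icc (i * k) (i * k + d)).card = N * (d + 1) := fun i hi => by
    rw [sd hk, card_biUnion fun a _ b _ hab => dis hk hab,
      sum_congr rfl (g := fun _ => d + 1) fun j _ => by rw [Nat.card_Icc]; omega, sum_const,
      card_erase_of_mem (mem_range.2 (Nat.lt_succ_of_le hi)), card_range, smul_eq_mul,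
      Nat.succ_sub_one]
  have ps : ∀ i, 0 < ∏ x ∈ nod N k d \ Icc (i * k) (i * k + d), (((i * k + d : ℕ) : ℝ) - x) := by
    intro i
    rw [sd hk, prod_biUnion fun a _ b _ hab => dis hk hab]
    refine prod_pos fun j hj => ?_
    rcases lt_or_gt_of_ne (mem_erase.1 hj).1 with l | l
    · refine prod_pos fun x hx => sub_pos.2 (Nat.cast_lt.2 ?_)
      have := far l.ne hx; omega
    · rw [prod_congr rfl (g := fun x : ℕ => -((x : ℝ) - (i * k + d : ℕ))) fun x _ =>
        (neg_sub _ _).symm, prod_neg, Nat.card_Icc, show j * k + d + 1 - j * k = d + 1 by omega,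
        hd.add_one.neg_one_pow, one_mul]
      refine prod_pos fun x hx => sub_pos.2 (Nat.cast_lt.2 ?_)
      have := far l.ne' hx; omega
  have mA : ∀ i, ∀ r ∈ nod N k d \ Icc (i * k) (i * k + d),
      (r + k ≤ i * k + d ∨ i * k + k ≤ r) ∧ r ≤ N * k + d := fun i r hr => by
    rw [sd hk] at hr
    obtain ⟨j, a, b⟩ := mem_biUnion.1 hr
    have a1 := far (mem_erase.1 a).1 b
    have a2 := Nat.mul_le_mul_right k (Nat.le_of_lt_succ (mem_range.1 (mem_erase.1 a).2))
    have a3 := (mem_Icc.1 b).2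
    omega
  refine ⟨fun i hi => ?_, ?_⟩
  · have : (d.factorial : ℝ) ≠ 0 := by positivity
    rw [cw, mul_right_comm, mul_div_cancel₀ _ this, ← div_eq_inv_mul, one_le_div (ps i), ← cd i hi,
      ← prod_const]
    refine (le_abs_self _).trans ?_
    rw [abs_prod]
    refine prod_le_prod (fun _ _ => abs_nonneg _) fun r hr => ?_
    have a1 : (r : ℝ) ≤ (N * k + d : ℕ) := Nat.cast_le.2 (mA i r hr).2
    have a2 : ((i * k + d : ℕ) : ℝ) ≤ (N * k + d : ℕ) :=
      Nat.cast_le.2 (Nat.add_le_add_right (Nat.mul_le_mul_right k hi) d)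
    have a3 : (0 : ℝ) ≤ r := Nat.cast_nonneg _
    have a4 : (0 : ℝ) ≤ (i * k + d : ℕ) := Nat.cast_nonneg _
    exact abs_le.2 ⟨by linarith, by linarith⟩
  rw [mul_sum, nod, h1.split _ _ _ fun a _ b _ hab => dis hk hab]
  refine sum_le_sum fun i hi => ?_
  have hi' := Nat.le_of_lt_succ (mem_range.1 hi)
  have key : ∀ r ∈ nod N k d \ Icc (i * k) (i * k + d),
      (r < i * k ∧ (r : ℝ) + k ≤ (i * k : ℕ) + d) ∨ (¬ r < i * k ∧ ((i * k : ℕ) : ℝ) + k ≤ r) :=
    fun r hr => (mA i r hr).1.imp (fun h => ⟨by omega, by exact_mod_cast h⟩)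
      fun h => ⟨by omega, by exact_mod_cast h⟩
  refine clu h1 h2 h3 z (i * k) d (nod N k d \ Icc (i * k) (i * k + d))
    (fun r => if r < i * k then (i * k : ℕ) - r else r - ((i * k : ℕ) + d)) (k - d : ℕ)
    (Nat.cast_pos.2 (by omega)) (fun r hr => ?_) (fun r hr y hy => ?_) (fun r hr => ?_) (ps i)
    ?_ ?_ fun j j1 j2 => ?_
  · rw [Nat.cast_sub hk.le]
    rcases key r hr with ⟨a, b⟩ | ⟨a, b⟩ <;> simp only [a, if_true, if_false] <;> linarith
  · have y1 : ((i * k : ℕ) : ℝ) ≤ y := Nat.cast_le.2 (mem_Icc.1 hy).1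
    have y2 : (y : ℝ) ≤ (i * k : ℕ) + d := by exact_mod_cast (mem_Icc.1 hy).2
    rcases key r hr with ⟨a, b⟩ | ⟨a, b⟩ <;> simp only [a, if_true, if_false] <;>
      linarith [le_abs_self ((y : ℝ) - r), neg_le_abs ((y : ℝ) - r)]
  · have : (0 : ℝ) ≤ d := Nat.cast_nonneg d
    rw [Nat.cast_add]
    rcases key r hr with ⟨a, b⟩ | ⟨a, b⟩ <;> simp only [a, if_true, if_false] <;>
      exact abs_le.2 ⟨by linarith, by linarith⟩
  · rw [cd i hi', ← mul_assoc]
    exact_mod_cast hM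
  · have := (abs_le.1 (hz i hi' 0)).1
    rw [if_pos rfl, V0] at this
    linarith
  · have a1 := hz i hi' (-j)
    have a2 := hV j j1 j2
    rw [if_neg (by omega), sub_zero] at a1
    rw [Nat.cast_mul] at a2
    rw [cd i hi']
    refine (mul_le_mul_of_nonneg_left a1 (by positivity)).trans ?_
    linarith

end Pool.Agent.MP_a8995d_an.BI
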