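import Pool.Agent.MP_a8995d_an.BI.Spec

/-! The tail of the certificate. -/

namespace Pool.Agent.MP_a8995d_an.BI

open Finset Filter

namespace NegBx

theorem card_nod (N k d : ℕ) (h : d < k) : (nod N k d).card = N * (d + 1) + d + 1 := by
  have key : ∀ i j : ℕ, i < j → Disjoint (Icc (i * k) (i * k + d)) (Icc (j * k) (j * k + d)) := by
    intro i j hij
    have h1 : (i + 1) * k ≤ j * k := Nat.mul_le_mul_right k hij
    rw [add_mul, one_mul] at h1
    refine disjoint_left.2 fun x h2 h3 => ?_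
    rw [mem_Icc] at h2 h3
    omega
  rw [nod, card_biUnion fun i _ j _ hij => (Nat.lt_or_gt_of_ne hij).elim (key i j)
    fun h => (key j i h).symm]
  rw [sum_congr rfl (g := fun _ => d + 1) fun i _ => by rw [Nat.card_Icc]; omega, sum_const,
    card_range, smul_eq_mul]
  ring

theorem le_nod {N k d y : ℕ} (h : y ∈ nod N k d) : y ≤ N * k + d := by
  obtain ⟨i, h1, h2⟩ := mem_biUnion.1 h
  have h3 := Nat.mul_le_mul_right k (Nat.lt_succ_iff.1 (mem_range.1 h1))
  have h4 := (mem_Icc.1 h2).2
  omega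

theorem expand (X : Finset ℕ) (Y : ℕ) (hY : ∀ y ∈ X, y ≤ Y) (z : ℤ → ℝ) (n : ℤ) :
    DD X (fun y => orb z y n) = ∑ j ∈ range (Y + 1),
      z (n + j) / j.factorial * DD X fun y => ∏ r ∈ range j, ((y : ℝ) - r) := by
  simp only [DD, mul_sum]
  rw [sum_comm]
  refine sum_congr rfl fun y hy => ?_
  have h1 : orb z y n = ∑ j ∈ range (Y + 1), (y.choose j : ℝ) * z (n + j) := by
    refine sum_subset (range_subset_range.2 (Nat.succ_le_succ (hY y hy))) fun j _ hj => ?_
    rw [Nat.choose_eq_zero_of_lt (by rw [mem_range] at hj; omega), Nat.cast_zero, zero_mul]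
  rw [h1, sum_div]
  refine sum_congr rfl fun j _ => ?_
  rw [Nat.cast_choose_eq_descPochhammer_div, descPochhammer_eval_eq_prod_range]
  ring

theorem nine {j m n : ℕ} (h0 : 1 ≤ j) (h1 : m ≤ j) (h2 : j ≤ 2 * n) :
    (j : ℝ) ^ m / j.factorial ≤ 9 ^ n := by
  have a1 : (j : ℝ) ^ m ≤ (j : ℝ) ^ j := pow_le_pow_right₀ (by exact_mod_cast h0) h1
  have a2 := Real.pow_div_factorial_le_exp (j : ℝ) (Nat.cast_nonneg j) j
  have a3 : Real.exp j ≤ Real.exp 1 ^ (2 * n) := by
    rw [← Real.exp_nat_mul, mul_one]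
    exact Real.exp_le_exp.2 (by exact_mod_cast h2)
  have a4 : Real.exp 1 ^ (2 * n) ≤ 3 ^ (2 * n) :=
    pow_le_pow_left₀ (Real.exp_pos 1).le (by linarith [Real.exp_one_lt_d9]) _
  rw [pow_mul (3 : ℝ), show (3 : ℝ) ^ 2 = 9 by norm_num] at a4
  exact (div_le_div_of_nonneg_right a1 (by positivity)).trans (a2.trans (a3.trans a4))

end NegBx

open NegBx

theorem negB (_h1 : DDS) (h2 : DBS) : NegB := by
  intro N k d z V hN hk hV hz
  have hc := card_nod N k d hk
  have hX : ∀ y ∈ nod N k d, y ≤ N * k + d := fun y => le_nod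
  have hM : d + 1 ≤ N * (d + 1) := Nat.le_mul_of_pos_left _ hN
  have hK : k ≤ N * k := Nat.le_mul_of_pos_left _ hN
  rw [expand _ _ hX]
  generalize nod N k d = X at *
  generalize N * (d + 1) = M at *
  generalize N * k = K at *
  have hY : (0 : ℝ) < ((K + d : ℕ) : ℝ) := by exact_mod_cast (show 0 < K + d by omega)
  have zero : ∀ j < M + d, DD X (fun y => ∏ r ∈ range j, ((y : ℝ) - r)) = 0 := fun j hj =>
    h2.zero _ _ (by rw [card_range]; omega)
  have term : ∀ n ∈ range (K + 1), d.factorial * ((K + d : ℕ) : ℝ) ^ M *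
      |z (-d + (d + n : ℕ)) / (d + n).factorial *
        DD X fun y => ∏ r ∈ range (d + n), ((y : ℝ) - r)| ≤ (1 / 2) ^ n / 10 := by
    intro n hn
    rw [mem_range] at hn
    rcases lt_or_ge n M with h | h
    · rw [zero _ (by omega), mul_zero, abs_zero, mul_zero]
      positivity
    have a1 := h2.prod (range (d + n)) X (M + d) (fun _ => ((K + d : ℕ) : ℝ)) _ hc hY
      (fun _ _ => le_rfl) fun r hr y hy => by
        have b1 : (y : ℝ) ≤ (K + d : ℕ) := by exact_mod_cast hX y hy
        have b2 : (r : ℝ) ≤ (K + d : ℕ) := by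
          rw [mem_range] at hr
          exact_mod_cast (show r ≤ K + d by omega)
        have b3 : (0 : ℝ) ≤ y := Nat.cast_nonneg y
        have b4 : (0 : ℝ) ≤ r := Nat.cast_nonneg r
        rw [abs_le]
        constructor <;> linarith
    rw [prod_const, card_range] at a1
    have a2 := nine (j := d + n) (m := M + d) (n := n) (by omega) (by omega) (by omega)
    have a3 := hz n (by omega)
    have a4 := hV n h
    rw [show (-d + (d + n : ℕ) : ℤ) = n by push_cast; ring, abs_mul, abs_div, Nat.abs_cast]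
    generalize ((K + d : ℕ) : ℝ) = Y at *
    calc _ ≤ d.factorial * Y ^ M * (|z n| / (d + n).factorial *
          ((((d + n : ℕ) : ℝ) / Y) ^ (M + d) * Y ^ (d + n))) := by gcongr
      _ = d.factorial * (((d + n : ℕ) : ℝ) ^ (M + d) / (d + n).factorial) * Y ^ n * |z n| := by
          rw [div_pow, pow_add Y, pow_add Y]
          field_simp
      _ ≤ d.factorial * 9 ^ n * Y ^ n * (V n / 10) := by gcongr
      _ ≤ (1 / 2) ^ n / 10 := by
          rw [mul_pow] at a4
          rw [one_div_pow]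
          linarith
  rw [show K + d + 1 = d + (K + 1) by ring, sum_range_add,
    sum_eq_zero fun j hj => by rw [zero j (by rw [mem_range] at hj; omega), mul_zero], zero_add]
  refine (mul_le_mul_of_nonneg_left (abs_sum_le_sum_abs _ _) (by positivity)).trans ?_
  rw [mul_sum]
  refine (sum_le_sum term).trans ?_
  rw [← sum_div]
  linarith [sum_geometric_two_le (K + 1)]

end Pool.Agent.MP_a8995d_an.BI
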