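import Pool.Agent.MP_a8995d_an.BI.Spec

/-! The choice of the order in the certificate. -/

namespace Pool.Agent.MP_a8995d_an.BI

open Finset Filter

namespace NegN

theorem ev (C s : ℝ) (hC : 0 ≤ C) (hs : 0 < s) :
    ∀ᶠ k : ℕ in atTop, C * (Real.log k + 1) ^ 2 ≤ Real.exp (s * Real.log k) := by
  have t : Tendsto (fun k : ℕ => Real.log k) atTop atTop :=
    Real.tendsto_log_atTop.comp tendsto_natCast_atTop_atTop
  filter_upwards [t.eventually_ge_atTop 1, t.eventually_ge_atTop (24 * C / s ^ 3)] with k h1 h2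
  generalize Real.log k = L at *
  have h3 := Real.pow_div_factorial_le_exp (s * L) (by positivity) 3
  rw [div_le_iff₀ (by positivity)] at h2
  refine le_trans ?_ h3
  have h4 : C * (L + 1) ^ 2 ≤ C * (4 * L ^ 2) := mul_le_mul_of_nonneg_left (by nlinarith) hC
  have h5 := mul_le_mul_of_nonneg_right h2 (sq_nonneg L)
  norm_num [Nat.factorial]
  nlinarith

end NegN

open NegN in
theorem negN : NegN := by
  intro a b N ha hb hN
  have hNb : 0 < N * b := ha.trans hN
  have hN0 : (0 : ℝ) < N := (mul_pos_iff_of_pos_right hb).1 hNb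
  have hN1 : 1 ≤ N := by exact_mod_cast hN0
  obtain ⟨lam, l1, l2⟩ := exists_between (div_lt_div_of_pos_left two_pos ha hN)
  have l0 : 0 < lam := (div_pos two_pos hNb).trans l1
  rw [div_lt_iff₀ hNb] at l1
  rw [lt_div_iff₀ ha] at l2
  filter_upwards [ev (4 * (N + 1) * (lam + 2) ^ 2) 1 (by positivity) one_pos,
    ev (4 * N * (lam + 2) ^ 2 * Real.exp (a / 2)) (1 - lam * a / 2) (by positivity) (by linarith),
    ev (18 * (N + 1) * (lam + 2)) (lam * (N * b) / 2 - 1) (by positivity) (by linarith),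
    eventually_ge_atTop 1] with k e1 e2 e3 hk
  have hK : (1 : ℝ) ≤ k := by exact_mod_cast hk
  have hL : 0 ≤ Real.log k := Real.log_nonneg hK
  have eK : Real.exp (Real.log k) = k := Real.exp_log (by linarith)
  rw [one_mul, eK] at e1
  generalize Real.log k = L at *
  obtain ⟨d, hodd, d1, d2⟩ : ∃ d : ℕ, Odd d ∧ lam * L ≤ d + 1 ∧ (d : ℝ) ≤ lam * L + 1 := by
    refine ⟨2 * ⌊lam * L / 2⌋₊ + 1, odd_two_mul_add_one _, ?_, ?_⟩ <;> push_cast
    · linarith [Nat.lt_floor_add_one (lam * L / 2)]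
    · linarith [Nat.floor_le (show 0 ≤ lam * L / 2 by positivity)]
  have hd1 : 1 ≤ d := hodd.pos
  have hd0 : (1 : ℝ) ≤ d := by exact_mod_cast hd1
  have d3 : (d : ℝ) + 1 ≤ (lam + 2) * (L + 1) := by nlinarith
  have d4 : (d : ℝ) * (d + 1) ≤ (lam + 2) ^ 2 * (L + 1) ^ 2 := by
    rw [← mul_pow, sq]
    exact mul_le_mul (by linarith) d3 (by linarith) (by positivity)
  have d5 : 4 * (N + 1) * ((d : ℝ) * (d + 1)) ≤ k := by
    refine le_trans ?_ e1
    rw [mul_assoc (4 * ((N : ℝ) + 1))]
    exact mul_le_mul_of_nonneg_left d4 (by positivity)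
  have d6 : 4 * (N + 1) * (d * (d + 1)) ≤ k := by exact_mod_cast d5
  have d7 : 2 * d ≤ k :=
    le_trans (Nat.mul_le_mul (by omega) (Nat.le_mul_of_pos_right d d.succ_pos)) d6
  have d8 : (k : ℝ) / 2 ≤ ((k - d : ℕ) : ℝ) := by
    rw [Nat.cast_sub (by omega)]
    have : (2 * d : ℝ) ≤ k := by exact_mod_cast d7
    linarith
  refine ⟨d, hodd, by omega, ?_, fun j j1 j2 => ?_, fun n hn => ?_⟩
  · have : 2 * (2 * d * (N * (d + 1))) ≤ k := by nlinarith
    omega
  · have hj : (1 : ℝ) ≤ j := by exact_mod_cast j1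
    have hj' : (j : ℝ) ≤ d := by exact_mod_cast j2
    have w : W a b (-j) ≤ Real.exp (a * d / 2) ^ j := by
      rw [W, if_neg (by omega), ← Real.exp_nat_mul, Real.exp_le_exp]
      push_cast
      have : a * j * (j - 1) ≤ a * j * d := mul_le_mul_of_nonneg_left (by linarith) (by positivity)
      linarith
    have x1 : Real.exp (a * d / 2) ≤ Real.exp (a / 2) * Real.exp (lam * a / 2 * L) := by
      rw [← Real.exp_add, Real.exp_le_exp]
      nlinarith
    have x2 : ((d * (N * (d + 1)) : ℕ) : ℝ) / ((k - d : ℕ) : ℝ) ≤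
        N * ((lam + 2) ^ 2 * (L + 1) ^ 2) / (k / 2) := by
      refine div_le_div₀ (by positivity) ?_ (by linarith) d8
      push_cast
      rw [mul_left_comm]
      exact mul_le_mul_of_nonneg_left d4 hN0.le
    have x3 : ((d * (N * (d + 1)) : ℕ) : ℝ) / ((k - d : ℕ) : ℝ) * Real.exp (a * d / 2) ≤ 1 / 2 := by
      refine (mul_le_mul x2 x1 (by positivity) (by positivity)).trans ?_
      have y := mul_le_mul_of_nonneg_right e2 (Real.exp_pos (lam * a / 2 * L)).le
      rw [← Real.exp_add, show (1 - lam * a / 2) * L + lam * a / 2 * L = L by ring, eK] at y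
      rw [div_mul_eq_mul_div, div_le_iff₀ (by linarith)]
      linarith
    refine (mul_le_mul_of_nonneg_left w (by positivity)).trans ?_
    rw [← mul_pow, ← one_div_pow]
    exact pow_le_pow_left₀ (by positivity) x3 j
  · have hn' : (N : ℝ) * (d + 1) ≤ n := by exact_mod_cast hn
    have w : W a b n ≤ Real.exp (-(lam * (N * b) / 2 * L)) ^ n := by
      rw [W, if_pos (by omega), ← Real.exp_nat_mul, Real.exp_le_exp]
      push_cast
      have h1 : N * (lam * L) ≤ n + 1 := by
        linarith [mul_le_mul_of_nonneg_left d1 hN0.le]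
      have := mul_le_mul_of_nonneg_left h1 (show 0 ≤ b * n by positivity)
      linarith
    have f : (d.factorial : ℝ) ≤ (d : ℝ) ^ n := by
      have : d ≤ n := by nlinarith
      exact_mod_cast (Nat.factorial_le_pow d).trans (Nat.pow_le_pow_right hd1 this)
    have x1 : ((N * k + d : ℕ) : ℝ) ≤ (N + 1) * k := by
      have : (2 * d : ℝ) ≤ k := by exact_mod_cast d7
      push_cast
      linarith
    have x2 : (d : ℝ) ≤ (lam + 2) * (L + 1) ^ 2 := by
      have : (lam + 2) * (L + 1) ≤ (lam + 2) * (L + 1) ^ 2 :=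
        mul_le_mul_of_nonneg_left (by nlinarith) (by positivity)
      linarith
    have x3 : d * (9 * ((N * k + d : ℕ) : ℝ)) * Real.exp (-(lam * (N * b) / 2 * L)) ≤ 1 / 2 := by
      have y := mul_le_mul_of_nonneg_right e3
        (show 0 ≤ k * Real.exp (-(lam * (N * b) / 2 * L)) by positivity)
      have z : Real.exp ((lam * (N * b) / 2 - 1) * L) *
          (k * Real.exp (-(lam * (N * b) / 2 * L))) = 1 := by
        rw [← eK, ← Real.exp_add, ← Real.exp_add, Real.exp_eq_one_iff]
        ring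
      rw [z] at y
      calc _ ≤ (lam + 2) * (L + 1) ^ 2 * (9 * ((N + 1) * k)) *
            Real.exp (-(lam * (N * b) / 2 * L)) := by gcongr
        _ ≤ _ := by linarith
    calc _ ≤ (d : ℝ) ^ n * (9 * ((N * k + d : ℕ) : ℝ)) ^ n *
          Real.exp (-(lam * (N * b) / 2 * L)) ^ n := by
          refine mul_le_mul (mul_le_mul_of_nonneg_right f (by positivity)) w
            (Real.exp_pos _).le (by positivity)
      _ ≤ _ := by
          rw [← mul_pow, ← mul_pow, ← one_div_pow]
          exact pow_le_pow_left₀ (by positivity) x3 n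

end Pool.Agent.MP_a8995d_an.BI
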