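import Pool.Agent.MP_a8995d_an.BI.Spec

/-! From coordinates to the operator: no return. -/

namespace Pool.Agent.MP_a8995d_an.BI

open Finset Filter

namespace NegO

theorem W_zero (a b : ℝ) : W a b 0 = 1 := by simp [W]

theorem W_pos (a b : ℝ) (n : ℤ) : 0 < W a b n := Real.exp_pos _

theorem e_apply (n : ℤ) : (lp.single 2 0 1 : H) n = if n = 0 then 1 else 0 := by
  rw [lp.single_apply, Pi.single_apply]

theorem re_orb (y : ℤ → ℂ) (t : ℕ) (n : ℤ) : (orb y t n).re = orb (fun m => (y m).re) t n := by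
  unfold orb
  rw [Complex.re_sum]
  exact Finset.sum_congr rfl fun j _ => by simp

end NegO

open NegO in
theorem negO (h : OrbS) : NegO := by
  intro a b N T ha hb hN hT hC
  obtain ⟨k0, hk⟩ := eventually_atTop.1 hC
  have h1 : ∀ k : ℕ, ∃ V : Set H, IsOpen V ∧ lp.single 2 0 1 ∈ V ∧
      (1 ≤ k → ∀ x ∈ V, ((1 + T) ^ k) x ∉ V) := fun k => by
    rcases Nat.eq_zero_or_pos k with rfl | k1
    · exact ⟨Set.univ, isOpen_univ, trivial, fun l => absurd l (by norm_num)⟩
    have ne : ((1 + T) ^ k) (lp.single 2 0 1) ≠ lp.single 2 0 1 := fun e => by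
      have := h.op a b T ha hb hT (lp.single 2 0 1) k (-1)
      rw [e, e_apply, if_neg (by norm_num), mul_zero, orb, Finset.sum_eq_single 1] at this
      · rw [show (-1 : ℤ) + ((1 : ℕ) : ℤ) = 0 by norm_num, e_apply, if_pos rfl, W_zero,
          Nat.choose_one_right, Complex.ofReal_one, mul_one, mul_one] at this
        have : k = 0 := by exact_mod_cast this.symm
        omega
      · intro j _ hj
        rw [e_apply, if_neg (by omega), mul_zero, mul_zero]
      · intro l
        exact (l (mem_range.2 (by omega))).elim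
    obtain ⟨u, v, u1, v1, u2, v2, d⟩ := t2_separation ne
    exact ⟨v ∩ (fun x => ((1 + T) ^ k) x) ⁻¹' u, v1.inter (u1.preimage ((1 + T) ^ k).continuous), ⟨v2, u2⟩,
      fun _ x hx l => Set.disjoint_left.1 d hx.2 l.1⟩
  choose V v1 v2 v3 using h1
  refine ⟨Metric.ball (lp.single 2 0 1) (1 / 10) ∩ ⋂ k ∈ Set.Iio k0, V k,
    Metric.isOpen_ball.inter ((Set.finite_Iio k0).isOpen_biInter fun k _ => v1 k),
    ⟨lp.single 2 0 1, Metric.mem_ball_self (by norm_num), Set.mem_iInter₂.2 fun k _ => v2 k⟩,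
    fun k k1 x hx => ?_⟩
  rcases lt_or_ge k k0 with l | l
  · have e0 := Set.mem_iInter₂.1 (hx 0 (Nat.zero_le _)).2 k l
    have e1 := Set.mem_iInter₂.1 (hx 1 hN).2 k l
    rw [zero_mul, pow_zero] at e0
    rw [one_mul] at e1
    exact v3 k k1 x e0 e1
  refine hk k l (fun m => ((W a b m : ℂ) * x m).re) fun i hi n => ?_
  rw [← re_orb, ← h.op a b T ha hb hT, Complex.re_ofReal_mul]
  have e1 := (hx i hi).1
  rw [Metric.mem_ball, dist_eq_norm] at e1
  have e2 := (lp.norm_apply_le_norm (by norm_num) _ n).trans e1.le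
  rw [lp.coeFn_sub, Pi.sub_apply, e_apply] at e2
  have e3 := (Complex.abs_re_le_norm _).trans e2
  have e4 : W a b n * (((1 + T) ^ (i * k)) x n).re - (if n = 0 then 1 else 0) =
      W a b n * (((1 + T) ^ (i * k)) x n - if n = 0 then 1 else 0).re := by
    split_ifs with m
    · rw [m, W_zero]
      simp
    · simp
  rw [e4, abs_mul, abs_of_pos (W_pos a b n)]
  exact (mul_le_mul_of_nonneg_left e3 (W_pos a b n).le).trans_eq (by ring)

end Pool.Agent.MP_a8995d_an.BI
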