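import Pool.Agent.MP_a8995d_an.BI.Spec

/-! Orbits under one plus the shift. -/

namespace Pool.Agent.MP_a8995d_an.BI

open Finset Filter
open scoped ENNReal

namespace Orbs

theorem zero {R : Type} [CommRing R] (z : ℤ → R) (n : ℤ) : orb z 0 n = z n := by
  simp [orb]

theorem pascal {R : Type} [CommRing R] (z : ℤ → R) (t : ℕ) (n : ℤ) :
    orb z (t + 1) n = orb z t n + orb z t (n + 1) := by
  unfold orb
  rw [Finset.sum_choose_succ_mul (fun (i _ : ℕ) => z (n + i)) t]
  congr 1
  refine sum_congr rfl fun i _ => ?_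
  congr 2
  push_cast
  ring

theorem add {R : Type} [CommRing R] (z : ℤ → R) (t s : ℕ) (n : ℤ) :
    orb z (t + s) n = orb (orb z t) s n := by
  induction s generalizing n with
  | zero => rw [zero, Nat.add_zero]
  | succ s ih => rw [← Nat.add_assoc, pascal, pascal, ih, ih]

theorem step {a b : ℝ} (ha : 0 < a) (hb : 0 < b) (n : ℤ) : W a b (n + 1) =
    W a b n * Real.exp (min (-b * ((n : ℝ) + 1)) (a * ((n : ℝ) + 1))) := by
  unfold W
  rw [← Real.exp_add]
  congr 1
  rcases lt_trichotomy n (-1) with h | h | h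
  · have h1 : (n : ℝ) + 1 < 0 := by
      have : (n : ℝ) < ((-1 : ℤ) : ℝ) := by exact_mod_cast h
      push_cast at this
      linarith
    rw [if_neg (by omega), if_neg (by omega), min_eq_right (by nlinarith)]
    push_cast
    ring
  · subst h
    norm_num
  · have h1 : (0 : ℝ) ≤ n := by exact_mod_cast (by omega : 0 ≤ n)
    rw [if_pos (by omega), if_pos (by omega), min_eq_left (by nlinarith)]
    push_cast
    ring

theorem w_le {a b : ℝ} (ha : 0 < a) (hb : 0 < b) (u : ℝ) :
    ‖(Real.exp (min (-b * u) (a * u)) : ℂ)‖ ≤ 1 := by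
  rw [Complex.norm_real, Real.norm_of_nonneg (Real.exp_pos _).le, Real.exp_le_one_iff]
  rcases le_total 0 u with h | h
  · exact min_le_of_left_le (by nlinarith)
  · exact min_le_of_right_le (by nlinarith)

theorem ex (w : ℤ → ℂ) (hw : ∀ n, ‖w n‖ ≤ 1) :
    ∃ T : H →L[ℂ] H, ∀ (x : H) (n : ℤ), T x n = w n * x (n + 1) := by
  have hp : 0 < (2 : ℝ≥0∞).toReal := by norm_num
  have hs : ∀ x : H, Summable fun n : ℤ => ‖x (n + 1)‖ ^ (2 : ℝ≥0∞).toReal := fun x =>
    (Equiv.addRight (1 : ℤ)).summable_iff.2 ((lp.memℓp x).summable hp)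
  have hle : ∀ (x : H) (n : ℤ), ‖w n * x (n + 1)‖ ^ (2 : ℝ≥0∞).toReal ≤
      ‖x (n + 1)‖ ^ (2 : ℝ≥0∞).toReal := fun x n => by
    refine Real.rpow_le_rpow (norm_nonneg _) ?_ hp.le
    rw [norm_mul]
    exact mul_le_of_le_one_left (norm_nonneg _) (hw n)
  have hs' : ∀ x : H, Summable fun n : ℤ => ‖w n * x (n + 1)‖ ^ (2 : ℝ≥0∞).toReal := fun x =>
    Summable.of_nonneg_of_le (fun n => by positivity) (hle x) (hs x)
  let L : H →ₗ[ℂ] H :=
    { toFun := fun x => ⟨fun n => w n * x (n + 1), memℓp_gen (hs' x)⟩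
      map_add' := fun x y => lp.ext (funext fun n => by
        change w n * (x + y) (n + 1) = w n * x (n + 1) + w n * y (n + 1)
        rw [lp.coeFn_add, Pi.add_apply, mul_add])
      map_smul' := fun c x => lp.ext (funext fun n => by
        change w n * (c • x) (n + 1) = c • (w n * x (n + 1))
        rw [lp.coeFn_smul, Pi.smul_apply, smul_eq_mul, smul_eq_mul]
        ring) }
  refine ⟨L.mkContinuous 1 fun x => ?_, fun x n => rfl⟩
  rw [one_mul]
  refine lp.norm_le_of_tsum_le hp (norm_nonneg _) ?_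
  rw [lp.norm_rpow_eq_tsum hp x,
    ← (Equiv.addRight (1 : ℤ)).tsum_eq fun n : ℤ => ‖x n‖ ^ (2 : ℝ≥0∞).toReal]
  exact (hs' x).tsum_le_tsum (hle x) (hs x)

end Orbs

theorem orbs : OrbS := by
  refine ⟨fun z t s n => Orbs.add z t s n, fun a b T ha hb hT x t => ?_, fun a b ha hb =>
    Orbs.ex _ fun n => Orbs.w_le ha hb _⟩
  induction t with
  | zero =>
    intro n
    rw [Orbs.zero, pow_zero]
    rfl
  | succ t ih =>
    intro n
    rw [Orbs.pascal, ← ih, ← ih, pow_succ', ContinuousLinearMap.mul_apply,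
      ContinuousLinearMap.add_apply, ContinuousLinearMap.one_apply, lp.coeFn_add, Pi.add_apply,
      hT, Orbs.step ha hb]
    push_cast
    ring

end Pool.Agent.MP_a8995d_an.BI
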