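import Pool.Agent.MP_a8995d_an.BI.Spec

/-! The differences of the interpolating polynomial. -/

namespace Pool.Agent.MP_a8995d_an.BI

open Finset Filter

namespace PosAx

theorem dd_const (s : Finset ℕ) (c : ℝ) (f : ℕ → ℝ) :
    DD s (fun y => c * f y) = c * DD s f := by
  unfold DD
  rw [Finset.mul_sum]
  exact Finset.sum_congr rfl fun y _ => mul_div_assoc _ _ _

theorem dd_van (s A : Finset ℕ) (h : s ⊆ A) : DD s (fun y => ∏ r ∈ A, ((y : ℝ) - r)) = 0 := by
  unfold DD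
  refine Finset.sum_eq_zero fun y hy => ?_
  exact div_eq_zero_iff.2 (Or.inl (Finset.prod_eq_zero (h hy) (sub_self _)))

theorem dd_can (h1 : DDS) (s C A : Finset ℕ) (hs : C ⊆ s) (hA : C ⊆ A) :
    DD s (fun y => ∏ r ∈ A, ((y : ℝ) - r)) =
      DD (s \ C) (fun y => ∏ r ∈ A \ C, ((y : ℝ) - r)) := by
  rw [← h1.cancel s C _ hs]
  refine congrArg _ (funext fun y => ?_)
  rw [mul_comm, Finset.prod_sdiff hA]

theorem fac (d u M : ℕ) (h : u ≤ M) :
    ((d + u).factorial : ℝ) ≤ d.factorial * ((M + d : ℕ) : ℝ) ^ u := by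
  have h1 : (d + u).factorial ≤ d.factorial * (M + d) ^ u := by
    rw [← Nat.factorial_mul_ascFactorial]
    exact Nat.mul_le_mul_left _ ((Nat.ascFactorial_le_pow_add d u).trans
      (Nat.pow_le_pow_left (by omega) u))
  exact_mod_cast h1

theorem two {M : ℕ} {κ : ℝ} (hκ : 0 < κ) (h : 2 * (M : ℝ) ^ 2 ≤ κ) : (1 + M / κ) ^ M ≤ 2 := by
  have h1 : 1 + M / κ ≤ Real.exp (M / κ) := by
    rw [add_comm]
    exact Real.add_one_le_exp _
  have h2 : (M : ℝ) * (M / κ) ≤ 1 / 2 := by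
    rw [← mul_div_assoc, div_le_iff₀ hκ]
    nlinarith
  have h3 := Real.add_one_le_exp (-(1 / 2))
  have h4 : Real.exp (1 / 2) * Real.exp (-(1 / 2)) = 1 := by
    rw [← Real.exp_add, add_neg_cancel, Real.exp_zero]
  have h5 := Real.exp_pos (1 / 2)
  calc (1 + M / κ) ^ M ≤ Real.exp (M / κ) ^ M := pow_le_pow_left₀ (by positivity) h1 M
    _ = Real.exp (M * (M / κ)) := (Real.exp_nat_mul _ _).symm
    _ ≤ Real.exp (1 / 2) := Real.exp_le_exp.2 h2
    _ ≤ 2 := by nlinarith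

theorem step (k : ℕ) {i j : ℕ} (h : i < j) : i * k + k ≤ j * k := by
  rw [← Nat.succ_mul]
  exact Nat.mul_le_mul_right k h

/-- The far nodes. -/
def Af (N k w i0 : ℕ) : Finset ℕ :=
  ((range (N + 1)).erase i0).biUnion fun i => Ico (i * k) (i * k + w)

theorem mem_Af {N k w i0 r : ℕ} :
    r ∈ Af N k w i0 ↔ ∃ i ≤ N, i ≠ i0 ∧ i * k ≤ r ∧ r < i * k + w := by
  simp only [Af, Finset.mem_biUnion, Finset.mem_erase, Finset.mem_range, Finset.mem_Ico]
  constructor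
  · rintro ⟨i, ⟨h1, h2⟩, h3⟩
    exact ⟨i, by omega, h1, h3⟩
  · rintro ⟨i, h1, h2, h3⟩
    exact ⟨i, ⟨h2, by omega⟩, h3⟩

theorem card_Af {N k w i0 : ℕ} (hw : w ≤ k) (hi : i0 ≤ N) : (Af N k w i0).card = N * w := by
  unfold Af
  rw [Finset.card_biUnion]
  · simp only [Nat.card_Ico, Nat.add_sub_cancel_left, Finset.sum_const, smul_eq_mul]
    rw [Finset.card_erase_of_mem (Finset.mem_range.2 (by omega)), Finset.card_range,
      Nat.add_sub_cancel]
  · intro i _ j _ hij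
    refine Finset.disjoint_left.2 fun r h1 h2 => ?_
    rw [Finset.mem_Ico] at h1 h2
    rcases lt_or_gt_of_ne hij with h | h
    · have := step k h
      omega
    · have := step k h
      omega

theorem far {N k d v i0 r : ℕ} (hk : d + v < k) (h : r ∈ Af N k (d + v + 1) i0) :
    r + (k - (d + v)) ≤ i0 * k ∨ i0 * k + d + (k - (d + v)) ≤ r := by
  obtain ⟨i, -, h2, h3, h4⟩ := mem_Af.1 h
  rcases lt_or_gt_of_ne h2 with h | h
  · have := step k h
    omega
  · have := step k h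
    omega

theorem near (h2 : DBS) (A : Finset ℕ) (t u : ℕ) {κ : ℝ} (hκ : 0 < κ) (hu : u ≤ A.card)
    (hM : 2 * (A.card : ℝ) ^ 2 ≤ κ) (hf : ∀ r ∈ A, κ ≤ |(t : ℝ) - r|) :
    |DD (Icc t (t + u)) fun y => ∏ r ∈ A, ((y : ℝ) - r)| ≤
      2 * (A.card / κ) ^ u * |∏ r ∈ A, ((t : ℝ) - r)| := by
  have hu0 : (0 : ℝ) ≤ u := Nat.cast_nonneg u
  have hu' : (u : ℝ) ≤ A.card := by exact_mod_cast hu
  have h3 := h2.prod A (Icc t (t + u)) u (fun r => |(t : ℝ) - r| + u) κ
    (by rw [Nat.card_Icc]; omega) hκ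
    (fun r hr => by linarith [hf r hr]) (fun r _ y hy => by
      rw [Finset.mem_Icc] at hy
      have a1 : (t : ℝ) ≤ y := by exact_mod_cast hy.1
      have a2 : (y : ℝ) ≤ t + u := by exact_mod_cast hy.2
      have a3 := le_abs_self ((t : ℝ) - r)
      have a4 := neg_abs_le ((t : ℝ) - r)
      rw [abs_le]
      constructor <;> linarith)
  have h4 : ∏ r ∈ A, (|(t : ℝ) - r| + u) ≤ ∏ r ∈ A, ((1 + A.card / κ) * |(t : ℝ) - r|) := by
    refine Finset.prod_le_prod (fun r _ => by positivity) fun r hr => ?_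
    have a1 : A.card / κ * κ ≤ A.card / κ * |(t : ℝ) - r| :=
      mul_le_mul_of_nonneg_left (hf r hr) (by positivity)
    rw [div_mul_cancel₀ _ hκ.ne'] at a1
    linarith
  rw [Finset.prod_mul_distrib, Finset.prod_const, ← Finset.abs_prod] at h4
  have h5 := mul_le_mul_of_nonneg_right (two hκ hM) (abs_nonneg (∏ r ∈ A, ((t : ℝ) - r)))
  refine h3.trans ((mul_le_mul_of_nonneg_left (h4.trans h5) (by positivity)).trans (le_of_eq ?_))
  ring

theorem wide (h2 : DBS) (A B : Finset ℕ) (j e Y : ℕ) (hY : 0 < Y) (hB : B.card = j + 1)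
    (hA : A.card = j + e) (a : ∀ r ∈ A, r ≤ Y) (b : ∀ y ∈ B, y ≤ Y) :
    |DD B fun y => ∏ r ∈ A, ((y : ℝ) - r)| ≤ (A.card : ℝ) ^ j * (Y : ℝ) ^ e := by
  have hY' : (0 : ℝ) < Y := by exact_mod_cast hY
  have h3 := h2.prod A B j (fun _ => Y) Y hB hY' (fun _ _ => le_rfl) (fun r hr y hy => by
    have a1 : (r : ℝ) ≤ Y := by exact_mod_cast a r hr
    have a2 : (y : ℝ) ≤ Y := by exact_mod_cast b y hy
    have a3 : (0 : ℝ) ≤ r := Nat.cast_nonneg r
    have a4 : (0 : ℝ) ≤ y := Nat.cast_nonneg y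
    rw [abs_le]
    constructor <;> linarith)
  refine h3.trans (le_of_eq ?_)
  rw [Finset.prod_const]
  generalize (A.card : ℝ) = x
  rw [hA, div_pow, pow_add]
  field_simp

theorem last {L κ Y x : ℝ} {j u e : ℕ} (hκ : 0 < κ) (hY : κ ≤ Y) (hL : 1 ≤ L) (hx : 0 ≤ x)
    (hxL : x ≤ L) (hj : j ≤ u) :
    L ^ u * (x ^ j * Y ^ e) ≤ (2 * Y / κ) ^ (u + e) * (L ^ 2 / κ) ^ u * κ ^ (u + e) := by
  have hY0 : 0 < Y := hκ.trans_le hY
  have h1 : x ^ j ≤ L ^ u := (pow_le_pow_left₀ hx hxL j).trans (pow_le_pow_right₀ hL hj)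
  have h2 : (1 : ℝ) ≤ 2 ^ (u + e) * (Y / κ) ^ u :=
    one_le_mul_of_one_le_of_one_le (one_le_pow₀ one_le_two) (one_le_pow₀ ((one_le_div hκ).2 hY))
  have h3 : (2 * Y / κ) ^ (u + e) * (L ^ 2 / κ) ^ u * κ ^ (u + e) =
      L ^ u * (L ^ u * Y ^ e) * (2 ^ (u + e) * (Y / κ) ^ u) := by
    rw [div_pow (L ^ 2), ← pow_mul, mul_comm 2 u, pow_mul]
    simp only [div_pow, mul_pow, pow_add]
    field_simp
  rw [h3]
  exact le_trans (by gcongr) (le_mul_of_one_le_right (by positivity) h2)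

end PosAx

open PosAx in
theorem posA (h1 : DDS) (h2 : DBS) : PosA := by
  intro N k d v i0 hN hi0 hk hM
  have hcard : (Af N k (d + v + 1) i0).card = pM N d v := card_Af (by omega) hi0
  have hw : d + v + 1 ≤ pM N d v := Nat.le_mul_of_pos_left _ hN
  have hkN : k ≤ N * k := Nat.le_mul_of_pos_left _ hN
  have hfar := fun r => far (N := N) (i0 := i0) (r := r) hk
  have hmem := fun r => mem_Af (N := N) (k := k) (w := d + v + 1) (i0 := i0) (r := r)
  unfold pG pq pY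
  generalize Af N k (d + v + 1) i0 = A at hcard hfar hmem
  generalize pM N d v = M at hcard hw hM
  have hκn : k - (d + v) ≤ N * k + (M + d) := by omega
  have hκ : (0 : ℝ) < ((k - (d + v) : ℕ) : ℝ) := by exact_mod_cast (by omega : 0 < k - (d + v))
  have hκY : ((k - (d + v) : ℕ) : ℝ) ≤ ((N * k + (M + d) : ℕ) : ℝ) := by exact_mod_cast hκn
  have hM' : 2 * (M : ℝ) ^ 2 ≤ ((k - (d + v) : ℕ) : ℝ) := by exact_mod_cast hM
  have hf : ∀ r ∈ A, ((k - (d + v) : ℕ) : ℝ) ≤ |((i0 * k + d : ℕ) : ℝ) - r| := by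
    intro r hr
    rcases hfar r hr with h | h
    · have a1 : (r : ℝ) + (k - (d + v) : ℕ) ≤ (i0 * k + d : ℕ) := by
        exact_mod_cast h.trans (Nat.le_add_right _ d)
      exact le_abs.2 (Or.inl (by linarith))
    · have a1 : ((i0 * k + d : ℕ) : ℝ) + (k - (d + v) : ℕ) ≤ r := by exact_mod_cast h
      exact le_abs.2 (Or.inr (by linarith))
  have hdis : Disjoint (Ico (i0 * k) (i0 * k + d)) A := by
    refine Finset.disjoint_left.2 fun r a1 a2 => ?_
    have := hfar r a2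
    rw [Finset.mem_Ico] at a1
    omega
  generalize ((k - (d + v) : ℕ) : ℝ) = κ at hκ hκY hM' hf
  have hD : κ ^ M ≤ |∏ r ∈ A, (((i0 * k + d : ℕ) : ℝ) - r)| := by
    rw [Finset.abs_prod, ← hcard, ← Finset.prod_const]
    exact Finset.prod_le_prod (fun _ _ => hκ.le) hf
  have hD0 : 0 < |∏ r ∈ A, (((i0 * k + d : ℕ) : ℝ) - r)| := (pow_pos hκ M).trans_le hD
  have hat : ∀ u, DD (Icc (i0 * k) (i0 * k + (d + u)))
      (fun y => ∏ r ∈ Ico (i0 * k) (i0 * k + d) ∪ A, ((y : ℝ) - r)) =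
      DD (Icc (i0 * k + d) (i0 * k + d + u)) fun y => ∏ r ∈ A, ((y : ℝ) - r) := by
    intro u
    rw [dd_can h1 _ (Ico (i0 * k) (i0 * k + d)) _ (fun r hr => by
      rw [Finset.mem_Ico] at hr
      rw [Finset.mem_Icc]
      omega) Finset.subset_union_left, Finset.union_sdiff_cancel_left hdis]
    refine congrArg (fun s => DD s _) (Finset.ext fun r => ?_)
    simp only [Finset.mem_sdiff, Finset.mem_Icc, Finset.mem_Ico]
    omega
  have hn := fun u hu => near h2 A (i0 * k + d) u hκ hu (hcard ▸ hM') hf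
  have h0 := hat 0
  rw [add_zero, add_zero, Finset.Icc_self, h1.single] at h0
  have hcA : (Ico (i0 * k) (i0 * k + d) ∪ A).card = d + M := by
    rw [Finset.card_union_of_disjoint hdis, hcard, Nat.card_Ico, Nat.add_sub_cancel_left]
  have hmA : ∀ r, r ∈ Ico (i0 * k) (i0 * k + d) ∪ A ↔ (i0 * k ≤ r ∧ r < i0 * k + d) ∨
      ∃ i ≤ N, i ≠ i0 ∧ i * k ≤ r ∧ r < i * k + (d + v + 1) := fun r => by
    rw [Finset.mem_union, Finset.mem_Ico, hmem]
  rw [hcard] at hn
  generalize Ico (i0 * k) (i0 * k + d) ∪ A = B at hat h0 hcA hmA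
  generalize ∏ r ∈ A, (((i0 * k + d : ℕ) : ℝ) - r) = D at hD hD0 hn h0
  have hd0 : (0 : ℝ) < d.factorial := by exact_mod_cast d.factorial_pos
  have hDne : D ≠ 0 := abs_pos.1 hD0
  have hvan : ∀ i ≤ N, i ≠ i0 → ∀ s ≤ d + v,
      DD (Icc (i * k) (i * k + s)) (fun y => ∏ r ∈ B, ((y : ℝ) - r)) = 0 := by
    intro i hi hne s hs
    refine dd_van _ _ fun r hr => (hmA r).2 (Or.inr ⟨i, hi, hne, ?_⟩)
    rw [Finset.mem_Icc] at hr
    omega
  have hL : (1 : ℝ) ≤ ((M + d : ℕ) : ℝ) := by exact_mod_cast (by omega : 1 ≤ M + d)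
  have hML : (M : ℝ) ≤ ((M + d : ℕ) : ℝ) := by exact_mod_cast Nat.le_add_right M d
  have hY0 : (0 : ℝ) < ((N * k + (M + d) : ℕ) : ℝ) := hκ.trans_le hκY
  have hG : 2 ≤ (2 * ((N * k + (M + d) : ℕ) : ℝ) / κ) ^ M := by
    have a1 : 2 ≤ 2 * ((N * k + (M + d) : ℕ) : ℝ) / κ := by
      rw [le_div_iff₀ hκ]
      linarith
    exact a1.trans (le_self_pow₀ (by linarith) (by omega))
  have hred : ∀ (u : ℕ) (X Z : ℝ), u ≤ M → ((M + d : ℕ) : ℝ) ^ u * |X| ≤ Z * |D| →
      |((d + u).factorial : ℝ) * ((d.factorial * D)⁻¹ * X)| ≤ Z := by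
    intro u X Z hu h
    rw [abs_mul, abs_mul, abs_inv, abs_mul, Nat.abs_cast, Nat.abs_cast, ← mul_assoc,
      ← div_eq_mul_inv, div_mul_eq_mul_div, div_le_iff₀ (by positivity)]
    have a1 := mul_le_mul_of_nonneg_right (fac d u M hu) (abs_nonneg X)
    have a2 := mul_le_mul_of_nonneg_left h hd0.le
    linarith
  refine ⟨fun y => (d.factorial * D)⁻¹ * ∏ r ∈ B, ((y : ℝ) - r), fun i hi => ?_⟩
  simp only [h1.diff, dd_const]
  refine ⟨fun s hs => ?_, ?_, fun u hu => ?_⟩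
  · by_cases hne : i = i0
    · rw [dd_van, mul_zero, mul_zero]
      refine fun r hr => (hmA r).2 (Or.inl ?_)
      rw [Finset.mem_Icc, hne] at hr
      omega
    · rw [hvan i hi hne s (by omega), mul_zero, mul_zero]
  · by_cases hne : i = i0
    · rw [if_pos hne, hne, h0]
      field_simp
    · rw [if_neg hne, hvan i hi hne d (by omega), mul_zero, mul_zero]
  by_cases huM : u ≤ M
  swap
  · rw [h2.zero B _ (by rw [hcA, Nat.card_Icc]; omega), mul_zero, mul_zero, abs_zero,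
      if_neg (by omega), if_neg huM, zero_mul]
  rw [if_pos huM]
  by_cases hne : i = i0
  · have a1 : (2 : ℝ) ≤ if u ≤ v then 2 else (2 * ((N * k + (M + d) : ℕ) : ℝ) / κ) ^ M := by
      split_ifs
      · exact le_rfl
      · exact hG
    refine le_trans (hred u _ _ huM ?_) (mul_le_mul_of_nonneg_right a1 (by positivity))
    rw [hne, hat]
    refine (mul_le_mul_of_nonneg_left (hn u huM) (by positivity)).trans ?_
    have a2 : ((M + d : ℕ) : ℝ) ^ u * (M / κ) ^ u ≤ (((M + d : ℕ) : ℝ) ^ 2 / κ) ^ u := by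
      rw [← mul_pow, ← mul_div_assoc, sq]
      gcongr
    have a3 := mul_le_mul_of_nonneg_right a2 hD0.le
    linarith
  by_cases huv : u ≤ v
  · rw [hvan i hi hne _ (by omega), mul_zero, mul_zero, abs_zero, if_pos huv]
    positivity
  rw [if_neg huv]
  refine hred u _ _ huM ?_
  have hiN : i * k ≤ N * k := Nat.mul_le_mul_right k hi
  have hi0N : i0 * k ≤ N * k := Nat.mul_le_mul_right k hi0
  have s1 : Ico (i * k) (i * k + (d + v + 1)) ⊆ Icc (i * k) (i * k + (d + u)) := fun r hr => by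
    rw [Finset.mem_Ico] at hr
    rw [Finset.mem_Icc]
    omega
  have s2 : Ico (i * k) (i * k + (d + v + 1)) ⊆ B := fun r hr =>
    (hmA r).2 (Or.inr ⟨i, hi, hne, Finset.mem_Ico.1 hr⟩)
  have c2 : (B \ Ico (i * k) (i * k + (d + v + 1))).card = u - v - 1 + (M - u) := by
    rw [Finset.card_sdiff_of_subset s2, hcA, Nat.card_Ico]
    omega
  have a1 := wide h2 (B \ Ico (i * k) (i * k + (d + v + 1)))
    (Icc (i * k) (i * k + (d + u)) \ Ico (i * k) (i * k + (d + v + 1))) (u - v - 1) (M - u)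
    (N * k + (M + d)) (by omega) (by
      rw [Finset.card_sdiff_of_subset s1, Nat.card_Icc, Nat.card_Ico]
      omega) c2 (fun r hr => by
      rcases (hmA r).1 (Finset.mem_sdiff.1 hr).1 with h | ⟨j, a, -, -, h⟩
      · omega
      · have := Nat.mul_le_mul_right k a
        omega) (fun y hy => by
      have := Finset.mem_Icc.1 (Finset.mem_sdiff.1 hy).1
      omega)
  rw [dd_can h1 _ _ _ s1 s2]
  refine (mul_le_mul_of_nonneg_left a1 (by positivity)).trans ?_
  have a2 : (((B \ Ico (i * k) (i * k + (d + v + 1))).card : ℕ) : ℝ) ≤ ((M + d : ℕ) : ℝ) := by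
    rw [c2]
    exact_mod_cast (by omega : u - v - 1 + (M - u) ≤ M + d)
  have a3 := last (e := M - u) hκ hκY hL (Nat.cast_nonneg _) a2 (by omega : u - v - 1 ≤ u)
  rw [Nat.add_sub_cancel' huM] at a3
  exact a3.trans (mul_le_mul_of_nonneg_left hD (by positivity))

end Pool.Agent.MP_a8995d_an.BI
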