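import Pool.Agent.MP_a8995d_an.BI.Spec

/-! The coordinates of the orbit from the differences of the interpolating polynomial. -/

namespace Pool.Agent.MP_a8995d_an.BI

open Finset Filter

namespace PosB

/-- The starting vector. -/
def zz (d : ℕ) (Q : ℕ → ℝ) (n : ℤ) : ℝ :=
  if -(d : ℤ) ≤ n then (fwdDiff 1)^[(n + d).toNat] Q 0 else 0

theorem zz_eq (d : ℕ) (Q : ℕ → ℝ) (s : ℕ) {n : ℤ} (h : n + d = s) :
    zz d Q n = (fwdDiff 1)^[s] Q 0 := by
  rw [zz, if_pos (by omega), h, Int.toNat_natCast]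

theorem key (d : ℕ) (Q : ℕ → ℝ) (t s : ℕ) {n : ℤ} (h : n + d = s) :
    orb (zz d Q) t n = (fwdDiff 1)^[s] Q t := by
  have e := shift_eq_sum_fwdDiff_iter 1 ((fwdDiff 1)^[s] Q) t 0
  rw [zero_add, smul_eq_mul, mul_one] at e
  rw [e, orb]
  refine sum_congr rfl fun j _ => ?_
  rw [zz_eq d Q (j + s) (by push_cast; omega), Function.iterate_add_apply, nsmul_eq_mul]

theorem tail (z : ℤ → ℝ) (t j M : ℕ) (B : ℝ) (hB : 0 ≤ B) (h1 : ∀ n < 0, z n = 0)
    (h2 : ∀ u : ℕ, M < u → z u = 0)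
    (h3 : ∀ u : ℕ, u ≤ M → (t.choose (j + u) : ℝ) * |z u| ≤ B) :
    |orb z t (-j)| ≤ (M + 1) * B := by
  have k : ∀ l ∈ range (t + 1), |(t.choose l : ℝ) * z (-j + l)| ≤
      if l ∈ Icc j (j + M) then B else 0 := by
    intro l _
    rcases lt_or_ge l j with m | m
    · rw [h1 _ (by omega), mul_zero, abs_zero]
      split_ifs
      exacts [hB, le_rfl]
    · obtain ⟨u, rfl⟩ := Nat.exists_eq_add_of_le m
      rw [show -(j : ℤ) + ((j + u : ℕ) : ℤ) = u by push_cast; ring]
      split_ifs with o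
      · rw [abs_mul, Nat.abs_cast]
        exact h3 u (by have := (mem_Icc.1 o).2; omega)
      · rw [h2 u (by rw [mem_Icc] at o; omega), mul_zero, abs_zero]
  refine ((abs_sum_le_sum_abs _ _).trans (sum_le_sum k)).trans ?_
  rw [sum_ite_mem, sum_const, nsmul_eq_mul]
  refine mul_le_mul_of_nonneg_right ?_ hB
  have := card_le_card (inter_subset_right (s₁ := range (t + 1)) (s₂ := Icc j (j + M)))
  rw [Nat.card_Icc] at this
  exact_mod_cast this.trans (by omega)

end PosB

open PosB in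
theorem posB (h : PosA) : PosB := by
  intro N k d v i0 hN hi0 hk hM
  obtain ⟨Q, hQ⟩ := h N k d v i0 hN hi0 hk hM
  refine ⟨zz d Q, fun i hi => ⟨?_, fun j j1 j2 => ?_, fun u hu => ?_, fun j _ => ?_⟩⟩
  · rw [key d Q _ d (zero_add _)]
    exact (hQ i hi).2.1
  · rw [key d Q _ (d - j) (by omega)]
    exact (hQ i hi).1 _ (by omega)
  · rw [key d Q _ (d + u) (by push_cast; ring)]
    exact (hQ i hi).2.2 u hu
  obtain ⟨h1, h2, h3⟩ := hQ 0 (Nat.zero_le _)
  rw [zero_mul] at h1 h2 h3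
  have hv : d + v + 1 ≤ pM N d v := Nat.le_mul_of_pos_left _ hN
  have hκ : (0 : ℝ) < ((k - (d + v) : ℕ) : ℝ) := by exact_mod_cast Nat.sub_pos_of_lt hk
  have hkN : k ≤ N * k := Nat.le_mul_of_pos_left _ hN
  have hY : ((k - (d + v) : ℕ) : ℝ) ≤ pY N k d v := by
    unfold pY
    exact_mod_cast (by omega : k - (d + v) ≤ N * k + (pM N d v + d))
  have hY0 : 0 ≤ pY N k d v := hκ.le.trans hY
  have ht : ((i * k : ℕ) : ℝ) ≤ pY N k d v := by
    unfold pY
    exact_mod_cast (Nat.mul_le_mul_right k hi).trans (Nat.le_add_right _ _)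
  have hG : 2 ≤ pG N k d v := by
    have a : 2 ≤ 2 * pY N k d v / ((k - (d + v) : ℕ) : ℝ) := by
      rw [le_div_iff₀ hκ]
      linarith
    exact a.trans (le_self_pow₀ (by linarith) (by omega))
  have hq0 : 0 ≤ pq N k d v := by
    unfold pq
    positivity
  have hq : 1 ≤ pq N k d v * pY N k d v := by
    have a : (1 : ℝ) ≤ ((pM N d v + d : ℕ) : ℝ) ^ 2 :=
      one_le_pow₀ (by exact_mod_cast (by omega : 1 ≤ pM N d v + d))
    rw [pq, div_mul_eq_mul_div, le_div_iff₀ hκ]
    nlinarith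
  have hz : ∀ u : ℕ, zz d Q u = (fwdDiff 1)^[d + u] Q 0 := fun u =>
    zz_eq d Q (d + u) (by push_cast; ring)
  have hb : ∀ u : ℕ, u ≤ pM N d v → |zz d Q u| ≤ pG N k d v * pq N k d v ^ u := by
    intro u hu
    rw [hz]
    rcases Nat.eq_zero_or_pos u with rfl | m
    · rw [add_zero, h2, pow_zero, mul_one]
      split_ifs
      · rw [abs_one]
        linarith
      · rw [abs_zero]
        linarith
    · refine (h3 u m).trans (mul_le_mul_of_nonneg_right ?_ (pow_nonneg hq0 _))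
      split_ifs
      exacts [hG, le_rfl]
  rw [mul_assoc, mul_assoc]
  refine tail _ _ j _ _ (by positivity) (fun n hn => ?_) (fun u hu => ?_) fun u hu => ?_
  · by_cases m : -(d : ℤ) ≤ n
    · rw [zz_eq d Q (n + d).toNat (by omega)]
      exact h1 _ (by omega)
    · rw [zz, if_neg m]
  · have := h3 u (by omega)
    rw [if_neg (by omega), if_neg (by omega), zero_mul] at this
    rw [hz]
    exact abs_nonpos_iff.1 this
  · have a : ((i * k).choose (j + u) : ℝ) ≤ pY N k d v ^ (j + u) := by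
      refine le_trans ?_ (pow_le_pow_left₀ (Nat.cast_nonneg _) ht _)
      exact_mod_cast Nat.choose_le_pow _ _
    calc _ ≤ pY N k d v ^ (j + u) * (pG N k d v * pq N k d v ^ u) :=
          mul_le_mul a (hb u hu) (abs_nonneg _) (pow_nonneg hY0 _)
      _ = pG N k d v * ((pq N k d v * pY N k d v) ^ u * pY N k d v ^ j) := by
          rw [mul_pow, pow_add]
          ring
      _ ≤ _ := mul_le_mul_of_nonneg_left (mul_le_mul_of_nonneg_right (pow_le_pow_right₀ hq hu)
          (pow_nonneg hY0 _)) (by linarith)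

end Pool.Agent.MP_a8995d_an.BI
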