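import Pool.Agent.MP_a8995d_an.BI.Spec

/-! The choice of the orders, upper coordinates. -/

namespace Pool.Agent.MP_a8995d_an.BI

open Finset Filter

namespace PosN1x

theorem step {a b : ℝ} (ha : 0 < a) (hb : 0 < b) (n0 : ℤ) (j : ℕ) :
    W a b (n0 + j) * Real.exp (-((a + b) * |(n0 : ℝ)| + b * (j + 1))) ≤ W a b (n0 + (j + 1 : ℕ)) := by
  unfold W
  rw [← Real.exp_add, Real.exp_le_exp]
  have h1 := le_abs_self (n0 : ℝ)
  have h2 := neg_abs_le (n0 : ℝ)
  have h3 : (0 : ℝ) ≤ j := Nat.cast_nonneg j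
  have h4 := mul_le_mul_of_nonneg_left h1 hb.le
  have h5 := mul_le_mul_of_nonneg_left h2 ha.le
  have h6 := mul_nonneg ha.le (abs_nonneg (n0 : ℝ))
  have h7 := mul_nonneg hb.le (abs_nonneg (n0 : ℝ))
  have h8 := mul_nonneg ha.le h3
  have h9 := mul_nonneg hb.le h3
  by_cases c : 0 ≤ n0 + j
  · rw [if_pos c, if_pos (by push_cast; omega)]
    push_cast
    nlinarith
  · rw [if_neg c]
    by_cases c' : 0 ≤ n0 + (j + 1 : ℕ)
    · have e : n0 = -((j : ℤ) + 1) := by push_cast at c'; omega
      have e' : (n0 : ℝ) = -((j : ℝ) + 1) := by exact_mod_cast e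
      rw [if_pos c']
      push_cast
      have e1 : (n0 : ℝ) + (j + 1) = 0 := by linarith
      have e2 : (n0 : ℝ) + j + 1 = 0 := by linarith
      rw [e1, e2]
      linarith
    · rw [if_neg c']
      push_cast
      nlinarith

theorem low {a b : ℝ} (ha : 0 < a) (hb : 0 < b) (n0 : ℤ) (u : ℕ) :
    W a b n0 * Real.exp (-(u * ((a + b) * |(n0 : ℝ)| + b * (u + 1) / 2))) ≤ W a b (n0 + u) := by
  induction u with
  | zero => simp
  | succ u ih =>
    refine le_trans (le_of_eq ?_) ((mul_le_mul_of_nonneg_right ih (Real.exp_pos _).le).trans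
      (step ha hb n0 u))
    rw [mul_assoc, ← Real.exp_add]
    congr 2
    push_cast
    ring

theorem ev (C α β s : ℝ) (hC : 0 < C) (hα : 0 ≤ α) (hβ : 0 ≤ β) (hs : 0 < s) :
    ∀ᶠ L : ℝ in atTop, C * (α * L + β) ^ 2 ≤ Real.exp (s * L) := by
  have h := (isLittleO_pow_exp_pos_mul_atTop 2 hs).bound
    (show 0 < 1 / (C * (α + 1) ^ 2) by positivity)
  filter_upwards [h, eventually_ge_atTop β] with L h hL
  have h0 : 0 ≤ L := hβ.trans hL
  rw [Real.norm_of_nonneg (by positivity), Real.norm_of_nonneg (Real.exp_pos _).le, one_div,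
    ← div_eq_inv_mul, le_div_iff₀ (by positivity)] at h
  have h1 : (α * L + β) ^ 2 ≤ ((α + 1) * L) ^ 2 :=
    pow_le_pow_left₀ (by positivity) (by linarith) 2
  have h2 := mul_le_mul_of_nonneg_left h1 hC.le
  nlinarith

theorem ev2 (C s ε : ℝ) (hs : 0 < s) (hε : 0 < ε) :
    ∀ᶠ L : ℝ in atTop, C * Real.exp (-(s * L)) ≤ ε := by
  have h : Tendsto (fun L : ℝ => C * Real.exp (-(s * L))) atTop (nhds (C * 0)) :=
    (Real.tendsto_exp_neg_atTop_nhds_zero.comp (tendsto_id.const_mul_atTop hs)).const_mul C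
  rw [mul_zero] at h
  exact h.eventually_le_const hε

end PosN1x

open PosN1x in
theorem posN1 : PosN1 := by
  intro a b l ε N n0 ha hb hN hl hθ hε
  have hN' : (1 : ℝ) ≤ N := by exact_mod_cast hN
  set η : ℝ := (1 - N * b * l / 2) / 2 with hη
  have η0 : 0 < η := by rw [hη]; linarith
  set g : ℝ := Real.log (4 * (N + 1)) with hg
  have g0 : 0 ≤ g := Real.log_nonneg (by linarith)
  obtain ⟨v, hv⟩ := exists_nat_ge ((N * l * g + 1) / η)
  rw [div_le_iff₀ η0] at hv
  refine ⟨v, ?_⟩
  set A : ℝ := (a + b) * |(n0 : ℝ)| with hA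
  have hT : Tendsto (fun k : ℕ => Real.log k) atTop atTop :=
    Real.tendsto_log_atTop.comp tendsto_natCast_atTop_atTop
  filter_upwards [eventually_ge_atTop 1,
    hT.eventually (ev 4 ((N + 1) * l) ((N + 1) * (v + 2)) 1 (by norm_num) (by positivity)
      (by positivity) one_pos),
    hT.eventually (ev (4 * Real.exp (A + b * (N * (v + 2) + 1) / 2)) ((N + 1) * l)
      ((N + 1) * (v + 2)) η (by positivity) (by positivity) (by positivity) η0),
    hT.eventually (ev2 2 η ε η0 hε), hT.eventually (ev2 (Real.exp (N * (v + 2) * g)) 1 ε one_pos hε)]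
    with k hk h1 h2 h3 h4 d hd
  have hk' : (1 : ℝ) ≤ k := by exact_mod_cast hk
  have ek : Real.exp (Real.log k) = k := Real.exp_log (by linarith)
  have L0 : 0 ≤ Real.log k := Real.log_nonneg hk'
  set L : ℝ := Real.log k
  set P : ℝ := (N + 1) * l * L + (N + 1) * (v + 2) with hP
  rw [one_mul, ek] at h1
  have v0 : (0 : ℝ) ≤ v := Nat.cast_nonneg v
  have d0 : (0 : ℝ) ≤ d := Nat.cast_nonneg d
  have lL : 0 ≤ l * L := by positivity
  have M0 : (0 : ℝ) ≤ pM N d v := Nat.cast_nonneg _
  have M1 : (pM N d v : ℝ) ≤ N * (l * L + v + 2) := by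
    unfold pM
    push_cast
    exact mul_le_mul_of_nonneg_left (by linarith) (by linarith)
  have M2 : (pM N d v : ℝ) + d + v ≤ P := by rw [hP]; nlinarith
  have P1 : 1 ≤ P := by rw [hP]; nlinarith
  have P2 : P ≤ P ^ 2 := by nlinarith
  have dv : d + v < k := by
    have : (d : ℝ) + v < k := by linarith
    exact_mod_cast this
  have ka : (k : ℝ) / 2 ≤ ((k - (d + v) : ℕ) : ℝ) := by
    rw [Nat.cast_sub dv.le]
    push_cast
    linarith
  refine ⟨dv, ?_, fun u hu huM => ?_⟩
  · have : 2 * (pM N d v : ℝ) ^ 2 ≤ ((k - (d + v) : ℕ) : ℝ) := by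
      have := pow_le_pow_left₀ M0 (show (pM N d v : ℝ) ≤ P by linarith) 2
      linarith
    exact_mod_cast this
  have q0 : 0 ≤ pq N k d v := by unfold pq; positivity
  have q1 : pq N k d v ≤ P ^ 2 / (k / 2) := by
    unfold pq
    push_cast
    exact div_le_div₀ (by positivity) (pow_le_pow_left₀ (by positivity) (by linarith) 2)
      (by positivity) ka
  have G0 : 0 ≤ pG N k d v := by unfold pG pY; positivity
  have G1 : pG N k d v ≤ Real.exp (N * (v + 2) * g) * Real.exp (N * l * g * L) := by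
    have e1 : 2 * pY N k d v / ((k - (d + v) : ℕ) : ℝ) ≤ Real.exp g := by
      rw [hg, Real.exp_log (by linarith), div_le_iff₀ (by linarith)]
      unfold pY
      push_cast
      nlinarith
    refine (pow_le_pow_left₀ (by unfold pY; positivity) e1 _).trans ?_
    rw [← Real.exp_nat_mul, ← Real.exp_add, Real.exp_le_exp]
    have := mul_le_mul_of_nonneg_right M1 g0
    linarith
  set R : ℝ := Real.exp (A + b * (u + 1) / 2) with hR
  have R0 : 0 < R := Real.exp_pos _
  have R1 : R ≤ Real.exp (A + b * (N * (v + 2) + 1) / 2) * Real.exp (N * b * l / 2 * L) := by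
    rw [hR, ← Real.exp_add, Real.exp_le_exp]
    have e1 : (u : ℝ) ≤ pM N d v := by exact_mod_cast huM
    have := mul_le_mul_of_nonneg_left (e1.trans M1) hb.le
    linarith
  have r1 : 2 * pq N k d v * R ≤ Real.exp (-(η * L)) := by
    have e1 : Real.exp (η * L) * Real.exp (N * b * l / 2 * L) = Real.exp (-(η * L)) * k := by
      rw [← ek, ← Real.exp_add, ← Real.exp_add]
      congr 1
      rw [hη]
      ring
    calc 2 * pq N k d v * R ≤ 2 * (P ^ 2 / (k / 2)) *
          (Real.exp (A + b * (N * (v + 2) + 1) / 2) * Real.exp (N * b * l / 2 * L)) := by gcongr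
      _ = 4 * Real.exp (A + b * (N * (v + 2) + 1) / 2) * P ^ 2 * Real.exp (N * b * l / 2 * L) / k := by
          field_simp
          ring
      _ ≤ Real.exp (η * L) * Real.exp (N * b * l / 2 * L) / k := by gcongr
      _ = _ := by rw [e1, mul_div_cancel_right₀ _ (by linarith)]
  have r0 : 0 ≤ 2 * pq N k d v * R := by positivity
  have r2 : Real.exp (-(η * L)) ≤ 1 := Real.exp_le_one_iff.2 (neg_nonpos.2 (by positivity))
  have key : (if u ≤ v then 2 else pG N k d v) * (2 * pq N k d v * R) ^ u ≤ ε := by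
    have e1 := pow_le_pow_left₀ r0 r1 u
    split_ifs with c
    · have e2 := pow_le_of_le_one (Real.exp_pos _).le r2 (show u ≠ 0 by omega)
      linarith
    · have e2 := pow_le_pow_of_le_one (Real.exp_pos _).le r2 (show v ≤ u by omega)
      refine (mul_le_mul G1 (e1.trans e2) (by positivity) (by positivity)).trans (le_trans ?_ h4)
      rw [mul_assoc, ← Real.exp_nat_mul, ← Real.exp_add]
      refine mul_le_mul_of_nonneg_left (Real.exp_le_exp.2 ?_) (Real.exp_pos _).le
      have := mul_le_mul_of_nonneg_right hv L0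
      linarith
  have w0 : 0 < W a b n0 := Real.exp_pos _
  have w1 := low ha hb n0 u
  rw [Real.exp_neg, Real.exp_nat_mul, ← hA, ← hR, ← div_eq_mul_inv] at w1
  rw [le_div_iff₀ (by positivity)]
  refine le_trans ?_ (mul_le_mul_of_nonneg_left w1 hε.le)
  rw [← mul_div_assoc, le_div_iff₀ (by positivity)]
  have := mul_le_mul_of_nonneg_right key w0.le
  rw [mul_pow, mul_pow] at this
  linarith

end Pool.Agent.MP_a8995d_an.BI
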