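import Pool.Agent.MP_a8995d_an.BI.Glue
import Pool.Agent.MP_a8995d_an.BI.Dds
import Pool.Agent.MP_a8995d_an.BI.Dbs
import Pool.Agent.MP_a8995d_an.BI.Orbs
import Pool.Agent.MP_a8995d_an.BI.NegA
import Pool.Agent.MP_a8995d_an.BI.NegB
import Pool.Agent.MP_a8995d_an.BI.NegN
import Pool.Agent.MP_a8995d_an.BI.NegO
import Pool.Agent.MP_a8995d_an.BI.PosA
import Pool.Agent.MP_a8995d_an.BI.PosB
import Pool.Agent.MP_a8995d_an.BI.PosN1
import Pool.Agent.MP_a8995d_an.BI.PosN2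
import Pool.Agent.MP_a8995d_an.BI.PosO

/-! The threshold for recurrence of order `N`. -/

namespace Pool.Agent.MP_a8995d_an.BI

open Finset Filter

theorem main (a b : ℝ) (ha : 0 < a) (hb : 0 < b) (T : H →L[ℂ] H) (hT : Sh a b T)
    (N : ℕ) (hN1 : 1 ≤ N) (hne : a ≠ N * b) :
    List.TFAE [N * b < a,
      ∀ U : Fin (N + 1) → Set H, (∀ i, IsOpen (U i) ∧ (U i).Nonempty) →
        ∀ᶠ k : ℕ in atTop, ∃ x, ∀ i : Fin (N + 1), ((1 + T) ^ (i.val * k)) x ∈ U i,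
      ∀ U : Set H, IsOpen U → U.Nonempty →
        ∃ k : ℕ, 1 ≤ k ∧ ∃ x, ∀ i ≤ N, ((1 + T) ^ (i * k)) x ∈ U] :=
  tfae (negA dds (dbs dds) orbs) (negB dds (dbs dds)) negN (negO orbs)
    (posB (posA dds (dbs dds))) posN1 posN2 (posO orbs) a b ha hb T hT N hN1 hne

end Pool.Agent.MP_a8995d_an.BI
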