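import Pool.Agent.MP_a8995d_an.BI.Spec2
import Pool.Agent.MP_a8995d_an.BI.Orbs

/-! Orbits in coordinates, general products of weights. -/

namespace Pool.Agent.MP_a8995d_an.BI

open Finset Filter Topology

theorem opV : OpV := by
  intro V T hT x t
  induction t with
  | zero =>
    intro n
    rw [Orbs.zero, pow_zero]
    rfl
  | succ t ih =>
    intro n
    rw [Orbs.pascal, ← ih, ← ih, pow_succ', ContinuousLinearMap.mul_apply,
      ContinuousLinearMap.add_apply, ContinuousLinearMap.one_apply, lp.coeFn_add, Pi.add_apply,
      mul_add, hT.2.2]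

end Pool.Agent.MP_a8995d_an.BI
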