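import Pool.Agent.MP_a8995d_an.BI.Spec2
import Pool.Agent.MP_a8995d_an.BI.PosN1

/-! The choice of the orders, upper coordinates, general weights. -/

namespace Pool.Agent.MP_a8995d_an.BI

open Finset Filter Topology

namespace PosN1V

theorem ev (C l p s : ℝ) (hC : 0 < C) (hl : 0 < l) (hs : 0 < s) :
    ∀ᶠ L : ℝ in atTop, C * ((l * L) ^ (1 / p)) ^ 2 ≤ Real.exp (s * L) := by
  have h := (tendsto_id.const_mul_atTop hl).eventually
    ((isLittleO_rpow_exp_pos_mul_atTop (1 / p * (2 : ℕ)) (div_pos hs hl)).bound (inv_pos.2 hC))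
  filter_upwards [h, eventually_ge_atTop 0] with L h hL
  have h0 : 0 ≤ l * L := by positivity
  simp only [id] at h
  rw [Real.norm_of_nonneg (by positivity), Real.norm_of_nonneg (Real.exp_pos _).le,
    Real.rpow_mul h0, Real.rpow_natCast, ← mul_assoc, div_mul_cancel₀ _ hl.ne',
    le_inv_mul_iff₀ hC] at h
  exact h

theorem del (c p : ℝ) (hc : c < 1) : ∃ δ : ℝ, 0 < δ ∧ δ ≤ 1 ∧ c * (1 + 2 * δ) ^ p < 1 := by
  have h : ContinuousAt (fun s : ℝ => c * (1 + 2 * s) ^ p) 0 :=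
    continuousAt_const.mul (ContinuousAt.rpow_const (by fun_prop) (Or.inl (by norm_num)))
  have h1 : ∀ᶠ s : ℝ in 𝓝[>] 0, c * (1 + 2 * s) ^ p < 1 :=
    (h.eventually_lt continuousAt_const (by simpa using hc)).filter_mono nhdsWithin_le_nhds
  obtain ⟨δ, a, b⟩ := (h1.and (Ioc_mem_nhdsGT one_pos)).exists
  exact ⟨δ, b.1, b.2, a⟩

end PosN1V

open PosN1V in
theorem posN1V : PosN1V := by
  intro b p l C ε N n0 V hb hp hN hl hθ hε hV hW
  have hN' : (1 : ℝ) ≤ N := by exact_mod_cast hN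
  obtain ⟨δ, δ0, δ1, hδ⟩ := del _ p hθ
  refine ⟨δ, δ0, δ1, ?_⟩
  obtain ⟨θ, eθ⟩ : ∃ θ : ℝ, θ = (N : ℝ) ^ p * b * l * (1 + 2 * δ) ^ p := ⟨_, rfl⟩
  obtain ⟨η, hη⟩ : ∃ η : ℝ, η = (1 - θ) / 2 := ⟨_, rfl⟩
  have η0 : 0 < η := by linarith
  obtain ⟨g, hg⟩ : ∃ g : ℝ, g = Real.log (4 * (N + 1)) := ⟨_, rfl⟩
  have g0 : 0 ≤ g := hg ▸ Real.log_nonneg (by linarith)
  have hT : Tendsto (fun k : ℕ => Real.log k) atTop atTop :=
    Real.tendsto_log_atTop.comp tendsto_natCast_atTop_atTop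
  have hX : Tendsto (fun k : ℕ => δ * (l * Real.log k) ^ (1 / p)) atTop atTop :=
    ((tendsto_rpow_atTop (one_div_pos.2 hp)).comp (hT.const_mul_atTop hl)).const_mul_atTop δ0
  filter_upwards [eventually_ge_atTop 1,
    hT.eventually (ev (4 * (6 * N) ^ 2) l p 1 (by positivity) hl one_pos),
    hT.eventually (ev (4 * Real.exp C * (6 * N) ^ 2) l p η (by positivity) hl η0),
    hT.eventually (PosN1x.ev2 2 η ε η0 hε), hX.eventually_ge_atTop 4,
    (hT.const_mul_atTop (mul_pos δ0 η0)).eventually_ge_atTop (4 * N * g)]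
    with k hk h1 h2 h3 h4 h5 d v hd1 hd2 hv1 hv2
  have hk' : (1 : ℝ) ≤ k := by exact_mod_cast hk
  have ek : Real.exp (Real.log k) = k := Real.exp_log (by linarith)
  have L0 : 0 ≤ Real.log k := Real.log_nonneg hk'
  have xp : ((l * Real.log k) ^ (1 / p)) ^ p = l * Real.log k := by
    rw [one_div, Real.rpow_inv_rpow (by positivity) hp.ne']
  have x0 : 0 ≤ (l * Real.log k) ^ (1 / p) := by positivity
  generalize (l * Real.log k) ^ (1 / p) = x at *
  generalize Real.log k = L at *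
  obtain ⟨P, hP⟩ : ∃ P : ℝ, P = 6 * N * x := ⟨_, rfl⟩
  rw [one_mul, ek, mul_assoc, ← mul_pow, ← hP] at h1
  rw [mul_assoc, ← mul_pow, ← hP] at h2
  have v0 : (0 : ℝ) ≤ v := Nat.cast_nonneg v
  have d0 : (0 : ℝ) ≤ d := Nat.cast_nonneg d
  have M0 : (0 : ℝ) ≤ pM N d v := Nat.cast_nonneg _
  have a1 := mul_le_of_le_one_left x0 δ1
  have a2 := mul_le_of_le_one_left d0 δ1
  have a3 := mul_le_mul_of_nonneg_left hd2 δ0.le
  have a4 := le_mul_of_one_le_left x0 hN'
  have a5 : (d : ℝ) + v + 1 ≤ (1 + 2 * δ) * x := by linarith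
  have eM : (pM N d v : ℝ) = N * (d + v + 1) := by
    unfold pM
    push_cast
    rfl
  have M1 : (pM N d v : ℝ) ≤ N * ((1 + 2 * δ) * x) :=
    eM ▸ mul_le_mul_of_nonneg_left a5 (by linarith)
  have M3 : (pM N d v : ℝ) ≤ N * (3 * x) := eM ▸ mul_le_mul_of_nonneg_left (by linarith) (by linarith)
  have M4 : (pM N d v : ℝ) ≤ N * (4 * d) := eM ▸ mul_le_mul_of_nonneg_left (by linarith) (by linarith)
  have M2 : (pM N d v : ℝ) + d + v ≤ P := by linarith
  have P1 : 1 ≤ P := by linarith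
  have P2 : P ≤ P ^ 2 := by nlinarith
  have dv : d + v < k := by
    have : (d : ℝ) + v < k := by linarith
    exact_mod_cast this
  have ka : (k : ℝ) / 2 ≤ ((k - (d + v) : ℕ) : ℝ) := by
    rw [Nat.cast_sub dv.le]
    push_cast
    linarith
  refine ⟨dv, ?_, fun u hu huM => ?_⟩
  · have : 2 * (pM N d v : ℝ) ^ 2 ≤ ((k - (d + v) : ℕ) : ℝ) := by
      have := pow_le_pow_left₀ M0 (show (pM N d v : ℝ) ≤ P by linarith) 2
      linarith
    exact_mod_cast this
  have q0 : 0 ≤ pq N k d v := by unfold pq; positivity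
  have q1 : pq N k d v ≤ P ^ 2 / (k / 2) := by
    unfold pq
    push_cast
    exact div_le_div₀ (by positivity) (pow_le_pow_left₀ (by positivity) (by linarith) 2)
      (by positivity) ka
  have G1 : pG N k d v ≤ Real.exp (pM N d v * g) := by
    have e1 : 2 * pY N k d v / ((k - (d + v) : ℕ) : ℝ) ≤ Real.exp g := by
      rw [hg, Real.exp_log (by linarith), div_le_iff₀ (by linarith)]
      unfold pY
      push_cast
      have := mul_le_mul_of_nonneg_left ka (show (0 : ℝ) ≤ 4 * (N + 1) by linarith)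
      linarith
    rw [Real.exp_nat_mul]
    exact pow_le_pow_left₀ (by unfold pY; positivity) e1 _
  obtain ⟨R, hR⟩ : ∃ R : ℝ, R = Real.exp (b * (u : ℝ) ^ p + C) := ⟨_, rfl⟩
  have R0 : 0 < R := hR ▸ Real.exp_pos _
  have R1 : R ≤ Real.exp C * Real.exp (θ * L) := by
    rw [hR, ← Real.exp_add, Real.exp_le_exp]
    have e1 : (u : ℝ) ≤ pM N d v := by exact_mod_cast huM
    have e2 := Real.rpow_le_rpow (Nat.cast_nonneg u) (e1.trans M1) hp.le
    rw [Real.mul_rpow (by linarith) (by positivity), Real.mul_rpow (by linarith) x0, xp] at e2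
    have := mul_le_mul_of_nonneg_left e2 hb.le
    rw [eθ]
    linarith
  have r1 : 2 * pq N k d v * R ≤ Real.exp (-(η * L)) := by
    have e1 : Real.exp (η * L) * Real.exp (θ * L) = Real.exp (-(η * L)) * k := by
      rw [← ek, ← Real.exp_add, ← Real.exp_add]
      congr 1
      rw [hη]
      ring
    calc 2 * pq N k d v * R ≤ 2 * (P ^ 2 / (k / 2)) * (Real.exp C * Real.exp (θ * L)) := by gcongr
      _ = 4 * Real.exp C * P ^ 2 * Real.exp (θ * L) / k := by
          field_simp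
          ring
      _ ≤ Real.exp (η * L) * Real.exp (θ * L) / k := by gcongr
      _ = _ := by rw [e1, mul_div_cancel_right₀ _ (by linarith)]
  have r0 : 0 ≤ 2 * pq N k d v * R := by positivity
  have r2 : Real.exp (-(η * L)) ≤ 1 := Real.exp_le_one_iff.2 (neg_nonpos.2 (by positivity))
  have r3 := Real.exp_pos (-(η * L))
  have key : (if u ≤ v then 2 else pG N k d v) * (2 * pq N k d v * R) ^ u ≤ ε := by
    have e1 := pow_le_pow_left₀ r0 r1 u
    split_ifs with c
    · have e2 := pow_le_of_le_one r3.le r2 (show u ≠ 0 by omega)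
      linarith
    · have e2 := pow_le_pow_of_le_one r3.le r2 (show v + 1 ≤ u by omega)
      refine (mul_le_mul G1 (e1.trans e2) (by positivity) (by positivity)).trans
        (le_trans ?_ (show Real.exp (-(η * L)) ≤ ε by linarith))
      rw [← Real.exp_nat_mul, ← Real.exp_add, Real.exp_le_exp]
      have b1 := mul_le_mul_of_nonneg_right M4 g0
      have b2 := mul_le_mul_of_nonneg_left h5 d0
      have b3 := mul_le_mul_of_nonneg_right hv1 (mul_nonneg η0.le L0)
      push_cast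
      linarith
  have w0 := hV (n0 + u)
  have w1 := hW u hu
  rw [Real.exp_nat_mul, ← hR] at w1
  have c0 : 0 ≤ (if u ≤ v then 2 else pG N k d v) * pq N k d v ^ u * 2 ^ u := by
    have G0 : 0 ≤ pG N k d v := by unfold pG pY; positivity
    split_ifs <;> positivity
  rw [le_div_iff₀ (by positivity)]
  have b1 := mul_le_mul_of_nonneg_right key w0.le
  have b2 := mul_le_mul_of_nonneg_left w1 c0
  rw [mul_pow, mul_pow] at b1
  linarith

end Pool.Agent.MP_a8995d_an.BI
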