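import Pool.Agent.MP_a8995d_an.BI.Spec

/-! The choice of the orders, lower coordinates. -/

namespace Pool.Agent.MP_a8995d_an.BI

open Finset Filter

namespace PosN2x

theorem ev (C : ℝ) (p : ℕ) {s : ℝ} (hs : 0 < s) :
    ∀ᶠ k : ℕ in atTop, C * (Real.log k + 1) ^ p ≤ (k : ℝ) ^ s := by
  have c0 : 0 < (|C| + 1) * 2 ^ p := by positivity
  have h := ((isLittleO_log_rpow_rpow_atTop (p : ℝ) hs).bound (inv_pos.2 c0)).and
    ((Real.tendsto_log_atTop.eventually_ge_atTop 1).and (eventually_ge_atTop 0))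
  filter_upwards [tendsto_natCast_atTop_atTop.eventually h] with k ⟨h1, h2, h3⟩
  rw [Real.rpow_natCast, Real.norm_of_nonneg (by positivity), Real.norm_of_nonneg (by positivity),
    ← div_eq_inv_mul, le_div_iff₀ c0] at h1
  have h4 : (Real.log k + 1) ^ p ≤ (2 * Real.log k) ^ p :=
    pow_le_pow_left₀ (by linarith) (by linarith) _
  rw [mul_pow] at h4
  calc C * (Real.log k + 1) ^ p ≤ (|C| + 1) * (2 ^ p * Real.log k ^ p) :=
        mul_le_mul (by linarith [le_abs_self C]) h4 (by positivity) (by positivity)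
    _ ≤ _ := by linarith

theorem low {a : ℝ} (b : ℝ) (ha : 0 < a) {n0 : ℤ} {j : ℕ} (h : n0 < j) :
    Real.exp (a * (j - 2 * n0 - 1) / 2) ^ j ≤ W a b (n0 - j) := by
  rw [W, if_neg (by omega), ← Real.exp_nat_mul, Real.exp_le_exp]
  have h1 : (0 : ℝ) ≤ (n0 : ℝ) * (n0 + 1) := by
    have : 0 ≤ n0 * (n0 + 1) := by
      rcases le_or_gt 0 n0 with q | q
      · positivity
      · exact mul_nonneg_of_nonpos_of_nonpos q.le (by omega)
    exact_mod_cast this
  push_cast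
  nlinarith [mul_nonneg ha.le h1]

end PosN2x

theorem posN2 : PosN2 := by
  intro a b l ε N v n0 ha hb hN hl hε
  have l0 : 0 < l := by
    by_contra h
    linarith [mul_nonneg ha.le (neg_nonneg.2 (not_lt.1 h))]
  have w0 : 0 < W a b n0 := Real.exp_pos _
  set δ : ℝ := min 1 (ε / W a b n0) with hδ
  have δ0 : 0 < δ := lt_min one_pos (div_pos hε w0)
  have δ1 : δ ≤ 1 := min_le_left _ _
  have δ2 : δ * W a b n0 ≤ ε := (le_div_iff₀ w0).1 (min_le_right _ _)
  set C1 : ℝ := (N + 1) * (l + v + 2) with hC1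
  have N0 : (0 : ℝ) ≤ N := Nat.cast_nonneg _
  have v0 : (0 : ℝ) ≤ v := Nat.cast_nonneg _
  have C11 : 1 ≤ C1 := by linarith [mul_nonneg N0 (by linarith : 0 ≤ l + v + 2)]
  set e0 : ℝ := Real.exp (-(a * (2 * n0 + 1) / 2)) with he0
  have e00 : 0 < e0 := Real.exp_pos _
  have T : Tendsto (fun k : ℕ => l * Real.log k) atTop atTop :=
    (Real.tendsto_log_atTop.comp tendsto_natCast_atTop_atTop).const_mul_atTop l0
  filter_upwards [PosN2x.ev (2 * C1) 1 one_pos,
    PosN2x.ev (2 * (16 * (N + 1) ^ 2 * C1 ^ 2) ^ (N * (v + 1)) * (N + 1) / (δ * e0))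
      (2 * (N * (v + 1))) (by linarith : 0 < a * l / 2 - 1),
    T.eventually_ge_atTop n0, eventually_ge_atTop 1] with k h1 h2 h3 h4 d d1 d2 j hj
  have k1 : (1 : ℝ) ≤ k := by exact_mod_cast h4
  have lg : 0 ≤ Real.log k := Real.log_nonneg k1
  set L : ℝ := Real.log k + 1 with hL
  have L1 : 1 ≤ L := by linarith
  rw [pow_one, Real.rpow_one] at h1
  have dj : (d : ℝ) < j := by exact_mod_cast hj
  have d0 : (0 : ℝ) ≤ d := Nat.cast_nonneg _
  have m1 : ((pM N d v + d : ℕ) : ℝ) ≤ C1 * L := by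
    have : (d : ℝ) + v + 1 ≤ (l + v + 2) * L := by
      rw [hL]
      linarith [mul_nonneg (by linarith : (0 : ℝ) ≤ v + 2) lg]
    rw [pM, hC1, mul_assoc]
    push_cast
    linarith [mul_le_mul_of_nonneg_left this (by linarith : (0 : ℝ) ≤ N + 1)]
  have m2 : d + v ≤ pM N d v + d := by
    have : 1 * (d + v + 1) ≤ N * (d + v + 1) := Nat.mul_le_mul_right _ hN
    rw [pM]
    omega
  have m3 : ((d + v : ℕ) : ℝ) ≤ k / 2 := by
    have : ((d + v : ℕ) : ℝ) ≤ (pM N d v + d : ℕ) := Nat.cast_le.2 m2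
    linarith
  have κ1 : (k : ℝ) / 2 ≤ ((k - (d + v) : ℕ) : ℝ) := by
    rw [Nat.cast_sub (Nat.cast_le (α := ℝ) |>.1 (by linarith))]
    linarith
  have κ0 : (0 : ℝ) < ((k - (d + v) : ℕ) : ℝ) := by linarith
  have y0 : 0 ≤ pY N k d v := Nat.cast_nonneg _
  have y1 : pY N k d v ≤ (N + 1) * k := by
    rw [pY, Nat.cast_add, Nat.cast_mul]
    linarith
  have y2 : pY N k d v / ((k - (d + v) : ℕ) : ℝ) ≤ 2 * (N + 1) := by
    rw [div_le_iff₀ κ0]
    linarith [mul_le_mul_of_nonneg_left κ1 (by linarith : (0 : ℝ) ≤ 2 * (N + 1))]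
  have g0 : 0 ≤ pG N k d v := by rw [pG]; positivity
  have g1 : pG N k d v ≤ (4 * (N + 1)) ^ pM N d v := by
    rw [pG, mul_div_assoc]
    exact pow_le_pow_left₀ (by positivity) (by linarith) _
  have q0 : 0 ≤ pq N k d v * pY N k d v := by rw [pq]; positivity
  have q1 : pq N k d v * pY N k d v ≤ (C1 * L) ^ 2 * (2 * (N + 1)) := by
    rw [pq, div_mul_eq_mul_div, mul_div_assoc]
    exact mul_le_mul (pow_le_pow_left₀ (Nat.cast_nonneg _) m1 _) y2 (by positivity) (by positivity)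
  have t1 : ((pM N d v : ℝ) + 1) ≤ 2 ^ pM N d v := by
    exact_mod_cast Nat.succ_le_of_lt Nat.lt_two_pow_self
  set B : ℝ := 16 * (N + 1) ^ 2 * C1 ^ 2 * L ^ 2 with hB
  have B1 : 1 ≤ B := by
    have a1 : (1 : ℝ) ≤ (N + 1) ^ 2 := one_le_pow₀ (by linarith)
    have a2 : 1 ≤ C1 ^ 2 := one_le_pow₀ C11
    have a3 : 1 ≤ L ^ 2 := one_le_pow₀ L1
    exact one_le_mul_of_one_le_of_one_le
      (one_le_mul_of_one_le_of_one_le (by linarith) a2) a3
  have mj : pM N d v ≤ N * (v + 1) * j := by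
    rw [pM, mul_assoc]
    have := Nat.le_mul_of_pos_right v (by omega : 0 < j)
    exact Nat.mul_le_mul_left _ (by rw [add_mul, one_mul]; omega)
  have x1 : (pM N d v + 1) * pG N k d v * (pq N k d v * pY N k d v) ^ pM N d v ≤
      (B ^ (N * (v + 1))) ^ j := by
    rw [← pow_mul]
    refine le_trans ?_ (pow_le_pow_right₀ B1 mj)
    refine (mul_le_mul (mul_le_mul t1 g1 g0 (by positivity)) (pow_le_pow_left₀ q0 q1 _)
      (by positivity) (by positivity)).trans (le_of_eq ?_)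
    rw [← mul_pow, ← mul_pow, hB]
    congr 1
    ring
  have x2 : e0 * ((k : ℝ) ^ (a * l / 2 - 1) * k) ≤ Real.exp (a * (j - 2 * n0 - 1) / 2) := by
    rw [← Real.rpow_add_one (by linarith), Real.rpow_def_of_pos (by linarith), he0,
      ← Real.exp_add, Real.exp_le_exp]
    linarith [mul_le_mul_of_nonneg_left (d1.trans dj.le) ha.le]
  have x3 : B ^ (N * (v + 1)) * pY N k d v * 2 ≤ δ * Real.exp (a * (j - 2 * n0 - 1) / 2) := by
    rw [div_mul_eq_mul_div, div_le_iff₀ (by positivity)] at h2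
    calc B ^ (N * (v + 1)) * pY N k d v * 2 ≤ B ^ (N * (v + 1)) * ((N + 1) * k) * 2 := by gcongr
      _ = 2 * (16 * (N + 1) ^ 2 * C1 ^ 2) ^ (N * (v + 1)) * (N + 1) * L ^ (2 * (N * (v + 1))) *
          k := by rw [hB, mul_pow _ (L ^ 2), ← pow_mul]; ring
      _ ≤ (k : ℝ) ^ (a * l / 2 - 1) * (δ * e0) * k := by gcongr
      _ = δ * (e0 * ((k : ℝ) ^ (a * l / 2 - 1) * k)) := by ring
      _ ≤ _ := by gcongr
  have x4 := PosN2x.low b ha (n0 := n0) (j := j) (by
    have : (n0 : ℝ) < j := by linarith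
    exact_mod_cast this)
  have x5 := pow_le_pow_left₀ (by positivity) x3 j
  rw [mul_pow _ 2, mul_pow _ (pY N k d v), mul_pow δ] at x5
  have x6 : δ ^ j ≤ δ := pow_le_of_le_one δ0.le δ1 (by omega)
  rw [le_div_iff₀ (by positivity)]
  calc _ = (pM N d v + 1) * pG N k d v * (pq N k d v * pY N k d v) ^ pM N d v *
        pY N k d v ^ j * 2 ^ j * W a b n0 := by ring
    _ ≤ (B ^ (N * (v + 1))) ^ j * pY N k d v ^ j * 2 ^ j * W a b n0 := by gcongr
    _ ≤ δ * W a b (n0 - j) * W a b n0 :=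
        mul_le_mul_of_nonneg_right (x5.trans (mul_le_mul x6 x4 (by positivity) δ0.le)) w0.le
    _ = δ * W a b n0 * W a b (n0 - j) := by ring
    _ ≤ _ := mul_le_mul_of_nonneg_right δ2 (Real.exp_pos _).le

end Pool.Agent.MP_a8995d_an.BI
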