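import Pool.Agent.MP_a8995d_an.BI.Spec2
import Pool.Agent.MP_a8995d_an.BI.PosN2

/-! The choice of the orders, lower coordinates, general weights. -/

namespace Pool.Agent.MP_a8995d_an.BI

open Finset Filter Topology

theorem posN2V : PosN2V := by
  intro a p l C ε N n0 V ha hp hN hl hε hV hW
  have l0 : 0 < l := by
    by_contra h
    linarith [mul_nonneg ha.le (neg_nonneg.2 (not_lt.1 h))]
  have w0 : 0 < V n0 := hV _
  set δ : ℝ := min 1 ε with hδ
  have δ0 : 0 < δ := lt_min one_pos hε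
  have δ1 : δ ≤ 1 := min_le_left _ _
  have δ2 : δ ≤ ε := min_le_right _ _
  set r : ℕ := ⌈1 / p⌉₊ with hr
  set C1 : ℝ := 6 * (N + 1) with hC1
  have N0 : (0 : ℝ) ≤ N := Nat.cast_nonneg _
  have C11 : 1 ≤ C1 := by linarith
  set e0 : ℝ := Real.exp (-C) with he0
  have e00 : 0 < e0 := Real.exp_pos _
  have T : Tendsto (fun k : ℕ => l * Real.log k) atTop atTop :=
    (Real.tendsto_log_atTop.comp tendsto_natCast_atTop_atTop).const_mul_atTop l0
  filter_upwards [PosN2x.ev (2 * C1 * l ^ r) r one_pos,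
    PosN2x.ev (2 * (16 * (N + 1) ^ 2 * C1 ^ 2 * (l ^ r) ^ 2) ^ (N * 2) * (N + 1) / (δ * e0))
      (r * 2 * (N * 2)) (by linarith : 0 < a * l - 1),
    T.eventually_ge_atTop 1, eventually_ge_atTop 1] with k h1 h2 h3 h4 d v d1 d2 hv j hj
  have k1 : (1 : ℝ) ≤ k := by exact_mod_cast h4
  have lg : 0 ≤ Real.log k := Real.log_nonneg k1
  have z0 : l * Real.log k ≤ l * (Real.log k + 1) := by nlinarith
  set L : ℝ := Real.log k + 1 with hL
  have L1 : 1 ≤ L := by linarith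
  set Z : ℝ := l ^ r * L ^ r with hZ
  have Z1 : 1 ≤ Z := by
    rw [hZ, ← mul_pow]
    exact one_le_pow₀ (by linarith)
  have Z2 : (l * Real.log k) ^ (1 / p) ≤ Z := by
    refine (Real.rpow_le_rpow_of_exponent_le h3 (Nat.le_ceil _)).trans ?_
    rw [Real.rpow_natCast, hZ, ← mul_pow]
    exact pow_le_pow_left₀ (by linarith) z0 _
  rw [Real.rpow_one, mul_assoc, ← hZ] at h1
  have dj : (d : ℝ) < j := by exact_mod_cast hj
  have d0 : (0 : ℝ) ≤ d := Nat.cast_nonneg _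
  have v0 : (0 : ℝ) ≤ v := Nat.cast_nonneg _
  have v1 : (v : ℝ) ≤ d + 1 := by exact_mod_cast hv
  have m1 : ((pM N d v + d : ℕ) : ℝ) ≤ C1 * Z := by
    have : (d : ℝ) + v + 1 ≤ 6 * Z := by linarith
    rw [pM, hC1]
    push_cast
    linarith [mul_le_mul_of_nonneg_left this (by linarith : (0 : ℝ) ≤ N + 1)]
  have m2 : d + v ≤ pM N d v + d := by
    have : 1 * (d + v + 1) ≤ N * (d + v + 1) := Nat.mul_le_mul_right _ hN
    rw [pM]
    omega
  have m3 : ((d + v : ℕ) : ℝ) ≤ k / 2 := by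
    have : ((d + v : ℕ) : ℝ) ≤ (pM N d v + d : ℕ) := Nat.cast_le.2 m2
    linarith
  have κ1 : (k : ℝ) / 2 ≤ ((k - (d + v) : ℕ) : ℝ) := by
    rw [Nat.cast_sub (Nat.cast_le (α := ℝ) |>.1 (by linarith))]
    linarith
  have κ0 : (0 : ℝ) < ((k - (d + v) : ℕ) : ℝ) := by linarith
  have y0 : 0 ≤ pY N k d v := Nat.cast_nonneg _
  have y1 : pY N k d v ≤ (N + 1) * k := by
    rw [pY, Nat.cast_add, Nat.cast_mul]
    linarith
  have y2 : pY N k d v / ((k - (d + v) : ℕ) : ℝ) ≤ 2 * (N + 1) := by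
    rw [div_le_iff₀ κ0]
    linarith [mul_le_mul_of_nonneg_left κ1 (by linarith : (0 : ℝ) ≤ 2 * (N + 1))]
  have g0 : 0 ≤ pG N k d v := by rw [pG]; positivity
  have g1 : pG N k d v ≤ (4 * (N + 1)) ^ pM N d v := by
    rw [pG, mul_div_assoc]
    exact pow_le_pow_left₀ (by positivity) (by linarith) _
  have q0 : 0 ≤ pq N k d v * pY N k d v := by rw [pq]; positivity
  have q1 : pq N k d v * pY N k d v ≤ (C1 * Z) ^ 2 * (2 * (N + 1)) := by
    rw [pq, div_mul_eq_mul_div, mul_div_assoc]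
    exact mul_le_mul (pow_le_pow_left₀ (Nat.cast_nonneg _) m1 _) y2 (by positivity) (by positivity)
  have t1 : ((pM N d v : ℝ) + 1) ≤ 2 ^ pM N d v := by
    exact_mod_cast Nat.succ_le_of_lt Nat.lt_two_pow_self
  set B : ℝ := 16 * (N + 1) ^ 2 * C1 ^ 2 * Z ^ 2 with hB
  have B1 : 1 ≤ B := by
    have a1 : (1 : ℝ) ≤ (N + 1) ^ 2 := one_le_pow₀ (by linarith)
    have a2 : 1 ≤ C1 ^ 2 := one_le_pow₀ C11
    have a3 : 1 ≤ Z ^ 2 := one_le_pow₀ Z1
    exact one_le_mul_of_one_le_of_one_le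
      (one_le_mul_of_one_le_of_one_le (by linarith) a2) a3
  have mj : pM N d v ≤ N * 2 * j := by
    rw [pM, mul_assoc]
    exact Nat.mul_le_mul_left _ (by omega)
  have x1 : (pM N d v + 1) * pG N k d v * (pq N k d v * pY N k d v) ^ pM N d v ≤
      (B ^ (N * 2)) ^ j := by
    rw [← pow_mul]
    refine le_trans ?_ (pow_le_pow_right₀ B1 mj)
    refine (mul_le_mul (mul_le_mul t1 g1 g0 (by positivity)) (pow_le_pow_left₀ q0 q1 _)
      (by positivity) (by positivity)).trans (le_of_eq ?_)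
    rw [← mul_pow, ← mul_pow, hB]
    congr 1
    ring
  have jp : l * Real.log k ≤ (j : ℝ) ^ p := by
    have := Real.rpow_le_rpow (by positivity) (d1.trans dj.le) hp.le
    rwa [← Real.rpow_mul (by linarith), one_div_mul_cancel hp.ne', Real.rpow_one] at this
  have x2 : e0 * ((k : ℝ) ^ (a * l - 1) * k) ≤ Real.exp (a * (j : ℝ) ^ p - C) := by
    rw [← Real.rpow_add_one (by linarith), Real.rpow_def_of_pos (by linarith : (0 : ℝ) < k), he0,
      ← Real.exp_add, Real.exp_le_exp]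
    linarith [mul_le_mul_of_nonneg_left jp ha.le]
  have x3 : B ^ (N * 2) * pY N k d v * 2 ≤ δ * Real.exp (a * (j : ℝ) ^ p - C) := by
    rw [div_mul_eq_mul_div, div_le_iff₀ (by positivity)] at h2
    calc B ^ (N * 2) * pY N k d v * 2 ≤ B ^ (N * 2) * ((N + 1) * k) * 2 := by gcongr
      _ = 2 * (16 * (N + 1) ^ 2 * C1 ^ 2 * (l ^ r) ^ 2) ^ (N * 2) * (N + 1) *
          L ^ (r * 2 * (N * 2)) * k := by
        rw [hB, hZ, mul_pow (l ^ r), ← mul_assoc _ ((l ^ r) ^ 2), mul_pow _ ((L ^ r) ^ 2),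
          ← pow_mul L, ← pow_mul L]
        ring
      _ ≤ (k : ℝ) ^ (a * l - 1) * (δ * e0) * k := by gcongr
      _ = δ * (e0 * ((k : ℝ) ^ (a * l - 1) * k)) := by ring
      _ ≤ _ := by gcongr
  have x4 := hW j (by omega)
  rw [Real.exp_nat_mul] at x4
  have x5 := pow_le_pow_left₀ (by positivity) x3 j
  rw [mul_pow _ 2, mul_pow _ (pY N k d v), mul_pow δ] at x5
  have x6 : δ ^ j ≤ ε := (pow_le_of_le_one δ0.le δ1 (by omega)).trans δ2
  rw [le_div_iff₀ (by positivity)]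
  calc _ = (pM N d v + 1) * pG N k d v * (pq N k d v * pY N k d v) ^ pM N d v *
        pY N k d v ^ j * 2 ^ j * V n0 := by ring
    _ ≤ (B ^ (N * 2)) ^ j * pY N k d v ^ j * 2 ^ j * V n0 := by gcongr
    _ ≤ ε * Real.exp (a * (j : ℝ) ^ p - C) ^ j * V n0 :=
        mul_le_mul_of_nonneg_right
          (x5.trans (mul_le_mul_of_nonneg_right x6 (by positivity))) w0.le
    _ = ε * (V n0 * Real.exp (a * (j : ℝ) ^ p - C) ^ j) := by ring
    _ ≤ _ := mul_le_mul_of_nonneg_left x4 hε.le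

end Pool.Agent.MP_a8995d_an.BI
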