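import Pool.Agent.MP_a8995d_an.BI.Spec2
import Pool.Agent.MP_a8995d_an.BI.PosO

/-! From coordinates to the operator, general products of weights. -/

namespace Pool.Agent.MP_a8995d_an.BI

open Finset Filter

namespace PosOV

open PosO (mem nrm)

lemma one (h : OpV) {V : ℤ → ℝ} {N : ℕ} {T : H →L[ℂ] H} (hT : ShV V T)
    (hC : PosCV V N) {i0 : ℕ} (hi : i0 ≤ N) (n0 : ℤ) {ε : ℝ} (hε : 0 < ε) :
    ∀ᶠ k : ℕ in atTop, ∃ x : H, ∀ i ≤ N, ‖((1 + T) ^ (i * k)) x -
      if i = i0 then lp.single 2 n0 (1 : ℂ) else 0‖ ≤ 3 * ε := by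
  filter_upwards [hC i0 hi n0 ε hε] with k ⟨z, hz⟩
  have w : ∀ n, 0 < V n := hT.1
  have w' : ∀ n, (V n : ℂ) ≠ 0 := fun n => Complex.ofReal_ne_zero.2 (w n).ne'
  have m : Memℓp (fun n => ((z n / V n : ℝ) : ℂ)) 2 := by
    refine mem _ n0 (1 + ε) fun n => ?_
    have c := hz 0 (Nat.zero_le _) n
    have e : orb z (0 * k) n = z n := by simp [orb]
    have p : (0 : ℝ) < 2 ^ (n - n0).natAbs := by positivity
    rw [e] at c
    rw [Complex.norm_real, Real.norm_eq_abs, abs_div, abs_of_pos (w n), div_le_iff₀ (w n),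
      show (1 + ε) / 2 ^ (n - n0).natAbs * V n =
        V n / 2 ^ (n - n0).natAbs + ε * V n / 2 ^ (n - n0).natAbs by ring]
    have q := div_pos (w n) p
    split_ifs at c with r
    · obtain ⟨-, rfl⟩ := r
      have := abs_sub_abs_le_abs_sub (z n) (V n)
      rw [abs_of_pos (w n)] at this
      simp only [sub_self, Int.natAbs_zero, pow_zero, div_one] at c ⊢
      linarith
    · rw [sub_zero] at c
      linarith
  refine ⟨⟨_, m⟩, fun i hi => nrm _ n0 ε fun n => ?_⟩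
  have c := hz i hi n
  have e := h V T hT ⟨_, m⟩ (i * k) n
  have e1 : orb (fun m => (V m : ℂ) * ((z m / V m : ℝ) : ℂ)) (i * k) n =
      ((orb z (i * k) n : ℝ) : ℂ) := by
    unfold orb
    push_cast
    refine sum_congr rfl fun j _ => ?_
    rw [mul_div_cancel₀ _ (w' _)]
  have e2 : (V n : ℂ) * (if i = i0 then lp.single 2 n0 (1 : ℂ) else 0 : H) n =
      ((if i = i0 ∧ n = n0 then V n0 else 0 : ℝ) : ℂ) := by
    by_cases r : i = i0
    · by_cases r' : n = n0
      · subst r'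
        simp [r]
      · simp [r, r', lp.single_apply]
    · simp [r]
  have e3 : (V n : ℂ) * ((((1 + T) ^ (i * k)) (⟨_, m⟩ : H) -
      if i = i0 then lp.single 2 n0 (1 : ℂ) else 0 : H) n) =
      ((orb z (i * k) n - if i = i0 ∧ n = n0 then V n0 else 0 : ℝ) : ℂ) := by
    rw [lp.coeFn_sub, Pi.sub_apply, mul_sub, e, e2, Complex.ofReal_sub, ← e1]
  have e4 := congrArg norm e3
  rw [norm_mul, Complex.norm_real, Complex.norm_real, Real.norm_eq_abs, Real.norm_eq_abs,
    abs_of_pos (w n)] at e4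
  refine le_of_mul_le_mul_left ?_ (w n)
  rw [e4]
  refine c.trans (le_of_eq ?_)
  ring

end PosOV

theorem posOV (h : OpV) : PosOV := by
  classical
  intro V N T hT hC U hU
  choose y hy using fun i => (hU i).2
  have f1 : ∀ᶠ F : Finset ℤ in atTop, ∀ i, ∑ n ∈ F, lp.single 2 n (y i n) ∈ U i :=
    eventually_all.2 fun i => (lp.hasSum_single (by norm_num) (y i)).eventually
      ((hU i).1.mem_nhds (hy i))
  obtain ⟨F, hF⟩ := f1.exists
  have f2 : ∀ᶠ r in nhds (0 : ℝ), ∀ i,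
      Metric.closedBall (∑ n ∈ F, lp.single 2 n (y i n) : H) r ⊆ U i :=
    eventually_all.2 fun i => eventually_closedBall_subset ((hU i).1.mem_nhds (hF i))
  obtain ⟨S, hS⟩ : ∃ S, S = ∑ p ∈ (univ : Finset (Fin (N + 1))) ×ˢ F, ‖y p.1 p.2‖ := ⟨_, rfl⟩
  have f3 : Tendsto (fun ε : ℝ => S * (3 * ε)) (nhdsWithin 0 (Set.Ioi 0)) (nhds 0) := by
    have c : Continuous fun ε : ℝ => S * (3 * ε) := by fun_prop
    have := (c.tendsto 0).mono_left (nhdsWithin_le_nhds (s := Set.Ioi 0))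
    simpa using this
  obtain ⟨ε, e1, e2⟩ := ((f3.eventually f2).and self_mem_nhdsWithin).exists
  have f4 := (eventually_all_finset ((univ : Finset (Fin (N + 1))) ×ˢ F)).2 fun p _ =>
    PosOV.one h hT hC (Nat.lt_succ_iff.1 p.1.2) p.2 (Set.mem_Ioi.1 e2)
  filter_upwards [f4] with k hk
  choose! X hX using hk
  refine ⟨∑ p ∈ (univ : Finset (Fin (N + 1))) ×ˢ F, y p.1 p.2 • X p, fun i => e1 i ?_⟩
  have s1 : (∑ n ∈ F, lp.single 2 n (y i n) : H) = ∑ p ∈ (univ : Finset (Fin (N + 1))) ×ˢ F,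
      y p.1 p.2 • (if (i : ℕ) = p.1 then lp.single 2 p.2 (1 : ℂ) else 0 : H) := by
    rw [sum_product, sum_eq_single i]
    · refine sum_congr rfl fun n _ => ?_
      rw [if_pos rfl, ← lp.single_smul, smul_eq_mul, mul_one]
    · intro j _ hj
      refine sum_eq_zero fun n _ => ?_
      rw [if_neg fun e => hj (Fin.ext e.symm), smul_zero]
    · simp
  rw [mem_closedBall_iff_norm, s1, map_sum, ← sum_sub_distrib, hS, sum_mul]
  refine (norm_sum_le _ _).trans (sum_le_sum fun p hp => ?_)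
  rw [map_smul, ← smul_sub, norm_smul]
  exact mul_le_mul_of_nonneg_left (hX p hp i (Nat.lt_succ_iff.1 i.2)) (norm_nonneg _)

end Pool.Agent.MP_a8995d_an.BI
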