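import Pool.Agent.MP_a8995d_an.BI.Spec2

/-! The weights of a bounded shift are bounded, and the signs of the limits. -/

namespace Pool.Agent.MP_a8995d_an.BI

open Finset Filter Topology

theorem signV : SignV where
  bdd := by
    intro w T h n
    have a := h (lp.single 2 n (1 : ℂ)) (n - 1)
    rw [sub_add_cancel, lp.single_apply_self, mul_one] at a
    have b := lp.norm_apply_le_norm (p := 2) (by norm_num) (T (lp.single 2 n (1 : ℂ))) (n - 1)
    have c := T.le_opNorm (lp.single 2 n (1 : ℂ))
    rw [lp.norm_single (by norm_num), norm_one, mul_one] at c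
    rw [a, Complex.norm_real, Real.norm_eq_abs] at b
    exact (le_abs_self _).trans (b.trans c)
  sign := by
    intro u K p c hp h0 hK h
    have t : Tendsto (fun n : ℕ => Real.log K * (n : ℝ) ^ (-p)) atTop (𝓝 0) := by
      have := ((tendsto_rpow_neg_atTop hp).comp tendsto_natCast_atTop_atTop).const_mul (Real.log K)
      simpa using this
    refine le_of_tendsto_of_tendsto h t ?_
    filter_upwards [eventually_gt_atTop 0] with n hn
    have n0 : (0 : ℝ) < n := by exact_mod_cast hn
    have a : Real.log (∏ j ∈ range n, u j) ≤ n * Real.log K := by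
      rw [Real.log_prod (fun j _ => (h0 j).ne')]
      refine (sum_le_card_nsmul _ _ (Real.log K) (fun j _ => Real.log_le_log (h0 j) (hK j))).trans ?_
      simp
    rw [div_le_iff₀ (Real.rpow_pos_of_pos n0 _), mul_assoc, ← Real.rpow_add n0,
      show -p + (1 + p) = 1 by ring, Real.rpow_one, mul_comm]
    exact a

end Pool.Agent.MP_a8995d_an.BI
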