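import Pool.Agent.MP_a8995d_an.BI.Glue2
import Pool.Agent.MP_a8995d_an.BI.Dds
import Pool.Agent.MP_a8995d_an.BI.Dbs
import Pool.Agent.MP_a8995d_an.BI.Orbs
import Pool.Agent.MP_a8995d_an.BI.NegA
import Pool.Agent.MP_a8995d_an.BI.NegB
import Pool.Agent.MP_a8995d_an.BI.PosA
import Pool.Agent.MP_a8995d_an.BI.PosB
import Pool.Agent.MP_a8995d_an.BI.OpV
import Pool.Agent.MP_a8995d_an.BI.NegOV
import Pool.Agent.MP_a8995d_an.BI.PosOV
import Pool.Agent.MP_a8995d_an.BI.NegNV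
import Pool.Agent.MP_a8995d_an.BI.PosN1V
import Pool.Agent.MP_a8995d_an.BI.PosN2V
import Pool.Agent.MP_a8995d_an.BI.LimV
import Pool.Agent.MP_a8995d_an.BI.SignV

/-! The threshold for recurrence of order `N`. -/

namespace Pool.Agent.MP_a8995d_an.BI

open Finset Filter Topology

theorem mainV (w : ℤ → ℝ) (hw : ∀ n, 0 < w n)
    (T : H →L[ℂ] H) (hT : ∀ (x : H) (n : ℤ), T x n = (w (n + 1) : ℂ) * x (n + 1))
    (p a b : ℝ) (hp : 0 < p)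
    (ha : Tendsto (fun n : ℕ => Real.log (∏ j ∈ range n, w (-j)) / (n : ℝ) ^ (1 + p)) atTop
      (𝓝 (-a)))
    (hb : Tendsto (fun n : ℕ => Real.log (∏ j ∈ range n, w (j + 1)) / (n : ℝ) ^ (1 + p)) atTop
      (𝓝 (-b)))
    (N : ℕ) (hN1 : 1 ≤ N) (hne : a ≠ (N : ℝ) ^ p * b) :
    List.TFAE [(N : ℝ) ^ p * b < a,
      ∀ U : Fin (N + 1) → Set H, (∀ i, IsOpen (U i) ∧ (U i).Nonempty) →
        ∀ᶠ k : ℕ in atTop, ∃ x, ∀ i : Fin (N + 1), ((1 + T) ^ (i.val * k)) x ∈ U i,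
      ∀ U : Set H, IsOpen U → U.Nonempty →
        ∃ k : ℕ, 1 ≤ k ∧ ∃ x, ∀ i ≤ N, ((1 + T) ^ (i * k)) x ∈ U] :=
  tfaeV (negA dds (dbs dds) orbs) (negB dds (dbs dds)) negNV (negOV opV)
    (posB (posA dds (dbs dds))) posN1V posN2V (posOV opV) limV signV w hw T hT p a b hp ha hb
    N hN1 hne

end Pool.Agent.MP_a8995d_an.BI
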