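import Pool.Agent.MP_a8995d_an.BI.Spec2

/-! The choice of the order in the certificate, for general weights. -/

namespace Pool.Agent.MP_a8995d_an.BI

open Finset Filter Topology

namespace NegNV

theorem ev (C s p : ℝ) (hC : 0 ≤ C) (hs : 0 < s) (hp : 0 < p) :
    ∀ᶠ x : ℝ in atTop, C * (x + 2) ^ 2 ≤ Real.exp (s * x ^ p) := by
  obtain ⟨m, hm⟩ := exists_nat_ge (3 / p)
  rw [div_le_iff₀ hp] at hm
  filter_upwards [eventually_ge_atTop 1,
    eventually_ge_atTop (9 * C * m.factorial / s ^ m)] with x h1 h2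
  have h0 : 0 ≤ x := by linarith
  refine le_trans ?_ (Real.pow_div_factorial_le_exp (s * x ^ p) (by positivity) m)
  rw [div_le_iff₀ (by positivity)] at h2
  have h3 : x ^ 3 ≤ (x ^ p) ^ m := by
    rw [← Real.rpow_natCast, ← Real.rpow_mul_natCast h0]
    exact Real.rpow_le_rpow_of_exponent_le h1 (by push_cast; linarith)
  rw [le_div_iff₀ (by positivity), mul_pow]
  have h4 : C * (x + 2) ^ 2 ≤ C * (9 * x ^ 2) := mul_le_mul_of_nonneg_left (by nlinarith) hC
  calc _ ≤ C * (9 * x ^ 2) * m.factorial := by gcongr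
    _ = 9 * C * m.factorial * x ^ 2 := by ring
    _ ≤ x * s ^ m * x ^ 2 := by gcongr
    _ = s ^ m * x ^ 3 := by ring
    _ ≤ _ := by gcongr

end NegNV

open NegNV in
theorem negNV : NegNV := by
  intro a b p C N V ha hb hp hN hab hV1 hV2
  have hN0 : (0 : ℝ) < N := by exact_mod_cast hN
  obtain ⟨c, c1, c2⟩ := exists_between hab
  obtain ⟨e, b1, b2⟩ := exists_between c1
  have c0 : 0 < c := ha.trans c1
  have hea : 1 < e / a := (one_lt_div ha).2 b1
  obtain ⟨t, t1, t2⟩ : ∃ t : ℝ, 1 < t ∧ a * t ^ p = e := by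
    refine ⟨(e / a) ^ p⁻¹, Real.one_lt_rpow hea (by positivity), ?_⟩
    rw [Real.rpow_inv_rpow (by linarith) hp.ne', mul_div_cancel₀ _ ha.ne']
  have tx : Tendsto (fun k : ℕ => (Real.log k / c) ^ p⁻¹) atTop atTop :=
    (tendsto_rpow_atTop (inv_pos.2 hp)).comp
      ((Real.tendsto_log_atTop.comp tendsto_natCast_atTop_atTop).atTop_div_const c0)
  filter_upwards [tx.eventually (ev (4 * (N + 1)) c p (by positivity) c0 hp),
    tx.eventually (ev (4 * N * Real.exp C) (c - e) p (by positivity) (by linarith) hp),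
    tx.eventually
      (ev (18 * (N + 1) * Real.exp C) (N ^ p * b - c) p (by positivity) (by linarith) hp),
    tx.eventually_ge_atTop (1 / (t - 1)), eventually_ge_atTop 1] with k e1 e2 e3 e4 hk
  have hK : (1 : ℝ) ≤ k := by exact_mod_cast hk
  have hL : 0 ≤ Real.log k / c := div_nonneg (Real.log_nonneg hK) c0.le
  have eK : Real.exp (c * ((Real.log k / c) ^ p⁻¹) ^ p) = k := by
    rw [Real.rpow_inv_rpow hL hp.ne', mul_div_cancel₀ _ c0.ne', Real.exp_log (by linarith)]
  have x0 : 0 ≤ (Real.log k / c) ^ p⁻¹ := by positivity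
  generalize (Real.log k / c) ^ p⁻¹ = x at e1 e2 e3 e4 eK x0
  rw [eK] at e1
  rw [div_le_iff₀ (by linarith)] at e4
  obtain ⟨d, hodd, d1, d2⟩ : ∃ d : ℕ, Odd d ∧ x ≤ d + 1 ∧ (d : ℝ) ≤ x + 1 := by
    refine ⟨2 * ⌊x / 2⌋₊ + 1, odd_two_mul_add_one _, ?_, ?_⟩ <;> push_cast
    · linarith [Nat.lt_floor_add_one (x / 2)]
    · linarith [Nat.floor_le (show 0 ≤ x / 2 by positivity)]
  have hd1 : 1 ≤ d := hodd.pos
  have hd0 : (1 : ℝ) ≤ d := by exact_mod_cast hd1
  have d4 : (d : ℝ) * (d + 1) ≤ (x + 2) ^ 2 := by nlinarith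
  have d5 : 4 * (N + 1) * ((d : ℝ) * (d + 1)) ≤ k :=
    (mul_le_mul_of_nonneg_left d4 (by positivity)).trans e1
  have d6 : 4 * (N + 1) * (d * (d + 1)) ≤ k := by exact_mod_cast d5
  have d7 : 2 * d ≤ k :=
    le_trans (Nat.mul_le_mul (by omega) (Nat.le_mul_of_pos_right d d.succ_pos)) d6
  have d8 : (k : ℝ) / 2 ≤ ((k - d : ℕ) : ℝ) := by
    rw [Nat.cast_sub (by omega)]
    have : (2 * d : ℝ) ≤ k := by exact_mod_cast d7
    linarith
  refine ⟨d, hodd, by omega, ?_, fun j j1 j2 => ?_, fun n hn => ?_⟩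
  · have : 2 * (2 * d * (N * (d + 1))) ≤ k := by nlinarith
    omega
  · have hj : (1 : ℝ) ≤ j := by exact_mod_cast j1
    have hj' : (j : ℝ) ≤ d := by exact_mod_cast j2
    have w : V (-j) ≤ (Real.exp C * Real.exp (e * x ^ p)) ^ j := by
      refine (hV1 j j1).trans ?_
      rw [← Real.exp_add, ← Real.exp_nat_mul, Real.exp_le_exp]
      have h1 : (j : ℝ) ^ p ≤ t ^ p * x ^ p := by
        rw [← Real.mul_rpow (by linarith) x0]
        exact Real.rpow_le_rpow (by linarith) (by linarith) hp.le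
      have h2 := mul_le_mul_of_nonneg_left h1 ha.le
      rw [← mul_assoc, t2] at h2
      exact mul_le_mul_of_nonneg_left (by linarith) (by linarith)
    have x2 : ((d * (N * (d + 1)) : ℕ) : ℝ) / ((k - d : ℕ) : ℝ) ≤ N * (x + 2) ^ 2 / (k / 2) := by
      refine div_le_div₀ (by positivity) ?_ (by linarith) d8
      push_cast
      rw [mul_left_comm]
      exact mul_le_mul_of_nonneg_left d4 hN0.le
    have x3 : ((d * (N * (d + 1)) : ℕ) : ℝ) / ((k - d : ℕ) : ℝ) *
        (Real.exp C * Real.exp (e * x ^ p)) ≤ 1 / 2 := by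
      refine (mul_le_mul_of_nonneg_right x2 (by positivity)).trans ?_
      have y := mul_le_mul_of_nonneg_right e2 (Real.exp_pos (e * x ^ p)).le
      rw [← Real.exp_add, show (c - e) * x ^ p + e * x ^ p = c * x ^ p by ring, eK] at y
      rw [div_mul_eq_mul_div, div_le_iff₀ (by linarith)]
      linarith
    refine (mul_le_mul_of_nonneg_left w (by positivity)).trans ?_
    rw [← mul_pow, ← one_div_pow]
    exact pow_le_pow_left₀ (by positivity) x3 j
  · have hn' : (N : ℝ) * (d + 1) ≤ n := by exact_mod_cast hn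
    have hdn : d ≤ n := by nlinarith
    have w : V n ≤ (Real.exp C * Real.exp (-(N ^ p * b * x ^ p))) ^ n := by
      refine (hV2 n (hd1.trans hdn)).trans ?_
      rw [← Real.exp_add, ← Real.exp_nat_mul, Real.exp_le_exp]
      have h1 : (N : ℝ) ^ p * x ^ p ≤ (n : ℝ) ^ p := by
        rw [← Real.mul_rpow hN0.le x0]
        exact Real.rpow_le_rpow (by positivity)
          ((mul_le_mul_of_nonneg_left d1 hN0.le).trans hn') hp.le
      have h2 := mul_le_mul_of_nonneg_left h1 hb.le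
      exact mul_le_mul_of_nonneg_left (by linarith) (by positivity)
    have f : (d.factorial : ℝ) ≤ (d : ℝ) ^ n := by
      exact_mod_cast (Nat.factorial_le_pow d).trans (Nat.pow_le_pow_right hd1 hdn)
    have x1 : ((N * k + d : ℕ) : ℝ) ≤ (N + 1) * k := by
      have : (2 * d : ℝ) ≤ k := by exact_mod_cast d7
      push_cast
      linarith
    have x2 : (d : ℝ) ≤ (x + 2) ^ 2 := by nlinarith
    have x3 : d * (9 * ((N * k + d : ℕ) : ℝ)) *
        (Real.exp C * Real.exp (-(N ^ p * b * x ^ p))) ≤ 1 / 2 := by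
      have y := mul_le_mul_of_nonneg_right e3
        (show 0 ≤ k * Real.exp (-(N ^ p * b * x ^ p)) by positivity)
      have z : Real.exp ((N ^ p * b - c) * x ^ p) *
          (k * Real.exp (-(N ^ p * b * x ^ p))) = 1 := by
        rw [← eK, ← Real.exp_add, ← Real.exp_add, Real.exp_eq_one_iff]
        ring
      rw [z] at y
      calc _ ≤ (x + 2) ^ 2 * (9 * ((N + 1) * k)) *
            (Real.exp C * Real.exp (-(N ^ p * b * x ^ p))) := by gcongr
        _ ≤ _ := by linarith
    calc _ ≤ (d : ℝ) ^ n * (9 * ((N * k + d : ℕ) : ℝ)) ^ n *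
          (Real.exp C * Real.exp (-(N ^ p * b * x ^ p))) ^ n :=
          (mul_le_mul_of_nonneg_left w (by positivity)).trans (by gcongr)
      _ ≤ _ := by
          rw [← mul_pow, ← mul_pow, ← one_div_pow]
          exact pow_le_pow_left₀ (by positivity) x3 n

end Pool.Agent.MP_a8995d_an.BI
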