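import Mathlib

/-! Bilateral weighted shifts with Gaussian products of weights: definitions and the statements
of the parts. -/

namespace Pool.Agent.MP_a8995d_an.BI

open Finset Filter

/-- The divided difference of `f` on the nodes `s`. -/
noncomputable def DD (s : Finset ℕ) (f : ℕ → ℝ) : ℝ :=
  ∑ y ∈ s, f y / ∏ x ∈ s.erase y, ((y : ℝ) - x)

/-- The coordinate `n` at time `t` of the orbit of `z` under one plus the shift. -/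
def orb {R : Type} [CommRing R] (z : ℤ → R) (t : ℕ) (n : ℤ) : R :=
  ∑ j ∈ range (t + 1), (t.choose j : R) * z (n + j)

/-- The products of the weights. -/
noncomputable def W (a b : ℝ) (n : ℤ) : ℝ :=
  Real.exp ((if 0 ≤ n then -b else a) * ((n : ℝ) * (n + 1) / 2))

/-- The space. -/
abbrev H : Type := lp (fun _ : ℤ => ℂ) 2

/-- `T` is the shift. -/
def Sh (a b : ℝ) (T : H →L[ℂ] H) : Prop := ∀ (x : H) (n : ℤ),
  T x n = (Real.exp (min (-b * ((n : ℝ) + 1)) (a * ((n : ℝ) + 1))) : ℂ) * x (n + 1)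

/-- Rules for divided differences. -/
structure DDS : Prop where
  single : ∀ c f, DD {c} f = f c
  one : ∀ s : Finset ℕ, 2 ≤ s.card → DD s (fun _ => 1) = 0
  mul : ∀ (s : Finset ℕ) (c : ℕ) (r : ℝ) (f : ℕ → ℝ), c ∈ s →
    DD s (fun y => ((y : ℝ) - r) * f y) = ((c : ℝ) - r) * DD s f + DD (s.erase c) f
  cancel : ∀ (s C : Finset ℕ) (f : ℕ → ℝ), C ⊆ s →
    DD s (fun y => (∏ c ∈ C, ((y : ℝ) - c)) * f y) = DD (s \ C) f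
  diff : ∀ (j t : ℕ) (f : ℕ → ℝ), (fwdDiff 1)^[j] f t = j.factorial * DD (Icc t (t + j)) f
  split : ∀ (I : Finset ℕ) (B : ℕ → Finset ℕ) (f : ℕ → ℝ),
    (∀ i ∈ I, ∀ j ∈ I, i ≠ j → Disjoint (B i) (B j)) → DD (I.biUnion B) f =
      ∑ i ∈ I, DD (B i) fun y => f y * (∏ x ∈ I.biUnion B \ B i, ((y : ℝ) - x))⁻¹

/-- Bounds for divided differences of products and of their inverses. -/
structure DBS : Prop where
  zero : ∀ (A B : Finset ℕ), A.card + 1 < B.card → DD B (fun y => ∏ r ∈ A, ((y : ℝ) - r)) = 0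
  prod : ∀ (A B : Finset ℕ) (j : ℕ) (m : ℕ → ℝ) (κ : ℝ), B.card = j + 1 → 0 < κ →
    (∀ r ∈ A, κ ≤ m r) → (∀ r ∈ A, ∀ y ∈ B, |(y : ℝ) - r| ≤ m r) →
    |DD B fun y => ∏ r ∈ A, ((y : ℝ) - r)| ≤ (A.card / κ) ^ j * ∏ r ∈ A, m r
  inv : ∀ (A B : Finset ℕ) (j : ℕ) (m : ℕ → ℝ) (κ : ℝ), B.card = j + 1 → 0 < κ →
    (∀ r ∈ A, κ ≤ m r) → (∀ r ∈ A, ∀ y ∈ B, m r ≤ |(y : ℝ) - r|) →
    |DD B fun y => (∏ r ∈ A, ((y : ℝ) - r))⁻¹| ≤ (A.card / κ) ^ j * ∏ r ∈ A, (m r)⁻¹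

/-- Orbits. -/
structure OrbS : Prop where
  add : ∀ (z : ℤ → ℝ) (t s : ℕ) (n : ℤ),
    orb z (t + s) n = ∑ j ∈ range (s + 1), (s.choose j : ℝ) * orb z t (n + j)
  op : ∀ (a b : ℝ) (T : H →L[ℂ] H), 0 < a → 0 < b → Sh a b T → ∀ (x : H) (t : ℕ) (n : ℤ),
    (W a b n : ℂ) * ((1 + T) ^ t) x n = orb (fun m => (W a b m : ℂ) * x m) t n
  ex : ∀ a b : ℝ, 0 < a → 0 < b → ∃ T, Sh a b T

/-- The nodes. -/
def nod (N k d : ℕ) : Finset ℕ := (range (N + 1)).biUnion fun i => Icc (i * k) (i * k + d)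

/-- The leading weight of a cluster of nodes. -/
noncomputable def cw (N k d i : ℕ) : ℝ :=
  (∏ x ∈ nod N k d \ Icc (i * k) (i * k + d), (((i * k + d : ℕ) : ℝ) - x))⁻¹ / d.factorial

/-- The main term of the certificate. -/
def NegA : Prop := ∀ (N k d : ℕ) (z V : ℤ → ℝ), Odd d → d < k →
  2 * d * (N * (d + 1)) ≤ k - d → V 0 = 1 →
  (∀ j : ℕ, 1 ≤ j → j ≤ d → ((d * (N * (d + 1)) : ℕ) / ((k - d : ℕ) : ℝ)) ^ j * V (-j) ≤ 1 / 2 ^ j) →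
  (∀ i ≤ N, ∀ n, |orb z (i * k) n - if n = 0 then 1 else 0| ≤ V n / 10) →
  (∀ i ≤ N, 1 ≤ d.factorial * ((N * k + d : ℕ) : ℝ) ^ (N * (d + 1)) * cw N k d i) ∧
    7 / 10 * ∑ i ∈ range (N + 1), cw N k d i ≤ DD (nod N k d) fun y => orb z y (-d)

/-- The tail of the certificate. -/
def NegB : Prop := ∀ (N k d : ℕ) (z V : ℤ → ℝ), 1 ≤ N → d < k →
  (∀ n : ℕ, N * (d + 1) ≤ n → d.factorial * (9 * ((N * k + d : ℕ) : ℝ)) ^ n * V n ≤ 1 / 2 ^ n) →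
  (∀ n : ℕ, 1 ≤ n → |z n| ≤ V n / 10) →
  d.factorial * ((N * k + d : ℕ) : ℝ) ^ (N * (d + 1)) * |DD (nod N k d) fun y => orb z y (-d)| ≤
    2 / 10

/-- The choice of the order in the certificate. -/
def NegN : Prop := ∀ (a b : ℝ) (N : ℕ), 0 < a → 0 < b → a < N * b → ∀ᶠ k : ℕ in atTop,
  ∃ d : ℕ, Odd d ∧ d < k ∧ 2 * d * (N * (d + 1)) ≤ k - d ∧
  (∀ j : ℕ, 1 ≤ j → j ≤ d →
    ((d * (N * (d + 1)) : ℕ) / ((k - d : ℕ) : ℝ)) ^ j * W a b (-j) ≤ 1 / 2 ^ j) ∧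
  ∀ n : ℕ, N * (d + 1) ≤ n → d.factorial * (9 * ((N * k + d : ℕ) : ℝ)) ^ n * W a b n ≤ 1 / 2 ^ n

/-- No return at large times. -/
def NegC (a b : ℝ) (N : ℕ) : Prop := ∀ᶠ k : ℕ in atTop, ∀ z : ℤ → ℝ,
  ¬ ∀ i ≤ N, ∀ n, |orb z (i * k) n - if n = 0 then 1 else 0| ≤ W a b n / 10

/-- From coordinates to the operator. -/
def NegO : Prop := ∀ (a b : ℝ) (N : ℕ) (T : H →L[ℂ] H), 0 < a → 0 < b → 1 ≤ N → Sh a b T →
  NegC a b N → ∃ U : Set H, IsOpen U ∧ U.Nonempty ∧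
    ∀ k : ℕ, 1 ≤ k → ∀ x, ¬ ∀ i ≤ N, ((1 + T) ^ (i * k)) x ∈ U

/-- The number of nodes in the far clusters. -/
def pM (N d v : ℕ) : ℕ := N * (d + v + 1)

/-- The ratio in the bounds. -/
noncomputable def pq (N k d v : ℕ) : ℝ := ((pM N d v + d : ℕ) : ℝ) ^ 2 / ((k - (d + v) : ℕ) : ℝ)

/-- The length of the window. -/
noncomputable def pY (N k d v : ℕ) : ℝ := ((N * k + (pM N d v + d) : ℕ) : ℝ)

/-- The loss at the other clusters. -/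
noncomputable def pG (N k d v : ℕ) : ℝ :=
  (2 * pY N k d v / ((k - (d + v) : ℕ) : ℝ)) ^ pM N d v

/-- The differences of the interpolating polynomial. -/
def PosA : Prop := ∀ N k d v i0 : ℕ, 1 ≤ N → i0 ≤ N → d + v < k →
  2 * pM N d v ^ 2 ≤ k - (d + v) → ∃ Q : ℕ → ℝ, ∀ i ≤ N,
    (∀ s < d, (fwdDiff 1)^[s] Q (i * k) = 0) ∧
    (fwdDiff 1)^[d] Q (i * k) = (if i = i0 then 1 else 0) ∧
    ∀ u : ℕ, 1 ≤ u → |(fwdDiff 1)^[d + u] Q (i * k)| ≤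
      (if u ≤ v then 2 else if u ≤ pM N d v then pG N k d v else 0) * pq N k d v ^ u

/-- The coordinates of the orbit. -/
def PosB : Prop := ∀ N k d v i0 : ℕ, 1 ≤ N → i0 ≤ N → d + v < k →
  2 * pM N d v ^ 2 ≤ k - (d + v) → ∃ z : ℤ → ℝ, ∀ i ≤ N,
    orb z (i * k) 0 = (if i = i0 then 1 else 0) ∧
    (∀ j : ℕ, 1 ≤ j → j ≤ d → orb z (i * k) (-j) = 0) ∧
    (∀ u : ℕ, 1 ≤ u → |orb z (i * k) u| ≤
      (if u ≤ v then 2 else if u ≤ pM N d v then pG N k d v else 0) * pq N k d v ^ u) ∧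
    ∀ j : ℕ, d < j → |orb z (i * k) (-j)| ≤ (pM N d v + 1) * pG N k d v *
      (pq N k d v * pY N k d v) ^ pM N d v * pY N k d v ^ j

/-- The choice of the orders, upper coordinates. -/
def PosN1 : Prop := ∀ (a b l ε : ℝ) (N : ℕ) (n0 : ℤ), 0 < a → 0 < b → 1 ≤ N → 0 < l →
  N * b * l < 2 → 0 < ε → ∃ v : ℕ, ∀ᶠ k : ℕ in atTop, ∀ d : ℕ, (d : ℝ) ≤ l * Real.log k + 1 →
    d + v < k ∧ 2 * pM N d v ^ 2 ≤ k - (d + v) ∧ ∀ u : ℕ, 1 ≤ u → u ≤ pM N d v →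
      (if u ≤ v then 2 else pG N k d v) * pq N k d v ^ u * W a b n0 ≤
        ε * W a b (n0 + u) / 2 ^ u

/-- The choice of the orders, lower coordinates. -/
def PosN2 : Prop := ∀ (a b l ε : ℝ) (N v : ℕ) (n0 : ℤ), 0 < a → 0 < b → 1 ≤ N → 2 < a * l →
  0 < ε → ∀ᶠ k : ℕ in atTop, ∀ d : ℕ, l * Real.log k ≤ d → (d : ℝ) ≤ l * Real.log k + 1 →
    ∀ j : ℕ, d < j → (pM N d v + 1) * pG N k d v * (pq N k d v * pY N k d v) ^ pM N d v *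
      pY N k d v ^ j * W a b n0 ≤ ε * W a b (n0 - j) / 2 ^ j

/-- One target at one time. -/
def PosC (a b : ℝ) (N : ℕ) : Prop := ∀ i0 ≤ N, ∀ (n0 : ℤ) (ε : ℝ), 0 < ε →
  ∀ᶠ k : ℕ in atTop, ∃ z : ℤ → ℝ, ∀ i ≤ N, ∀ n,
    |orb z (i * k) n - if i = i0 ∧ n = n0 then W a b n0 else 0| ≤
      ε * W a b n / 2 ^ (n - n0).natAbs

/-- From coordinates to the operator. -/
def PosO : Prop := ∀ (a b : ℝ) (N : ℕ) (T : H →L[ℂ] H), 0 < a → 0 < b → Sh a b T → PosC a b N →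
  ∀ U : Fin (N + 1) → Set H, (∀ i, IsOpen (U i) ∧ (U i).Nonempty) →
    ∀ᶠ k : ℕ in atTop, ∃ x, ∀ i : Fin (N + 1), ((1 + T) ^ (i.val * k)) x ∈ U i

end Pool.Agent.MP_a8995d_an.BI
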