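import Pool.Agent.MP_a8995d_an.BI.Spec

/-! General products of weights: the statements of the remaining parts. -/

namespace Pool.Agent.MP_a8995d_an.BI

open Finset Filter Topology

/-- `T` is the shift whose products of weights are `V`. -/
def ShV (V : ℤ → ℝ) (T : H →L[ℂ] H) : Prop :=
  (∀ n, 0 < V n) ∧ V 0 = 1 ∧ ∀ (x : H) (n : ℤ), (V n : ℂ) * T x n = (V (n + 1) : ℂ) * x (n + 1)

/-- Orbits in coordinates. -/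
def OpV : Prop := ∀ (V : ℤ → ℝ) (T : H →L[ℂ] H), ShV V T → ∀ (x : H) (t : ℕ) (n : ℤ),
  (V n : ℂ) * ((1 + T) ^ t) x n = orb (fun m => (V m : ℂ) * x m) t n

/-- No return at large times. -/
def NegCV (V : ℤ → ℝ) (N : ℕ) : Prop := ∀ᶠ k : ℕ in atTop, ∀ z : ℤ → ℝ,
  ¬ ∀ i ≤ N, ∀ n, |orb z (i * k) n - if n = 0 then 1 else 0| ≤ V n / 10

/-- From coordinates to the operator. -/
def NegOV : Prop := ∀ (V : ℤ → ℝ) (N : ℕ) (T : H →L[ℂ] H), 1 ≤ N → ShV V T →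
  NegCV V N → ∃ U : Set H, IsOpen U ∧ U.Nonempty ∧
    ∀ k : ℕ, 1 ≤ k → ∀ x, ¬ ∀ i ≤ N, ((1 + T) ^ (i * k)) x ∈ U

/-- One target at one time. -/
def PosCV (V : ℤ → ℝ) (N : ℕ) : Prop := ∀ i0 ≤ N, ∀ (n0 : ℤ) (ε : ℝ), 0 < ε →
  ∀ᶠ k : ℕ in atTop, ∃ z : ℤ → ℝ, ∀ i ≤ N, ∀ n,
    |orb z (i * k) n - if i = i0 ∧ n = n0 then V n0 else 0| ≤ ε * V n / 2 ^ (n - n0).natAbs

/-- From coordinates to the operator. -/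
def PosOV : Prop := ∀ (V : ℤ → ℝ) (N : ℕ) (T : H →L[ℂ] H), ShV V T → PosCV V N →
  ∀ U : Fin (N + 1) → Set H, (∀ i, IsOpen (U i) ∧ (U i).Nonempty) →
    ∀ᶠ k : ℕ in atTop, ∃ x, ∀ i : Fin (N + 1), ((1 + T) ^ (i.val * k)) x ∈ U i

/-- The choice of the order in the certificate. -/
def NegNV : Prop := ∀ (a b p C : ℝ) (N : ℕ) (V : ℤ → ℝ), 0 < a → 0 < b → 0 < p → 1 ≤ N →
  a < (N : ℝ) ^ p * b →
  (∀ j : ℕ, 1 ≤ j → V (-j) ≤ Real.exp (j * (a * (j : ℝ) ^ p + C))) →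
  (∀ n : ℕ, 1 ≤ n → V n ≤ Real.exp (n * (C - b * (n : ℝ) ^ p))) → ∀ᶠ k : ℕ in atTop,
  ∃ d : ℕ, Odd d ∧ d < k ∧ 2 * d * (N * (d + 1)) ≤ k - d ∧
  (∀ j : ℕ, 1 ≤ j → j ≤ d →
    ((d * (N * (d + 1)) : ℕ) / ((k - d : ℕ) : ℝ)) ^ j * V (-j) ≤ 1 / 2 ^ j) ∧
  ∀ n : ℕ, N * (d + 1) ≤ n → d.factorial * (9 * ((N * k + d : ℕ) : ℝ)) ^ n * V n ≤ 1 / 2 ^ n

/-- The choice of the orders, upper coordinates. -/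
def PosN1V : Prop := ∀ (b p l C ε : ℝ) (N : ℕ) (n0 : ℤ) (V : ℤ → ℝ), 0 < b → 0 < p → 1 ≤ N →
  0 < l → (N : ℝ) ^ p * b * l < 1 → 0 < ε → (∀ n, 0 < V n) →
  (∀ u : ℕ, 1 ≤ u → V n0 ≤ V (n0 + u) * Real.exp (u * (b * (u : ℝ) ^ p + C))) →
  ∃ δ : ℝ, 0 < δ ∧ δ ≤ 1 ∧ ∀ᶠ k : ℕ in atTop, ∀ d v : ℕ, (l * Real.log k) ^ (1 / p) ≤ d →
    (d : ℝ) ≤ (l * Real.log k) ^ (1 / p) + 1 → δ * d ≤ v → (v : ℝ) ≤ δ * d + 1 →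
    d + v < k ∧ 2 * pM N d v ^ 2 ≤ k - (d + v) ∧ ∀ u : ℕ, 1 ≤ u → u ≤ pM N d v →
      (if u ≤ v then 2 else pG N k d v) * pq N k d v ^ u * V n0 ≤ ε * V (n0 + u) / 2 ^ u

/-- The choice of the orders, lower coordinates. -/
def PosN2V : Prop := ∀ (a p l C ε : ℝ) (N : ℕ) (n0 : ℤ) (V : ℤ → ℝ), 0 < a → 0 < p → 1 ≤ N →
  1 < a * l → 0 < ε → (∀ n, 0 < V n) →
  (∀ j : ℕ, 1 ≤ j → V n0 * Real.exp (j * (a * (j : ℝ) ^ p - C)) ≤ V (n0 - j)) →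
  ∀ᶠ k : ℕ in atTop, ∀ d v : ℕ, (l * Real.log k) ^ (1 / p) ≤ d →
    (d : ℝ) ≤ (l * Real.log k) ^ (1 / p) + 1 → v ≤ d + 1 →
    ∀ j : ℕ, d < j → (pM N d v + 1) * pG N k d v * (pq N k d v * pY N k d v) ^ pM N d v *
      pY N k d v ^ j * V n0 ≤ ε * V (n0 - j) / 2 ^ j

/-- From a limit to a bound at every index, after a translation. -/
def LimV : Prop := ∀ (f : ℤ → ℝ) (p c c' : ℝ) (n0 : ℤ), 0 < p → c < c' →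
  Tendsto (fun n : ℕ => f n / (n : ℝ) ^ (1 + p)) atTop (𝓝 c) →
  ∃ C : ℝ, ∀ u : ℕ, 1 ≤ u → f (n0 + u) - f n0 ≤ u * (c' * (u : ℝ) ^ p + C)

/-- The signs of the limits. -/
structure SignV : Prop where
  bdd : ∀ (w : ℤ → ℝ) (T : H →L[ℂ] H),
    (∀ (x : H) (n : ℤ), T x n = (w (n + 1) : ℂ) * x (n + 1)) → ∀ n, w n ≤ ‖T‖
  sign : ∀ (u : ℕ → ℝ) (K p c : ℝ), 0 < p → (∀ n, 0 < u n) → (∀ n, u n ≤ K) →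
    Tendsto (fun n : ℕ => Real.log (∏ j ∈ range n, u j) / (n : ℝ) ^ (1 + p)) atTop (𝓝 c) → c ≤ 0

end Pool.Agent.MP_a8995d_an.BI
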